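import Pool.Agent.ZT.Defs

/-!
# ZT, rows A3: unique decomposition into irreducible bridges, renewal equation, the law of a piece (helper59)
-/

open MeasureTheory Set Filter
open scoped ENNReal Topology

namespace ZT

namespace A3

lemma Y_append (v w : Wd) : Y (v ++ w) = Y v + Y w := by simp [Y]

lemma X_append (v w : Wd) : X (v ++ w) = X v + X w := by simp [X]

lemma Y_nil : Y [] = 0 := rfl

lemma br_nil : Br [] := by
  refine ⟨fun v hv hn => ?_, fun v hv hn => ?_, fun v hv => ?_⟩
  · exact absurd (List.eq_nil_of_infix_nil hv) hn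
  · exact absurd (List.eq_nil_of_prefix_nil hv) hn
  · rw [List.eq_nil_of_suffix_nil hv]
    exact le_rfl

lemma Br.Y_nonneg {w : Wd} (h : Br w) : 0 ≤ Y w := h.2.2 w List.suffix_rfl

lemma Br.Y_pos {w : Wd} (h : Br w) (hn : w ≠ []) : 0 < Y w := h.2.1 w List.prefix_rfl hn

lemma SA.ifx {v w : Wd} (h : SA w) (hv : v <:+: w) : SA v := fun _ h1 h2 => h _ (h1.trans hv) h2

lemma br_append {v w : Wd} (hv : Br v) (hw : Br w) : Br (v ++ w) := by
  refine ⟨?_, ?_, ?_⟩
  · intro p hp hn hc
    obtain ⟨a, b, hab⟩ := hp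
    -- a ++ p ++ b = v ++ w
    rw [List.append_assoc] at hab
    rcases List.append_eq_append_iff.1 hab with ⟨c, hc1, hc2⟩ | ⟨c, hc1, hc2⟩
    · -- v = a ++ c, p ++ b = c ++ w
      rcases List.append_eq_append_iff.1 hc2 with ⟨d, hd1, hd2⟩ | ⟨d, hd1, hd2⟩
      · -- c = p ++ d
        refine hv.1 p ⟨a, d, ?_⟩ hn hc
        rw [hc1, hd1, List.append_assoc]
      · -- p = c ++ d, w = d ++ b
        by_cases hd : d = []
        · refine hv.1 p ⟨a, [], ?_⟩ hn hc
          rw [hc1, hd1, hd]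
          simp
        · have h1 : 0 ≤ Y c := hv.2.2 c ⟨a, hc1.symm⟩
          have h2 : 0 < Y d := hw.2.1 d ⟨b, hd2.symm⟩ hd
          have h3 := hc.2
          rw [hd1, Y_append] at h3
          linarith
    · -- a = v ++ c, w = c ++ (p ++ b)
      refine hw.1 p ⟨c, b, ?_⟩ hn hc
      rw [hc2, List.append_assoc]
  · intro p hp hn
    obtain ⟨b, hb⟩ := hp
    rcases List.append_eq_append_iff.1 hb with ⟨d, hd1, hd2⟩ | ⟨d, hd1, hd2⟩
    · exact hv.2.1 p ⟨d, hd1.symm⟩ hn
    · by_cases hd : d = []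
      · rw [hd, List.append_nil] at hd1
        rw [hd1] at hn ⊢
        exact hv.2.1 v List.prefix_rfl hn
      · have h2 : 0 < Y d := hw.2.1 d ⟨b, hd2.symm⟩ hd
        have h1 := Br.Y_nonneg hv
        rw [hd1, Y_append]
        linarith
  · intro p hp
    obtain ⟨b, hb⟩ := hp
    rcases List.append_eq_append_iff.1 hb with ⟨d, hd1, hd2⟩ | ⟨d, hd1, hd2⟩
    · -- v = b ++ d, p = d ++ w
      have h1 : 0 ≤ Y d := hv.2.2 d ⟨b, hd1.symm⟩
      have h2 := Br.Y_nonneg hw
      rw [hd2, Y_append]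
      linarith
    · exact hw.2.2 p ⟨d, hd2.symm⟩

/-- the difference of two cuts is a bridge -/
lemma br_mid {v k w : Wd} (h1 : Br (v ++ k)) (h2 : Br (k ++ w)) : Br k := by
  refine ⟨SA.ifx h1.1 (List.suffix_append v k).isInfix, fun p hp hn => ?_, fun p hp => ?_⟩
  · exact h2.2.1 p (hp.trans (List.prefix_append k w)) hn
  · exact h1.2.2 p (hp.trans (List.suffix_append v k))

/-- uniqueness of the first piece -/
lemma first_unique {g g' v v' : Wd} (hg : Ir g) (hg' : Ir g') (hv : Br v) (hv' : Br v') (h : g ++ v = g' ++ v') :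
    g = g' ∧ v = v' := by
  rcases List.append_eq_append_iff.1 h with ⟨d, hd1, hd2⟩ | ⟨d, hd1, hd2⟩
  · have hd : Br d := br_mid (v := g) (by rw [← hd1]; exact hg'.2.1) (by rw [← hd2]; exact hv)
    rcases hg'.2.2 g d hd1 hg.2.1 hd with h1 | h1
    · exact absurd h1 hg.1
    · subst h1
      simp only [List.append_nil, List.nil_append] at hd1 hd2
      exact ⟨hd1.symm, hd2⟩
  · have hd : Br d := br_mid (v := g') (by rw [← hd1]; exact hg.2.1) (by rw [← hd2]; exact hv')
    rcases hg.2.2 g' d hd1 hg'.2.1 hd with h1 | h1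
    · exact absurd h1 hg'.1
    · subst h1
      simp only [List.append_nil, List.nil_append] at hd1 hd2
      exact ⟨hd1, hd2.symm⟩

lemma br_flatten {l : List Wd} (h : ∀ g ∈ l, Ir g) : Br l.flatten := by
  induction l with
  | nil => exact br_nil
  | cons g l ih =>
    rw [List.flatten_cons]
    exact br_append (h g List.mem_cons_self).2.1 (ih fun g' hg' => h g' (List.mem_cons_of_mem _ hg'))

lemma uniq_list : ∀ l l' : List Wd, (∀ g ∈ l, Ir g) → (∀ g ∈ l', Ir g) → l.flatten = l'.flatten → l = l' := by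
  intro l
  induction l with
  | nil =>
    intro l' _ h' he
    cases l' with
    | nil => rfl
    | cons g l' =>
      exfalso
      rw [List.flatten_nil, List.flatten_cons] at he
      exact (h' g List.mem_cons_self).1 (List.append_eq_nil_iff.1 he.symm).1
  | cons g l ih =>
    intro l' h h' he
    cases l' with
    | nil =>
      exfalso
      rw [List.flatten_nil, List.flatten_cons] at he
      exact (h g List.mem_cons_self).1 (List.append_eq_nil_iff.1 he).1
    | cons g' l' =>
      rw [List.flatten_cons, List.flatten_cons] at he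
      have hl : ∀ k ∈ l, Ir k := fun k hk => h k (List.mem_cons_of_mem _ hk)
      have hl' : ∀ k ∈ l', Ir k := fun k hk => h' k (List.mem_cons_of_mem _ hk)
      obtain ⟨h1, h2⟩ := first_unique (h g List.mem_cons_self) (h' g' List.mem_cons_self) (br_flatten hl)
        (br_flatten hl') he
      rw [h1, ih l' hl hl' h2]

lemma exists_list : ∀ (n : ℕ) (w : Wd), w.length ≤ n → Br w → ∃ l : List Wd, (∀ g ∈ l, Ir g) ∧ l.flatten = w := by
  intro n
  induction n with
  | zero =>
    intro w hn _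
    have : w = [] := List.eq_nil_of_length_eq_zero (by omega)
    exact ⟨[], by simp, by rw [this]; rfl⟩
  | succ n ih =>
    intro w hn hw
    by_cases h0 : w = []
    · exact ⟨[], by simp, by rw [h0]; rfl⟩
    by_cases hi : Ir w
    · exact ⟨[w], by simpa using hi, by simp⟩
    · have hi' : ∃ v k, w = v ++ k ∧ Br v ∧ Br k ∧ v ≠ [] ∧ k ≠ [] := by
        by_contra hc
        refine hi ⟨h0, hw, fun v k h1 h2 h3 => ?_⟩
        by_contra hh
        push Not at hh
        exact hc ⟨v, k, h1, h2, h3, hh.1, hh.2⟩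
      obtain ⟨v, k, h1, h2, h3, h4, h5⟩ := hi'
      have hlen : w.length = v.length + k.length := by rw [h1, List.length_append]
      have h6 := List.length_pos_iff.2 h4
      have h7 := List.length_pos_iff.2 h5
      obtain ⟨l1, a1, b1⟩ := ih v (by omega) h2
      obtain ⟨l2, a2, b2⟩ := ih k (by omega) h3
      refine ⟨l1 ++ l2, fun g hg => ?_, ?_⟩
      · rcases List.mem_append.1 hg with h | h
        · exact a1 g h
        · exact a2 g h
      · rw [List.flatten_append, b1, b2, h1]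

end A3

open A3

/-- **unique factorisation** -/
theorem uniq : Uniq := fun _ _ l hl l' hl' h => uniq_list l l' hl.2 hl'.2 h

/-- **every bridge is a product of irreducible bridges** -/
theorem fact : Fact := by
  intro w
  constructor
  · intro hw
    obtain ⟨l, h1, h2⟩ := exists_list w.length w le_rfl hw
    exact ⟨l.length, l, ⟨rfl, h1⟩, h2⟩
  · rintro ⟨n, l, hl, rfl⟩
    exact br_flatten hl.2

namespace A3

/-! ### masses of products -/

lemma xe_nonneg (lam : ℝ) : 0 ≤ xc * Real.exp (-lam) :=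
  mul_nonneg (inv_nonneg.2 (Real.exp_pos _).le) (Real.exp_pos _).le

lemma xe_pos (lam : ℝ) : 0 < xc * Real.exp (-lam) :=
  mul_pos (inv_pos.2 (Real.exp_pos _)) (Real.exp_pos _)

lemma wt_append (lam : ℝ) (v w : Wd) : wt lam (v ++ w) = wt lam v * wt lam w := by
  unfold wt
  rw [List.length_append, pow_add, ENNReal.ofReal_mul (pow_nonneg (xe_nonneg lam) _)]

lemma wt_nil (lam : ℝ) : wt lam [] = 1 := by simp [wt]

lemma wt_pos (lam : ℝ) (w : Wd) : 0 < wt lam w := by
  unfold wt
  exact ENNReal.ofReal_pos.2 (pow_pos (xe_pos lam) _)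

lemma Ms_mono {lam : ℝ} {A B : Set Wd} (h : A ⊆ B) : Ms lam A ≤ Ms lam B :=
  ENNReal.tsum_le_tsum fun _ => Set.indicator_le_indicator_of_subset h (fun _ => zero_le) _

lemma Ms_singleton (lam : ℝ) (w : Wd) : Ms lam {w} = wt lam w := by
  unfold Ms
  rw [tsum_eq_single w]
  · simp
  · intro v hv
    simp [hv]

/-- the mass of a set of products with a unique factorisation -/
lemma Ms_append {lam : ℝ} {S : Set (Wd × Wd)} (h : S.InjOn (fun p => p.1 ++ p.2)) :
    Ms lam ((fun p : Wd × Wd => p.1 ++ p.2) '' S) = ∑' g, wt lam g * Ms lam {v | (g, v) ∈ S} := by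
  classical
  unfold Ms
  rw [← tsum_subtype, tsum_image (wt lam) h, tsum_subtype S (fun p : Wd × Wd => wt lam (p.1 ++ p.2)), ENNReal.tsum_prod']
  refine tsum_congr fun g => ?_
  rw [← ENNReal.tsum_mul_left]
  refine tsum_congr fun v => ?_
  by_cases hv : (g, v) ∈ S
  · rw [Set.indicator_of_mem hv, Set.indicator_of_mem (show v ∈ {v | (g, v) ∈ S} from hv)]
    exact wt_append lam g v
  · rw [Set.indicator_of_notMem hv, Set.indicator_of_notMem (show v ∉ {v | (g, v) ∈ S} from hv), mul_zero]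

lemma inj_ir : Set.InjOn (fun p : Wd × Wd => p.1 ++ p.2) {p | Ir p.1 ∧ Br p.2} := by
  rintro ⟨g, v⟩ ⟨hg, hv⟩ ⟨g', v'⟩ ⟨hg', hv'⟩ h
  obtain ⟨h1, h2⟩ := first_unique hg hg' hv hv' h
  simp only at h1 h2
  rw [h1, h2]

lemma brS_eq {T : ℕ} (hT : 1 ≤ T) :
    BrS T = (fun p : Wd × Wd => p.1 ++ p.2) '' {p | (Ir p.1 ∧ Br p.2) ∧ Y p.1 + Y p.2 = T} := by
  ext w
  constructor
  · rintro ⟨hw, hY⟩
    obtain ⟨l, h1, h2⟩ := exists_list w.length w le_rfl hw
    cases l with
    | nil =>
      rw [List.flatten_nil] at h2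
      rw [← h2, Y_nil] at hY
      exfalso
      have : (T : ℤ) = 0 := hY.symm
      omega
    | cons g l =>
      refine ⟨(g, l.flatten), ⟨⟨h1 g List.mem_cons_self, br_flatten fun k hk => h1 k (List.mem_cons_of_mem _ hk)⟩, ?_⟩, ?_⟩
      · show Y g + Y l.flatten = T
        rw [← Y_append, ← List.flatten_cons, h2, hY]
      · exact h2
  · rintro ⟨⟨g, v⟩, ⟨⟨hg, hv⟩, hY⟩, rfl⟩
    exact ⟨br_append hg.2.1 hv, by rw [Y_append]; exact hY⟩

end A3

/-- **the renewal equation** -/
theorem ren : Ren := by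
  classical
  intro lam T hT
  have h1 : u lam T = ∑' g, wt lam g * Ms lam {v | (g, v) ∈ {p : Wd × Wd | (Ir p.1 ∧ Br p.2) ∧ Y p.1 + Y p.2 = T}} := by
    rw [← Ms_append (inj_ir.mono fun p hp => hp.1), ← brS_eq hT]
    rfl
  rw [h1]
  have h2 : ∀ s ∈ Finset.range T, a lam (s + 1) * u lam (T - 1 - s) =
      ∑' g, (IrS (s + 1)).indicator (wt lam) g * u lam (T - 1 - s) := by
    intro s _
    rw [ENNReal.tsum_mul_right]
    rfl
  rw [Finset.sum_congr rfl h2, ← Summable.tsum_finsetSum fun _ _ => ENNReal.summable]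
  refine tsum_congr fun g => ?_
  by_cases hg : Ir g
  · have hpos := Br.Y_pos hg.2.1 hg.1
    by_cases hle : Y g ≤ T
    · obtain ⟨s, hs⟩ : ∃ s : ℕ, Y g = (s : ℤ) + 1 := ⟨(Y g - 1).toNat, by omega⟩
      have hsT : s ∈ Finset.range T := Finset.mem_range.2 (by omega)
      rw [Finset.sum_eq_single_of_mem s hsT]
      · rw [Set.indicator_of_mem (show g ∈ IrS (s + 1) from ⟨hg, by rw [hs]; push_cast; rfl⟩)]
        congr 1
        unfold u
        congr 1
        ext v
        constructor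
        · rintro ⟨⟨-, hv⟩, hY⟩
          refine ⟨hv, ?_⟩
          have h4 : Y g + Y v = T := hY
          rw [Finset.mem_range] at hsT
          omega
        · rintro ⟨hv, hY⟩
          refine ⟨⟨hg, hv⟩, ?_⟩
          rw [Finset.mem_range] at hsT
          show Y g + Y v = T
          omega
      · intro s' _ hne
        rw [Set.indicator_of_notMem, zero_mul]
        rintro ⟨-, hY⟩
        apply hne
        push_cast at hY
        omega
    · have e1 : {v | (g, v) ∈ {p : Wd × Wd | (Ir p.1 ∧ Br p.2) ∧ Y p.1 + Y p.2 = T}} = ∅ := by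
        refine Set.eq_empty_of_forall_notMem ?_
        rintro v ⟨⟨-, hv⟩, hY⟩
        have h3 : 0 ≤ Y v := Br.Y_nonneg hv
        have h4 : Y g + Y v = T := hY
        omega
      rw [e1, show Ms lam ∅ = 0 by simp [Ms], mul_zero]
      symm
      refine Finset.sum_eq_zero fun s hs => ?_
      rw [Set.indicator_of_notMem, zero_mul]
      rintro ⟨-, hY⟩
      rw [Finset.mem_range] at hs
      push_cast at hY
      omega
  · have e1 : {v | (g, v) ∈ {p : Wd × Wd | (Ir p.1 ∧ Br p.2) ∧ Y p.1 + Y p.2 = T}} = ∅ := by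
      refine Set.eq_empty_of_forall_notMem ?_
      rintro v ⟨⟨h, -⟩, -⟩
      exact hg h
    rw [e1, show Ms lam ∅ = 0 by simp [Ms], mul_zero]
    symm
    refine Finset.sum_eq_zero fun s _ => ?_
    rw [Set.indicator_of_notMem, zero_mul]
    rintro ⟨h, -⟩
    exact hg h

/-- **integrals over the law of a piece** -/
theorem pInt : PInt := by
  intro f
  unfold P
  rw [lintegral_sum_measure]
  refine tsum_congr fun w => ?_
  rw [lintegral_smul_measure, lintegral_dirac]
  rfl

namespace A3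

lemma ilS_zero : IL 0 = {[]} := by
  ext l
  constructor
  · rintro ⟨h, -⟩
    exact List.eq_nil_of_length_eq_zero h
  · intro h
    rw [Set.mem_singleton_iff.1 h]
    exact ⟨rfl, by simp⟩

lemma flatten_succ (n : ℕ) (A : Set (List Wd)) :
    List.flatten '' (A ∩ IL (n + 1)) = (fun p : Wd × Wd => p.1 ++ p.2) ''
      {p | Ir p.1 ∧ p.2 ∈ List.flatten '' ({l | p.1 :: l ∈ A} ∩ IL n)} := by
  ext w
  constructor
  · rintro ⟨l, ⟨hA, hlen, hl⟩, rfl⟩
    cases l with
    | nil => simp at hlen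
    | cons g l =>
      refine ⟨(g, l.flatten), ⟨hl g List.mem_cons_self, l, ⟨hA, ?_, fun k hk => hl k (List.mem_cons_of_mem _ hk)⟩, rfl⟩, rfl⟩
      simpa using hlen
  · rintro ⟨⟨g, v⟩, ⟨hg, l, ⟨hA, hlen, hl⟩, rfl⟩, rfl⟩
    refine ⟨g :: l, ⟨hA, by simp [hlen], ?_⟩, rfl⟩
    intro k hk
    rcases List.mem_cons.1 hk with rfl | hk
    · exact hg
    · exact hl k hk

end A3

/-- **probabilities of lists of independent pieces are masses** -/
theorem prEq : PrEq := by
  classical
  intro n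
  induction n with
  | zero =>
    intro A
    rw [ilS_zero]
    by_cases h : [] ∈ A
    · have e1 : List.flatten '' (A ∩ {[]}) = {([] : Wd)} := by
        rw [Set.inter_eq_right.2 (Set.singleton_subset_iff.2 h), Set.image_singleton]
        rfl
      rw [e1, Ms_singleton, wt_nil]
      show A.indicator 1 [] = 1
      rw [Set.indicator_of_mem h]
      rfl
    · have e1 : List.flatten '' (A ∩ {[]}) = (∅ : Set Wd) := by
        rw [Set.inter_singleton_eq_empty.2 h, Set.image_empty]
      rw [e1, show Ms 0 (∅ : Set Wd) = 0 by simp [Ms]]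
      show A.indicator 1 [] = 0
      rw [Set.indicator_of_notMem h]
  | succ n ih =>
    intro A
    have hsub : {p : Wd × Wd | Ir p.1 ∧ p.2 ∈ List.flatten '' ({l | p.1 :: l ∈ A} ∩ IL n)} ⊆ {p | Ir p.1 ∧ Br p.2} := by
      rintro p ⟨h1, l, hl, h2⟩
      exact ⟨h1, by rw [← h2]; exact br_flatten hl.2.2⟩
    rw [flatten_succ, Ms_append (inj_ir.mono hsub)]
    show ∫⁻ g, ZB.pr P n {l | g :: l ∈ A} ∂P = _
    rw [pInt]
    refine tsum_congr fun g => ?_
    by_cases hg : Ir g
    · rw [Set.indicator_of_mem (show g ∈ {w | Ir w} from hg), ih]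
      congr 2
      ext v
      exact ⟨fun h => ⟨hg, h⟩, fun h => h.2⟩
    · rw [Set.indicator_of_notMem (show g ∉ {w | Ir w} from hg), zero_mul]
      have e1 : {v | (g, v) ∈ {p : Wd × Wd | Ir p.1 ∧ p.2 ∈ List.flatten '' ({l | p.1 :: l ∈ A} ∩ IL n)}} = ∅ :=
        Set.eq_empty_of_forall_notMem fun v h => hg h.1
      rw [e1, show Ms 0 (∅ : Set Wd) = 0 by simp [Ms], mul_zero]

end ZT
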