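import Mathlib
import Pool.Agent.ZT.Basic
import Pool.Agent.ZB.Fold

/-!
# Folds: the concrete words

The predicates of `ZB.Defs` in terms of the abstract ones of `ZB.Fold`.
-/

namespace ZT

theorem Y_eq (w : Wd) : Y w = ZBF.hh dy w := rfl

theorem yt_eq (w : Wd) (i : ℕ) : yt w i = ZBF.yy dy w i := rfl

theorem dy_le (s : St) : dy s ≤ 1 := by cases s <;> decide

theorem dy_fU (s : St) : dy (fU s) = - dy s := by cases s <;> decide

theorem Up_iff {w : Wd} : Up w ↔ ∀ i, 0 < i → i ≤ w.length → 0 < ZBF.yy dy w i := by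
  constructor
  · intro hw i hi hi2
    refine hw (w.take i) (List.take_prefix i w) ?_
    intro h0
    have := congrArg List.length h0
    rw [List.length_take, List.length_nil] at this
    omega
  · intro hw v hv hne
    have h1 : v = w.take v.length := List.prefix_iff_eq_take.1 hv
    have h2 := hw v.length (List.length_pos_iff.2 hne) hv.length_le
    unfold ZBF.yy at h2
    rw [← h1] at h2
    exact h2

theorem Tp_iff {w : Wd} : Tp w ↔ ∀ i, i ≤ w.length → ZBF.yy dy w i ≤ ZBF.hh dy w := by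
  constructor
  · intro hw i hi
    have h1 : 0 ≤ ZBF.hh dy (w.drop i) := hw (w.drop i) (List.drop_suffix i w)
    rw [ZBF.hh_drop] at h1
    linarith
  · intro hw v hv
    have h1 : v = w.drop (w.length - v.length) := List.suffix_iff_eq_drop.1 hv
    have h2 := hw (w.length - v.length) (by omega)
    rw [Y_eq, h1, ZBF.hh_drop]
    linarith

theorem brH_iff {w : Wd} : ZBF.BrH dy w ↔ Up w ∧ Tp w := by
  rw [Up_iff, Tp_iff]
  constructor
  · intro hw
    exact ⟨fun i hi hi2 => (hw i hi hi2).1, fun i hi => hw.yy_le hi⟩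
  · rintro ⟨h1, h2⟩ i hi hi2
    exact ⟨h1 i hi hi2, h2 i hi2⟩

theorem Br_iff {w : Wd} : Br w ↔ SA w ∧ ZBF.BrH dy w := by
  rw [brH_iff]
  rfl

theorem Ir_iff {w : Wd} : Ir w ↔ SA w ∧ ZBF.Irr dy w := by
  constructor
  · rintro ⟨hne, hb, hi⟩
    rw [Br_iff] at hb
    refine ⟨hb.1, hne, hb.2, fun a b hab ha hb' => ?_⟩
    refine hi a b hab.symm (Br_iff.2 ⟨hb.1.ifx ?_, ha⟩) (Br_iff.2 ⟨hb.1.ifx ?_, hb'⟩)
    · exact ⟨[], b, by simpa using hab⟩
    · exact ⟨a, [], by simpa using hab⟩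
  · rintro ⟨hs, hne, hb, hi⟩
    refine ⟨hne, Br_iff.2 ⟨hs, hb⟩, fun u v huv hu hv => ?_⟩
    exact hi u v huv.symm (Br_iff.1 hu).2 (Br_iff.1 hv).2

theorem isFold_iff {w : Wd} {T B : ℕ} : IsFold w T B ↔ ZBF.IsFold dy w T B := by
  constructor
  · rintro ⟨h1, h2, h3, h4, h5, h6, h7⟩
    exact ⟨h1, h2, h3, h4, h5, h6, h7⟩
  · rintro ⟨h1, h2, h3, h4, h5, h6, h7⟩
    exact ⟨h1, h2, h3, h4, h5, h6, h7⟩

theorem Bs_eq (r : ℕ) (w : Wd) : Bs r w = (ZBF.Bs dy r w : ℤ) := by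
  classical
  unfold Bs ZBF.Bs ZBF.folds
  rw [← Finset.sum_product', Finset.filter_filter, Finset.sum_filter, Nat.cast_sum]
  apply Finset.sum_congr rfl
  intro p _
  by_cases h1 : ZBF.IsFold dy w p.1 p.2
  · have h2 := h1.fsz_cast
    have h3 : yt w p.1 - yt w p.2 = (ZBF.fsz dy w p : ℤ) := by rw [h2]; rfl
    by_cases h4 : r < ZBF.fsz dy w p
    · rw [if_pos ⟨isFold_iff.2 h1, by rw [h3]; exact_mod_cast h4⟩, if_pos ⟨h1, h4⟩, h3]
    · rw [if_neg (fun h5 => h4 (by rw [h3] at h5; exact_mod_cast h5.2)),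
        if_neg (fun h5 => h4 h5.2)]
      simp
  · rw [if_neg (fun h5 => h1 (isFold_iff.1 h5.1)), if_neg (fun h5 => h1 h5.1)]
    simp

theorem mem_BrS {T : ℕ} {w : Wd} : w ∈ BrS T ↔ (SA w ∧ ZBF.BrH dy w) ∧ ZBF.hh dy w = T := by
  show Br w ∧ Y w = T ↔ _
  rw [Br_iff]
  rfl

theorem mem_IrS {T : ℕ} {w : Wd} : w ∈ IrS T ↔ (SA w ∧ ZBF.Irr dy w) ∧ ZBF.hh dy w = T := by
  show Ir w ∧ Y w = T ↔ _
  rw [Ir_iff]
  rfl

theorem hh_map' (w : Wd) : ZBF.hh dy (flip w) = - ZBF.hh dy w := by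
  unfold ZBF.hh flip
  rw [List.map_map]
  induction w with
  | nil => simp
  | cons s w ih =>
    simp only [List.map_cons, List.sum_cons, Function.comp, dy_fU] at ih ⊢
    rw [ih]; ring

theorem SA.flip {w : Wd} (hw : SA w) : SA (flip w) := SA_flip.2 hw

end ZT
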