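import Pool.Agent.ZB.F1
import Pool.Agent.ZT.FoldC

/-!
# F1: few big folds are unlikely

* `sum_a_le`: `∑' T, exp (M T) * a lam T ≤ 1` if `u lam k ≤ exp (-M k)` for all `k`;
* **`f1 : Ren → F1`**.
-/

set_option autoImplicit false

open MeasureTheory Set Filter
open scoped ENNReal Topology

namespace ZT

/-! ### the straight bridge -/

private lemma Y_rep (T : ℕ) : Y (List.replicate T St.NE) = T := by
  unfold Y
  rw [List.map_replicate, List.sum_replicate]
  simp [dy]

private lemma Y_infix_rep {T : ℕ} {v : Wd} (h : v <:+: List.replicate T St.NE) : Y v = v.length := by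
  have h1 : v = List.replicate v.length St.NE :=
    List.eq_replicate_iff.2 ⟨rfl, fun x hx => List.eq_of_mem_replicate (h.subset hx)⟩
  conv_lhs => rw [h1]
  exact Y_rep _

private lemma br_rep (T : ℕ) : List.replicate T St.NE ∈ BrS T := by
  refine ⟨⟨fun v hv hne h0 => ?_, fun v hv hne => ?_, fun v hv => ?_⟩, Y_rep T⟩
  · have h1 := Y_infix_rep hv
    rw [h0.2] at h1
    have : v.length = 0 := by exact_mod_cast h1.symm
    exact hne (List.length_eq_zero_iff.1 this)
  · rw [Y_infix_rep hv.isInfix]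
    have : 0 < v.length := List.length_pos_iff.2 hne
    exact_mod_cast this
  · rw [Y_infix_rep hv.isInfix]
    exact Int.natCast_nonneg _

private lemma u_pos' (lam : ℝ) (T : ℕ) : 0 < u lam T := by
  have h1 : wt lam (List.replicate T St.NE) ≤ u lam T := by
    unfold u Ms
    refine le_trans (le_of_eq ?_) (ENNReal.le_tsum (List.replicate T St.NE))
    rw [indicator_of_mem (br_rep T)]
  exact (wt_pos _ _).trans_le h1

theorem a_zero (lam : ℝ) : a lam 0 = 0 := by
  unfold a Ms
  rw [ENNReal.tsum_eq_zero]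
  intro w
  refine indicator_of_notMem ?_ _
  rintro ⟨h1, h2⟩
  have := Ir.Y_pos h1
  push_cast at h2
  omega

/-- **the tilted mass of the irreducible bridges** -/
theorem sum_a_le (hR : Ren) {lam M : ℝ}
    (hu : ∀ k : ℕ, u lam k ≤ ENNReal.ofReal (Real.exp (-M * k))) :
    ∑' T : ℕ, ENNReal.ofReal (Real.exp (M * T)) * a lam T ≤ 1 := by
  have h1 := ZB.renewal_le (U := fun T => ENNReal.ofReal (Real.exp (M * T)) * u lam T)
    (A := fun T => ENNReal.ofReal (Real.exp (M * T)) * a lam T) ?_ ?_ ?_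
  · rw [tsum_eq_zero_add' ENNReal.summable]
    rw [a_zero, mul_zero, zero_add]
    exact h1
  · intro T
    exact ENNReal.mul_pos (ENNReal.ofReal_pos.2 (Real.exp_pos _)).ne' (u_pos' lam T).ne'
  · intro T
    refine (mul_le_mul' le_rfl (hu T)).trans ?_
    rw [← ENNReal.ofReal_mul (Real.exp_pos _).le, ← Real.exp_add]
    rw [show M * (T : ℝ) + -M * T = 0 by ring, Real.exp_zero, ENNReal.ofReal_one]
  · intro T hT
    rw [hR lam T hT, Finset.mul_sum]
    refine Finset.sum_congr rfl fun s hs => ?_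
    rw [Finset.mem_range] at hs
    have h2 : Real.exp (M * T) = Real.exp (M * ((s + 1 : ℕ) : ℝ)) *
        Real.exp (M * ((T - 1 - s : ℕ) : ℝ)) := by
      rw [← Real.exp_add]
      congr 1
      have : (T : ℝ) = ((s + 1 : ℕ) : ℝ) + ((T - 1 - s : ℕ) : ℝ) := by
        rw [← Nat.cast_add]
        congr 1
        omega
      rw [this]
      ring
    rw [h2, ENNReal.ofReal_mul (Real.exp_pos _).le]
    ring

open Classical in
/-- real weight of a word, `0` if it is not self-avoiding -/
noncomputable def wr (lam : ℝ) (w : Wd) : ℝ :=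
  if SA w then (xc * Real.exp (-lam)) ^ w.length else 0

theorem wr_nonneg (lam : ℝ) (w : Wd) : 0 ≤ wr lam w := by
  unfold wr
  have := mul_pos xc_pos (Real.exp_pos (-lam))
  split_ifs <;> positivity

theorem ofReal_wr {lam : ℝ} {w : Wd} (h : SA w) : ENNReal.ofReal (wr lam w) = wt lam w := by
  unfold wr wt
  rw [if_pos h]

theorem wr_zero {lam : ℝ} {w : Wd} (h : ¬ SA w) : wr lam w = 0 := by
  unfold wr
  rw [if_neg h]

/-- the weights of the walks -/
theorem hy (hR : Ren) {lam M : ℝ} (hM : 0 ≤ M)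
    (hu : ∀ k : ℕ, u lam k ≤ ENNReal.ofReal (Real.exp (-M * k))) : ZBF.Hy dy fU (wr lam) M where
  hrf := dy_fU
  inj := Function.Involutive.injective fU_fU
  one := dy_le
  nn := wr_nonneg lam
  mul v w := by
    by_cases h : SA (v ++ w)
    · unfold wr
      rw [if_pos h, if_pos h.left, if_pos h.right, List.length_append, pow_add]
    · rw [wr_zero h]
      exact mul_nonneg (wr_nonneg _ _) (wr_nonneg _ _)
  flip w := by
    by_cases h : SA w
    · unfold wr
      rw [if_pos h, if_pos (SA_fU.2 h), List.length_map]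
    · rw [wr_zero h]
      exact wr_nonneg _ _
  M0 := hM
  br N k := by
    classical
    rw [← ENNReal.ofReal_le_ofReal_iff (Real.exp_pos _).le,
      ENNReal.ofReal_sum_of_nonneg fun w _ => wr_nonneg lam w]
    rw [← neg_mul]
    refine le_trans ?_ (hu k)
    unfold u Ms
    refine le_trans (Finset.sum_le_sum fun w hw => ?_) (ENNReal.sum_le_tsum (ZBF.BrN dy N k))
    rw [ZBF.BrN, Finset.mem_filter] at hw
    by_cases h : SA w
    · rw [indicator_of_mem (show w ∈ BrS k from mem_BrS.2 ⟨⟨h, hw.2.1⟩, hw.2.2⟩), ofReal_wr h]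
    · rw [wr_zero h, ENNReal.ofReal_zero]
      exact zero_le
  ir N := by
    classical
    rw [← ENNReal.ofReal_le_ofReal_iff zero_le_one, ENNReal.ofReal_one,
      ENNReal.ofReal_sum_of_nonneg fun w _ => mul_nonneg (wr_nonneg lam w) (Real.exp_pos _).le]
    refine le_trans ?_ (sum_a_le hR hu)
    have e1 : ∑' T : ℕ, ENNReal.ofReal (Real.exp (M * T)) * a lam T =
        ∑' w : Wd, ∑' T : ℕ, ENNReal.ofReal (Real.exp (M * T)) * (IrS T).indicator (wt lam) w := by
      rw [ENNReal.tsum_comm]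
      refine tsum_congr fun T => ?_
      unfold a Ms
      rw [ENNReal.tsum_mul_left]
    rw [e1]
    refine le_trans (Finset.sum_le_sum fun w hw => ?_) (ENNReal.sum_le_tsum (ZBF.IrN dy N))
    rw [ZBF.IrN, Finset.mem_filter] at hw
    by_cases h : SA w
    · have h2 : 0 < ZBF.hh dy w := hw.2.2.1.pos hw.2.1
      obtain ⟨T, hT⟩ : ∃ T : ℕ, ZBF.hh dy w = T := ⟨(ZBF.hh dy w).toNat, by omega⟩
      refine le_trans (le_of_eq ?_) (ENNReal.le_tsum T)
      rw [indicator_of_mem (show w ∈ IrS T from mem_IrS.2 ⟨⟨h, hw.2⟩, hT⟩),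
        ENNReal.ofReal_mul (wr_nonneg _ _), ofReal_wr h, hT, mul_comm, Int.cast_natCast]
    · rw [wr_zero h, zero_mul, ENNReal.ofReal_zero]
      exact zero_le

/-- **F1: few big folds are unlikely** -/
theorem f1 (hR : Ren) : F1 := by
  classical
  intro lam M hM hu eps h0 _ r S hr _
  have hY := hy hR hM hu
  unfold Ms
  rw [ENNReal.tsum_eq_iSup_sum, ENNReal.mul_iSup]
  refine iSup_le fun s => ?_
  obtain ⟨N, hN⟩ : ∃ N, N = s.sup List.length := ⟨_, rfl⟩
  have key := ZBF.f1_fin hY N hr h0 S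
  rw [← ENNReal.ofReal_le_ofReal_iff (by positivity), ENNReal.ofReal_sum_of_nonneg
    fun w _ => mul_nonneg (wr_nonneg lam w) (Real.exp_pos _).le] at key
  refine le_trans ?_ key
  rw [Finset.mul_sum]
  refine le_trans (Finset.sum_le_sum_of_ne_zero (t := (ZBF.IrN dy N).filter
    (fun w => ZBF.hh dy w = S ∧ (ZBF.Bs dy r w : ℝ) < (1 - eps) * ((S : ℝ) - 1)))
    fun w hw hne => ?_) (Finset.sum_le_sum fun w hw => ?_)
  · have h1 : w ∈ {w | w ∈ IrS S ∧ (Bs r w : ℝ) < (1 - eps) * ((S : ℝ) - 1)} := by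
      by_contra h2
      rw [indicator_of_notMem h2, mul_zero] at hne
      exact hne rfl
    obtain ⟨h2, h3⟩ := h1
    rw [mem_IrS] at h2
    rw [Bs_eq, Int.cast_natCast] at h3
    refine Finset.mem_filter.2 ⟨Finset.mem_filter.2 ⟨ZBF.mem_WN.2 ?_, h2.1.2⟩, h2.2, h3⟩
    rw [hN]
    exact Finset.le_sup (f := List.length) hw
  · rw [Finset.mem_filter] at hw
    obtain ⟨h1, h2, h3⟩ := hw
    by_cases h : w ∈ {w | w ∈ IrS S ∧ (Bs r w : ℝ) < (1 - eps) * ((S : ℝ) - 1)}
    · rw [indicator_of_mem h, ENNReal.ofReal_mul (wr_nonneg _ _),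
        ofReal_wr (mem_IrS.1 h.1).1.1, h2, mul_comm, Int.cast_natCast]
    · rw [indicator_of_notMem h, mul_zero]
      exact zero_le

end ZT
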