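import Mathlib
import Pool.Agent.ZT.Basic
import Pool.Agent.ZB.FoldS
import Pool.Agent.ZT.FoldC

/-!
# ZT: the short fold steps (F2), triangular lattice
-/

set_option autoImplicit false

open Set
open scoped ENNReal

namespace ZT

/-! ## product sets -/

/-- concatenations -/
def cat (A B : Set Wd) : Set Wd := Set.image2 (· ++ ·) A B

theorem mem_cat {A B : Set Wd} {v w : Wd} (hv : v ∈ A) (hw : w ∈ B) : v ++ w ∈ cat A B :=
  ⟨v, hv, w, hw, rfl⟩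

theorem Ms_cat (lam : ℝ) (A B : Set Wd) : Ms lam (cat A B) ≤ Ms lam A * Ms lam B := by
  rw [Ms_mul]
  have h1 : cat A B = ⋃ q : A × B, {q.1.1 ++ q.2.1} := by
    ext w
    rw [mem_iUnion]
    constructor
    · rintro ⟨x, hx, y, hy, rfl⟩
      exact ⟨(⟨x, hx⟩, ⟨y, hy⟩), rfl⟩
    · rintro ⟨q, hq⟩
      exact ⟨q.1.1, q.1.2, q.2.1, q.2.2, hq.symm⟩
  rw [h1]
  refine (Ms_iUnion_le lam _).trans (le_of_eq (tsum_congr fun q => ?_))
  rw [Ms_singleton]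

theorem Ms_biUnion_le (lam : ℝ) {ι : Type*} (s : Finset ι) (A : ι → Set Wd) :
    Ms lam (⋃ i ∈ s, A i) ≤ ∑ i ∈ s, Ms lam (A i) := by
  classical
  induction s using Finset.induction_on with
  | empty => simp
  | insert a s ha ih =>
    rw [Finset.set_biUnion_insert, Finset.sum_insert ha]
    exact (Ms_union_le lam _ _).trans (add_le_add le_rfl ih)

/-- the tilt -/
noncomputable def Et (M : ℝ) (z : ℤ) : ℝ≥0∞ := ENNReal.ofReal (Real.exp (M * z))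

theorem Et_add (M : ℝ) (y z : ℤ) : Et M (y + z) = Et M y * Et M z := by
  unfold Et
  rw [← ENNReal.ofReal_mul (Real.exp_nonneg _), ← Real.exp_add]
  congr 2
  push_cast
  ring

theorem tilt_cat {lam M : ℝ} {y z : ℤ} {A B : Set Wd} {α β : ℝ≥0∞}
    (hA : Et M y * Ms lam A ≤ α) (hB : Et M z * Ms lam B ≤ β) :
    Et M (y + z) * Ms lam (cat A B) ≤ α * β := by
  calc Et M (y + z) * Ms lam (cat A B)
      ≤ (Et M y * Et M z) * (Ms lam A * Ms lam B) := by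
        rw [Et_add]; gcongr; exact Ms_cat lam A B
    _ = (Et M y * Ms lam A) * (Et M z * Ms lam B) := by ring
    _ ≤ α * β := by gcongr

/-- bridges of height `z` -/
def BrZ (z : ℤ) : Set Wd := {w | Br w ∧ Y w = z}
/-- short bridges of height `z > r` -/
def ShZ (nu : ℝ) (r : ℕ) (z : ℤ) : Set Wd :=
  {w | (Br w ∧ Y w = z) ∧ (r : ℤ) < z ∧ (w.length : ℝ) < nu * z}
/-- reflected -/
def Fl (A : Set Wd) : Set Wd := {w | flip w ∈ A}

theorem Ms_Fl (lam : ℝ) (A : Set Wd) : Ms lam (Fl A) = Ms lam A :=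
  Ms_invol lam flip (fun _ hw => hw) (fun w hw => by
    show flip (flip w) ∈ A
    rwa [flip_flip]) flip_length flip_flip

theorem tilt_BrZ {lam M : ℝ} (hu : ∀ k, u lam k ≤ ENNReal.ofReal (Real.exp (- M * k))) (z : ℤ) :
    Et M z * Ms lam (BrZ z) ≤ 1 := by
  rcases lt_or_ge z 0 with hz | hz
  · have h1 : BrZ z = ∅ := by
      ext w
      simp only [mem_empty_iff_false, iff_false]
      rintro ⟨h1, h2⟩
      have := h1.Y_nonneg
      omega
    rw [h1]; simp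
  · obtain ⟨k, rfl⟩ := Int.eq_ofNat_of_zero_le hz
    calc Et M (k : ℤ) * Ms lam (BrZ (k : ℤ)) = Et M (k : ℤ) * u lam k := rfl
      _ ≤ ENNReal.ofReal (Real.exp (M * (k : ℤ))) * ENNReal.ofReal (Real.exp (- M * k)) := by
        unfold Et; gcongr; exact hu k
      _ = 1 := by
        rw [← ENNReal.ofReal_mul (Real.exp_nonneg _), ← Real.exp_add]
        have : M * ((k : ℤ) : ℝ) + - M * (k : ℝ) = 0 := by push_cast; ring
        rw [this]; simp

theorem tilt_ShZ {lam M nu : ℝ} {r : ℕ} {b : ℝ≥0∞} (hb : ∀ k : ℕ, r < k →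
    ENNReal.ofReal (Real.exp (M * k)) *
      Ms lam {w | w ∈ BrS k ∧ (w.length : ℝ) < nu * k} ≤ b) (z : ℤ) :
    Et M z * Ms lam (ShZ nu r z) ≤ b := by
  rcases le_or_gt z r with hz | hz
  · have h1 : ShZ nu r z = ∅ := by
      ext w
      simp only [mem_empty_iff_false, iff_false]
      rintro ⟨h1, h2, h3⟩
      omega
    rw [h1]; simp
  · obtain ⟨k, rfl⟩ := Int.eq_ofNat_of_zero_le (show 0 ≤ z by omega)
    refine le_trans ?_ (hb k (by omega))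
    unfold Et
    refine mul_le_mul' (le_of_eq (by push_cast; rfl)) (Ms_mono lam ?_)
    rintro w ⟨h1, h2, h3⟩
    exact ⟨h1, by simpa using h3⟩

/-- the tilt of a reflected set -/
theorem tilt_Fl {lam M : ℝ} (hM : 0 ≤ M) {A : Set Wd} {z : ℤ} {α : ℝ≥0∞}
    (hA0 : ∀ w ∈ A, Br w ∧ Y w = z) (hA : Et M z * Ms lam A ≤ α) :
    Et M (-z) * Ms lam (Fl A) ≤ α := by
  rw [Ms_Fl]
  rcases lt_or_ge z 0 with hz | hz
  · have h1 : A = ∅ := by
      ext w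
      simp only [mem_empty_iff_false, iff_false]
      intro hw
      have := (hA0 w hw).1.Y_nonneg
      have := (hA0 w hw).2
      omega
    rw [h1]; simp
  · refine le_trans ?_ hA
    gcongr
    unfold Et
    apply ENNReal.ofReal_le_ofReal
    apply Real.exp_le_exp.2
    have : (0 : ℝ) ≤ z := by exact_mod_cast hz
    push_cast
    nlinarith

/-! ## the four sets -/

def Q1 (nu : ℝ) (r : ℕ) (S t k : ℤ) : Set Wd :=
  cat (cat (ShZ nu r t) (Fl (BrZ k))) (BrZ (S - t + k))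
def Q2 (nu : ℝ) (r : ℕ) (S t k : ℤ) : Set Wd :=
  cat (cat (BrZ t) (Fl (BrZ k))) (ShZ nu r (S - t + k))
def Q3 (nu : ℝ) (r : ℕ) (S t k : ℤ) : Set Wd :=
  cat (cat (BrZ t) (Fl (ShZ nu r k))) (BrZ (S - t + k))
def Q4 (nu : ℝ) (r : ℕ) (S t k t' k' : ℤ) : Set Wd :=
  cat (cat (cat (cat (BrZ t) (Fl (BrZ k))) (ShZ nu r (t' - t + k))) (Fl (BrZ k')))
    (BrZ (S - t' + k'))

section
variable {lam M nu : ℝ} {r : ℕ} {b : ℝ≥0∞}

theorem Q1_le (hM : 0 ≤ M) (hu : ∀ k, u lam k ≤ ENNReal.ofReal (Real.exp (- M * k)))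
    (hb : ∀ k : ℕ, r < k → ENNReal.ofReal (Real.exp (M * k)) *
      Ms lam {w | w ∈ BrS k ∧ (w.length : ℝ) < nu * k} ≤ b) (S t k : ℤ) :
    Et M S * Ms lam (Q1 nu r S t k) ≤ b := by
  have h1 := tilt_cat (tilt_cat (tilt_ShZ hb t)
    (tilt_Fl hM (A := BrZ k) (fun _ hw => hw) (tilt_BrZ hu k))) (tilt_BrZ hu (S - t + k))
  have h2 : t + -k + (S - t + k) = S := by ring
  rw [h2, mul_one, mul_one] at h1
  exact h1

theorem Q2_le (hM : 0 ≤ M) (hu : ∀ k, u lam k ≤ ENNReal.ofReal (Real.exp (- M * k)))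
    (hb : ∀ k : ℕ, r < k → ENNReal.ofReal (Real.exp (M * k)) *
      Ms lam {w | w ∈ BrS k ∧ (w.length : ℝ) < nu * k} ≤ b) (S t k : ℤ) :
    Et M S * Ms lam (Q2 nu r S t k) ≤ b := by
  have h1 := tilt_cat (tilt_cat (tilt_BrZ hu t)
    (tilt_Fl hM (A := BrZ k) (fun _ hw => hw) (tilt_BrZ hu k))) (tilt_ShZ hb (S - t + k))
  have h2 : t + -k + (S - t + k) = S := by ring
  rw [h2, one_mul, one_mul] at h1
  exact h1

theorem Q3_le (hM : 0 ≤ M) (hu : ∀ k, u lam k ≤ ENNReal.ofReal (Real.exp (- M * k)))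
    (hb : ∀ k : ℕ, r < k → ENNReal.ofReal (Real.exp (M * k)) *
      Ms lam {w | w ∈ BrS k ∧ (w.length : ℝ) < nu * k} ≤ b) (S t k : ℤ) :
    Et M S * Ms lam (Q3 nu r S t k) ≤ b := by
  have h1 := tilt_cat (tilt_cat (tilt_BrZ hu t)
    (tilt_Fl hM (A := ShZ nu r k) (fun _ hw => hw.1) (tilt_ShZ hb k)))
    (tilt_BrZ hu (S - t + k))
  have h2 : t + -k + (S - t + k) = S := by ring
  rw [h2, one_mul, mul_one] at h1
  exact h1

theorem Q4_le (hM : 0 ≤ M) (hu : ∀ k, u lam k ≤ ENNReal.ofReal (Real.exp (- M * k)))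
    (hb : ∀ k : ℕ, r < k → ENNReal.ofReal (Real.exp (M * k)) *
      Ms lam {w | w ∈ BrS k ∧ (w.length : ℝ) < nu * k} ≤ b) (S t k t' k' : ℤ) :
    Et M S * Ms lam (Q4 nu r S t k t' k') ≤ b := by
  have h1 := tilt_cat (tilt_cat (tilt_cat (tilt_cat (tilt_BrZ hu t)
    (tilt_Fl hM (A := BrZ k) (fun _ hw => hw) (tilt_BrZ hu k))) (tilt_ShZ hb (t' - t + k)))
    (tilt_Fl hM (A := BrZ k') (fun _ hw => hw) (tilt_BrZ hu k'))) (tilt_BrZ hu (S - t' + k'))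
  have h2 : t + -k + (t' - t + k) + -k' + (S - t' + k') = S := by ring
  rw [h2, one_mul, one_mul, mul_one, mul_one] at h1
  exact h1

end

theorem Br_of {w v : Wd} (hw : SA w) (hv : v <:+: w) (hb : ZBF.BrH dy v) : Br v :=
  Br_iff.2 ⟨hw.ifx hv, hb⟩

section parts

variable {w : Wd} {T B T' B' : ℕ}

theorem part_left (hw : SA w) (hb : ZBF.BrH dy w) (hf : ZBF.IsFold dy w T B) :
    w.take T ∈ BrZ (ZBF.yy dy w T) :=
  ⟨Br_of hw (List.take_prefix T w).isInfix (hf.brH_left hb), rfl⟩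

theorem part_right (hw : SA w) (hb : ZBF.BrH dy w) (hf : ZBF.IsFold dy w T B) :
    w.drop B ∈ BrZ (ZBF.hh dy w - ZBF.yy dy w B) :=
  ⟨Br_of hw (List.drop_suffix B w).isInfix (hf.brH_right hb), ZBF.hh_drop w B⟩

theorem part_mid (hw : SA w) (hf : ZBF.IsFold dy w T B) :
    flip ((w.drop T).take (B - T)) ∈ BrZ (ZBF.yy dy w T - ZBF.yy dy w B) := by
  refine ⟨Br_iff.2 ⟨?_, hf.brH_mid dy_fU⟩, ?_⟩
  · rw [SA_flip]
    exact hw.ifx ((List.take_prefix _ _).isInfix.trans (List.drop_suffix _ _).isInfix)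
  · rw [Y_flip]
    have h1 := ZBF.hh_mid (h := dy) (w := w) hf.lt.le hf.Tle
    rw [Y_eq, h1]
    ring

theorem part_between (hw : SA w) (hf : ZBF.IsFold dy w T B) (hf' : ZBF.IsFold dy w T' B')
    (hlt : ZBF.yy dy w T < ZBF.yy dy w T') :
    (w.drop B).take (T' - B) ∈ BrZ (ZBF.yy dy w T' - ZBF.yy dy w B) := by
  refine ⟨Br_of hw ((List.take_prefix _ _).isInfix.trans (List.drop_suffix _ _).isInfix)
    (hf.brH_between hf' hlt), ?_⟩
  rw [Y_eq]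
  exact ZBF.hh_mid (h := dy) (w := w) (hf.order hf' hlt).1.le hf.le

end parts

section members

variable {w : Wd} {T B T' B' : ℕ} {nu : ℝ} {r : ℕ} {S : ℤ}

theorem sh_of {v : Wd} {z : ℤ} (hv : v ∈ BrZ z) (hz : (r : ℤ) < z)
    (hl : (v.length : ℝ) < nu * z) : v ∈ ShZ nu r z := ⟨hv, hz, hl⟩

theorem mem_Q1 (hw : SA w) (hb : ZBF.BrH dy w) (hS : ZBF.hh dy w = S)
    (hf : ZBF.IsFold dy w T B) (hr : (r : ℤ) < ZBF.yy dy w T - ZBF.yy dy w B)
    (hs : (T : ℝ) < nu * (ZBF.yy dy w T : ℝ)) :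
    w ∈ Q1 nu r S (ZBF.yy dy w T) (ZBF.yy dy w T - ZBF.yy dy w B) := by
  have h3 := hb.yy_nonneg (i := B) hf.le
  have h5 : ZBF.hh dy w - ZBF.yy dy w B =
      S - ZBF.yy dy w T + (ZBF.yy dy w T - ZBF.yy dy w B) := by rw [hS]; ring
  have h := mem_cat (mem_cat (sh_of (r := r) (nu := nu) (part_left hw hb hf) (by omega) (by
    rw [List.length_take, min_eq_left hf.Tle]
    exact hs)) (show _ ∈ Fl (BrZ _) from part_mid hw hf)) (part_right hw hb hf)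
  rw [ZBF.split3 hf.lt.le, h5] at h
  exact h

theorem mem_Q2 (hw : SA w) (hb : ZBF.BrH dy w) (hS : ZBF.hh dy w = S)
    (hf : ZBF.IsFold dy w T B) (hr : (r : ℤ) < ZBF.yy dy w T - ZBF.yy dy w B)
    (hs : (w.length : ℝ) - B < nu * ((ZBF.hh dy w : ℝ) - ZBF.yy dy w B)) :
    w ∈ Q2 nu r S (ZBF.yy dy w T) (ZBF.yy dy w T - ZBF.yy dy w B) := by
  have h3 := hb.yy_le (i := T) hf.Tle
  have h5 : ZBF.hh dy w - ZBF.yy dy w B =
      S - ZBF.yy dy w T + (ZBF.yy dy w T - ZBF.yy dy w B) := by rw [hS]; ring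
  have h := mem_cat (mem_cat (part_left hw hb hf)
    (show _ ∈ Fl (BrZ _) from part_mid hw hf))
    (sh_of (r := r) (nu := nu) (part_right hw hb hf) (by omega) (by
    rw [List.length_drop, Nat.cast_sub hf.le]
    push_cast
    exact hs))
  rw [ZBF.split3 hf.lt.le, h5] at h
  exact h

theorem mem_Q3 (hw : SA w) (hb : ZBF.BrH dy w) (hS : ZBF.hh dy w = S)
    (hf : ZBF.IsFold dy w T B) (hr : (r : ℤ) < ZBF.yy dy w T - ZBF.yy dy w B)
    (hs : (B : ℝ) - T < nu * ((ZBF.yy dy w T : ℝ) - ZBF.yy dy w B)) :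
    w ∈ Q3 nu r S (ZBF.yy dy w T) (ZBF.yy dy w T - ZBF.yy dy w B) := by
  have h5 : ZBF.hh dy w - ZBF.yy dy w B =
      S - ZBF.yy dy w T + (ZBF.yy dy w T - ZBF.yy dy w B) := by rw [hS]; ring
  have h := mem_cat (mem_cat (part_left hw hb hf)
    (show _ ∈ Fl (ShZ nu r _) from sh_of (r := r) (nu := nu) (part_mid hw hf) hr (by
      rw [flip_length, List.length_take, List.length_drop, min_eq_left (by
        have := hf.le; have := hf.lt; omega), Nat.cast_sub hf.lt.le]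
      push_cast
      exact hs))) (part_right hw hb hf)
  rw [ZBF.split3 hf.lt.le, h5] at h
  exact h

theorem mem_Q4 (hw : SA w) (hb : ZBF.BrH dy w) (hS : ZBF.hh dy w = S)
    (hf : ZBF.IsFold dy w T B) (hr : (r : ℤ) < ZBF.yy dy w T - ZBF.yy dy w B)
    (hf' : ZBF.IsFold dy w T' B') (hlt : ZBF.yy dy w T < ZBF.yy dy w T')
    (hs : (T' : ℝ) - B < nu * ((ZBF.yy dy w T' : ℝ) - ZBF.yy dy w B)) :
    w ∈ Q4 nu r S (ZBF.yy dy w T) (ZBF.yy dy w T - ZBF.yy dy w B)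
      (ZBF.yy dy w T') (ZBF.yy dy w T' - ZBF.yy dy w B') := by
  have h5 : ZBF.hh dy w - ZBF.yy dy w B' =
      S - ZBF.yy dy w T' + (ZBF.yy dy w T' - ZBF.yy dy w B') := by rw [hS]; ring
  have h6 : ZBF.yy dy w T' - ZBF.yy dy w B =
      ZBF.yy dy w T' - ZBF.yy dy w T + (ZBF.yy dy w T - ZBF.yy dy w B) := by ring
  have ho := (hf.order hf' hlt).1
  have h := mem_cat (mem_cat (mem_cat (mem_cat (part_left hw hb hf)
    (show _ ∈ Fl (BrZ _) from part_mid hw hf))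
    (sh_of (r := r) (nu := nu) (part_between hw hf hf' hlt) (by omega) (by
      rw [List.length_take, List.length_drop, min_eq_left (by
        have := hf'.le; have := hf'.lt; omega), Nat.cast_sub ho.le]
      push_cast
      exact hs)))
    (show _ ∈ Fl (BrZ _) from part_mid hw hf')) (part_right hw hb hf')
  rw [ZBF.split5 hf.lt.le ho.le hf'.lt.le, h5, h6] at h
  exact h

end members

theorem F2_of : F2 := by
  intro lam M hM hu eps nu he he1 hnu r S hr hrS b hb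
  have hS1 : 1 ≤ S := by
    by_contra hc
    have h0 : S = 0 := by omega
    subst h0
    have h1 : (1 : ℝ) ≤ r := by exact_mod_cast hr
    have h2 : (1 - eps) * (((0 : ℕ) : ℝ) - 1) ≤ 0 := by
      push_cast
      nlinarith
    linarith
  set I : Finset ℤ := Finset.Icc 1 (S : ℤ) with hI
  have hIc : I.card = S := by rw [hI, Int.card_Icc]; omega
  set U1 : Set Wd := ⋃ p ∈ I ×ˢ I, Q1 nu r S p.1 p.2 with hU1
  set U2 : Set Wd := ⋃ p ∈ I ×ˢ I, Q2 nu r S p.1 p.2 with hU2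
  set U3 : Set Wd := ⋃ p ∈ I ×ˢ I, Q3 nu r S p.1 p.2 with hU3
  set U4 : Set Wd := ⋃ p ∈ (I ×ˢ I) ×ˢ (I ×ˢ I), Q4 nu r S p.1.1 p.1.2 p.2.1 p.2.2 with hU4
  have hsub : {w | w ∈ IrS S ∧ (1 - eps) * ((S : ℝ) - 1) ≤ (Bs r w : ℝ) ∧
      (w.length : ℝ) < nu * ((3 - 2 * eps) * S - 2)} ⊆ ((U1 ∪ U2) ∪ U3) ∪ U4 := by
    rintro w ⟨hw, hB, hl⟩
    rw [mem_IrS] at hw
    obtain ⟨⟨hsa, hirr⟩, hh⟩ := hw
    have hbr : ZBF.BrH dy w := hirr.2.1
    rw [Bs_eq] at hB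
    push_cast at hB
    have hF : (ZBF.big dy r w).Nonempty := by
      rw [Finset.nonempty_iff_ne_empty]
      intro h0
      have h1 : ZBF.Bs dy r w = 0 := by rw [ZBF.Bs_eq_big, h0]; simp
      rw [h1] at hB
      have h2 : (1 : ℝ) ≤ r := by exact_mod_cast hr
      push_cast at hB
      linarith
    have hlen : (w.length : ℝ) < nu * ((ZBF.hh dy w : ℝ) + 2 * (ZBF.Bs dy r w : ℝ)) := by
      refine hl.trans_le (mul_le_mul_of_nonneg_left ?_ hnu)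
      rw [hh]
      push_cast
      nlinarith
    have hpos : ∀ p ∈ ZBF.big dy r w, ZBF.IsFold dy w p.1 p.2 ∧
        (r : ℤ) < ZBF.yy dy w p.1 - ZBF.yy dy w p.2 ∧
        (ZBF.yy dy w p.1, ZBF.yy dy w p.1 - ZBF.yy dy w p.2) ∈ I ×ˢ I := by
      intro p hp
      obtain ⟨h1, h2⟩ := ZBF.mem_big.1 hp
      have h3 := hbr.yy_nonneg (i := p.2) h1.le
      have h4 := hbr.yy_le (i := p.1) h1.Tle
      rw [hh] at h4
      refine ⟨h1, h2, ?_⟩
      rw [Finset.mem_product, hI, Finset.mem_Icc, Finset.mem_Icc]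
      dsimp only
      omega
    rcases ZBF.short_part hF hlen with ⟨p, hp, h1⟩ | ⟨p, hp, h1⟩ | ⟨p, hp, h1⟩ |
      ⟨q, hq, p, hp, hlt, h1⟩
    · obtain ⟨hf, h2, h3⟩ := hpos p hp
      exact Or.inl (Or.inl (Or.inl (mem_biUnion h3 (mem_Q1 hsa hbr hh hf h2 h1))))
    · obtain ⟨hf, h2, h3⟩ := hpos p hp
      exact Or.inl (Or.inl (Or.inr (mem_biUnion h3 (mem_Q2 hsa hbr hh hf h2 h1))))
    · obtain ⟨hf, h2, h3⟩ := hpos p hp
      exact Or.inl (Or.inr (mem_biUnion h3 (mem_Q3 hsa hbr hh hf h2 h1)))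
    · obtain ⟨hf, h2, h3⟩ := hpos p hp
      obtain ⟨hf', h2', h3'⟩ := hpos q hq
      exact Or.inr (mem_biUnion (x := (((ZBF.yy dy w q.1, ZBF.yy dy w q.1 - ZBF.yy dy w q.2),
        (ZBF.yy dy w p.1, ZBF.yy dy w p.1 - ZBF.yy dy w p.2)) : (ℤ × ℤ) × (ℤ × ℤ)))
        (Finset.mem_product.2 ⟨h3', h3⟩) (mem_Q4 hsa hbr hh hf' h2' hf hlt h1))
  have hE : ENNReal.ofReal (Real.exp (M * S)) = Et M (S : ℤ) := by
    unfold Et; push_cast; rfl
  have hc2 : (I ×ˢ I).card = S ^ 2 := by rw [Finset.card_product, hIc]; ring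
  have hc4 : ((I ×ˢ I) ×ˢ (I ×ˢ I)).card = S ^ 4 := by
    rw [Finset.card_product, hc2]; ring
  have hun : ∀ {ι : Type} (s : Finset ι) (A : ι → Set Wd),
      (∀ i, Et M (S : ℤ) * Ms lam (A i) ≤ b) →
      Et M (S : ℤ) * Ms lam (⋃ i ∈ s, A i) ≤ (s.card : ℝ≥0∞) * b := by
    intro ι s A hA
    refine (mul_le_mul' le_rfl (Ms_biUnion_le lam s A)).trans ?_
    rw [Finset.mul_sum]
    refine (Finset.sum_le_sum (fun i _ => hA i)).trans ?_
    rw [Finset.sum_const, nsmul_eq_mul]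
  have g1 := hun (I ×ˢ I) (fun p => Q1 nu r S p.1 p.2) (fun p => Q1_le hM hu hb S p.1 p.2)
  have g2 := hun (I ×ˢ I) (fun p => Q2 nu r S p.1 p.2) (fun p => Q2_le hM hu hb S p.1 p.2)
  have g3 := hun (I ×ˢ I) (fun p => Q3 nu r S p.1 p.2) (fun p => Q3_le hM hu hb S p.1 p.2)
  have g4 := hun ((I ×ˢ I) ×ˢ (I ×ˢ I)) (fun p => Q4 nu r S p.1.1 p.1.2 p.2.1 p.2.2)
    (fun p => Q4_le hM hu hb S p.1.1 p.1.2 p.2.1 p.2.2)
  rw [hc2] at g1 g2 g3
  rw [hc4] at g4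
  have hS24 : ((S ^ 2 : ℕ) : ℝ≥0∞) ≤ ((S ^ 4 : ℕ) : ℝ≥0∞) := by
    exact_mod_cast Nat.pow_le_pow_right hS1 (by norm_num)
  rw [hE]
  calc Et M (S : ℤ) * Ms lam _ ≤ Et M (S : ℤ) * (((Ms lam U1 + Ms lam U2) + Ms lam U3) +
        Ms lam U4) := by
        gcongr
        refine (Ms_mono lam hsub).trans ((Ms_union_le lam _ _).trans ?_)
        gcongr
        refine (Ms_union_le lam _ _).trans ?_
        gcongr
        exact Ms_union_le lam _ _
    _ = Et M (S : ℤ) * Ms lam U1 + Et M (S : ℤ) * Ms lam U2 + Et M (S : ℤ) * Ms lam U3 +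
        Et M (S : ℤ) * Ms lam U4 := by ring
    _ ≤ ((S ^ 4 : ℕ) : ℝ≥0∞) * b + ((S ^ 4 : ℕ) : ℝ≥0∞) * b + ((S ^ 4 : ℕ) : ℝ≥0∞) * b +
        ((S ^ 4 : ℕ) : ℝ≥0∞) * b := by
        refine add_le_add (add_le_add (add_le_add (g1.trans ?_) (g2.trans ?_)) (g3.trans ?_)) g4
        all_goals gcongr
    _ = 4 * (S : ℝ≥0∞) ^ 4 * b := by push_cast; ring

end ZT
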