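import Pool.Agent.ZT.Defs

/-!
# ZT, row D3 (helper90): two L-words and a horizontal step make a bridge (triangular lattice)

`glue_of (hm : MuLe) (h1 : ULe1) : Glue`. For two L-words `l`, `l'` (first arm vertical, second arm in direction 30 degrees)
the word `NE l R (reverse l')` is a bridge of height `≤ C R`; with the line `X + Y = const` through the end of `l` it
determines `l` and `l'`.
-/

set_option autoImplicit false

open MeasureTheory Set Filter
open scoped ENNReal Topology

namespace ZT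

namespace Gl

/-! ### Displacements -/

lemma X_app (a b : Wd) : X (a ++ b) = X a + X b := by
  unfold X
  rw [List.map_append, List.sum_append]

lemma Y_app (a b : Wd) : Y (a ++ b) = Y a + Y b := by
  unfold Y
  rw [List.map_append, List.sum_append]

lemma X_cons (s : St) (a : Wd) : X (s :: a) = dx s + X a := by
  unfold X
  rw [List.map_cons, List.sum_cons]

lemma Y_cons (s : St) (a : Wd) : Y (s :: a) = dy s + Y a := by
  unfold Y
  rw [List.map_cons, List.sum_cons]

lemma X_nil : X [] = 0 := rfl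
lemma Y_nil : Y [] = 0 := rfl

lemma X_rev (a : Wd) : X a.reverse = X a := by
  unfold X
  rw [List.map_reverse, List.sum_reverse]

lemma Y_rev (a : Wd) : Y a.reverse = Y a := by
  unfold Y
  rw [List.map_reverse, List.sum_reverse]

lemma X_fL (a : Wd) : X (a.map fL) = - X a := by
  induction a with
  | nil => rfl
  | cons s a ih =>
    rw [List.map_cons, X_cons, X_cons, ih]
    cases s <;> simp [fL, dx] <;> ring

lemma Y_fL (a : Wd) : Y (a.map fL) = Y a := by
  induction a with
  | nil => rfl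
  | cons s a ih =>
    rw [List.map_cons, Y_cons, Y_cons, ih]
    cases s <;> simp [fL, dy]

lemma X_rho (a : Wd) : 2 * X (rho a) = X a + 3 * Y a := by
  unfold rho
  induction a with
  | nil => rfl
  | cons s a ih =>
    rw [List.map_cons, X_cons, X_cons, Y_cons, mul_add, ih]
    cases s <;> simp [fR, dx, dy] <;> ring

lemma Y_rho (a : Wd) : 2 * Y (rho a) = Y a - X a := by
  unfold rho
  induction a with
  | nil => rfl
  | cons s a ih =>
    rw [List.map_cons, Y_cons, X_cons, Y_cons, mul_add, ih]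
    cases s <;> simp [fR, dx, dy] <;> ring

/-- the height in the direction of 30 degrees (twice) -/
lemma P_rho (a : Wd) : X (rho a) + Y (rho a) = 2 * Y a := by
  have h1 := X_rho a
  have h2 := Y_rho a
  omega

lemma X_dag (a : Wd) : X (dag a) = - X a := by
  unfold dag
  rw [X_fL, X_rev]

lemma Y_dag (a : Wd) : Y (dag a) = Y a := by
  unfold dag
  rw [Y_fL, Y_rev]

lemma fL_fL : fL ∘ fL = id := by
  funext s
  cases s <;> rfl

def rhi (w : Wd) : Wd := w.map fR'

lemma fE_fR : fR' ∘ fR = id := by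
  funext s
  cases s <;> rfl

lemma fR_fE : fR ∘ fR' = id := by
  funext s
  cases s <;> rfl

lemma dag_dag (a : Wd) : dag (dag a) = a := by
  unfold dag
  rw [← List.map_reverse, List.reverse_reverse, List.map_map, fL_fL, List.map_id]

lemma rhi_rho (a : Wd) : rhi (rho a) = a := by
  unfold rho rhi
  rw [List.map_map, fE_fR, List.map_id]

lemma rho_rhi (a : Wd) : rho (rhi a) = a := by
  unfold rho rhi
  rw [List.map_map, fR_fE, List.map_id]

lemma dag_pre {v g : Wd} (h : v <+: dag g) : ∃ p, p <:+ g ∧ v = dag p := by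
  refine ⟨dag v, ?_, (dag_dag v).symm⟩
  rw [← dag_dag g]
  unfold dag at h ⊢
  exact (List.reverse_suffix.2 h).map fL

lemma dag_suf {v g : Wd} (h : v <:+ dag g) : ∃ p, p <+: g ∧ v = dag p := by
  refine ⟨dag v, ?_, (dag_dag v).symm⟩
  rw [← dag_dag g]
  unfold dag at h ⊢
  exact (List.reverse_prefix.2 h).map fL

lemma dag_inf {v g : Wd} (h : v <:+: dag g) : ∃ p, p <:+: g ∧ v = dag p := by
  refine ⟨dag v, ?_, (dag_dag v).symm⟩
  rw [← dag_dag g]
  unfold dag at h ⊢
  exact (List.reverse_infix.2 h).map fL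

lemma rho_pre {v g : Wd} (h : v <+: rho g) : ∃ p, p <+: g ∧ v = rho p := by
  refine ⟨rhi v, ?_, (rho_rhi v).symm⟩
  rw [← rhi_rho g]
  exact h.map fR'

lemma rho_suf {v g : Wd} (h : v <:+ rho g) : ∃ p, p <:+ g ∧ v = rho p := by
  refine ⟨rhi v, ?_, (rho_rhi v).symm⟩
  rw [← rhi_rho g]
  exact h.map fR'

lemma rho_inf {v g : Wd} (h : v <:+: rho g) : ∃ p, p <:+: g ∧ v = rho p := by
  refine ⟨rhi v, ?_, (rho_rhi v).symm⟩
  rw [← rhi_rho g]
  exact h.map fR'

lemma dag_ne {p : Wd} (h : dag p ≠ []) : p ≠ [] := by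
  rintro rfl
  exact h rfl

lemma rho_ne {p : Wd} (h : rho p ≠ []) : p ≠ [] := by
  rintro rfl
  exact h rfl

lemma SA_dag {g : Wd} (h : SA g) : SA (dag g) := by
  intro v hv hne h0
  obtain ⟨p, hp, rfl⟩ := dag_inf hv
  rw [X_dag, Y_dag] at h0
  exact h p hp (dag_ne hne) ⟨by linarith [h0.1], h0.2⟩

lemma SA_rho {g : Wd} (h : SA g) : SA (rho g) := by
  intro v hv hne h0
  obtain ⟨p, hp, rfl⟩ := rho_inf hv
  have h1 := X_rho p
  have h2 := Y_rho p
  exact h p hp (rho_ne hne) ⟨by omega, by omega⟩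

lemma SA_rev {g : Wd} (h : SA g) : SA g.reverse := by
  intro v hv hne h0
  have h1 : v.reverse <:+: g := by
    rw [← List.reverse_infix, List.reverse_reverse]
    exact hv
  exact h v.reverse h1 (fun hc => hne (List.reverse_eq_nil_iff.1 hc)) (by rw [X_rev, Y_rev]; exact h0)

/-- prefixes of a concatenation -/
lemma pre_app {v a b : Wd} (h : v <+: a ++ b) : v <+: a ∨ ∃ c, c <+: b ∧ v = a ++ c := by
  obtain ⟨w, hw⟩ := h
  rcases List.append_eq_append_iff.1 hw with ⟨a', h1, h2⟩ | ⟨c', h1, h2⟩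
  · exact Or.inl ⟨a', h1.symm⟩
  · exact Or.inr ⟨c', ⟨w, h2.symm⟩, h1⟩

/-- suffixes of a concatenation -/
lemma suf_app {v a b : Wd} (h : v <:+ a ++ b) : v <:+ b ∨ ∃ c, c <:+ a ∧ v = c ++ b := by
  obtain ⟨w, hw⟩ := h
  rcases List.append_eq_append_iff.1 hw with ⟨a', h1, h2⟩ | ⟨c', h1, h2⟩
  · exact Or.inr ⟨a', ⟨w, h1.symm⟩, h2⟩
  · exact Or.inl ⟨c', h2.symm⟩

/-! ### L-words -/

/-- the numbers -/
structure Nb (eta t R : ℝ) : Prop where
  e0 : 0 < eta
  e1 : eta ≤ 1 / 10 ^ 5
  t1 : 100 ≤ t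
  tR : 301 * t ≤ R / 1000

lemma nb_of {eta t R : ℝ} (h0 : 0 < eta) (h1 : eta ≤ 1 / 10 ^ 5) (h2 : 100 ≤ t) (h3 : t ^ 10 ≤ R) : Nb eta t R := by
  refine ⟨h0, h1, h2, ?_⟩
  have h4 : (100 : ℝ) ^ 9 ≤ t ^ 9 := pow_le_pow_left₀ (by norm_num) h2 9
  have h5 : t * 100 ^ 9 ≤ t ^ 10 := by
    rw [pow_succ' t 9]
    exact mul_le_mul_of_nonneg_left h4 (by linarith)
  linarith

variable {eta t R : ℝ}

/-- what is used of an L-word -/
structure LW (R : ℝ) (l : Wd) : Prop where
  sa : SA l
  suf : ∀ v, v <:+ l → 0 ≤ X v + Y v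
  pre : ∀ v, v <+: l → 0 ≤ Y v
  low : ∀ v, v <:+ l → -(R / 100) ≤ (Y v : ℝ)
  up : R / 50 ≤ (Y l : ℝ)
  top : (Y l : ℝ) ≤ 152 * R
  right : (X l : ℝ) + Y l ≤ 303 * R

theorem lw_of (hn : Nb eta t R) {l : Wd} (hl : l ∈ LS eta t R) : LW R l := by
  obtain ⟨g1, hg1, f, hf, g2, hg2, rfl⟩ := hl
  obtain ⟨⟨s1, u1, p1⟩, a1, b1, c1⟩ := hg1
  obtain ⟨⟨s2, u2, p2⟩, a2, b2, c2⟩ := hg2
  obtain ⟨sf, pf, qf, hf1, hf2⟩ := hf
  obtain ⟨e0, e1, t1, tR⟩ := hn
  have t0 : 0 < t := by linarith
  have R0 : 0 < R := by linarith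
  have eR : 2 * eta * R ≤ 2 * (R / 10 ^ 5) := by
    have := mul_le_mul_of_nonneg_right e1 R0.le
    linarith
  have eT : 26 * eta * t ≤ R / 1000 := by
    have : eta * t ≤ 1 * t := mul_le_mul_of_nonneg_right (by linarith) t0.le
    linarith
  have eR0 : 0 < eta * R := mul_pos e0 R0
  -- prefixes of the two bridges
  have k1 : ∀ v, v <+: g1 → |(X v : ℝ)| ≤ 2 * eta * R := fun v hv => (c1 v hv).2
  have k2 : ∀ v, v <+: g2 → |(X v : ℝ)| ≤ 2 * eta * R := fun v hv => (c2 v hv).2
  have x1 := abs_le.1 (k1 g1 (List.prefix_refl _))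
  have x2 := abs_le.1 (k2 g2 (List.prefix_refl _))
  have xf := abs_le.1 (hf2 f (List.infix_refl _)).1
  have yf := abs_le.1 (hf2 f (List.infix_refl _)).2
  have Xf : 0 ≤ X f + Y f := qf f (List.suffix_refl _)
  have Xf' : (0 : ℝ) ≤ (X f : ℝ) + Y f := by exact_mod_cast Xf
  have Y2 : 0 ≤ Y g2 := p2 g2 (List.suffix_refl _)
  have rX : ∀ q : Wd, (X (rho q) : ℝ) = (X q + 3 * Y q) / 2 := by
    intro q
    have h1 : (2 : ℝ) * X (rho q) = X q + 3 * Y q := by exact_mod_cast X_rho q
    linarith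
  have rY : ∀ q : Wd, (Y (rho q) : ℝ) = (Y q - X q) / 2 := by
    intro q
    have h1 : (2 : ℝ) * Y (rho q) = Y q - X q := by exact_mod_cast Y_rho q
    linarith
  have hY : (Y (dag g1 ++ f ++ rho g2) : ℝ) = Y g1 + Y f + (Y g2 - X g2) / 2 := by
    rw [Y_app, Y_app, Y_dag]
    push_cast
    rw [rY]
  have hX : (X (dag g1 ++ f ++ rho g2) : ℝ) = - X g1 + X f + (X g2 + 3 * Y g2) / 2 := by
    rw [X_app, X_app, X_dag]
    push_cast
    rw [rX]
  refine ⟨?_, ?_, ?_, ?_, ?_, ?_, ?_⟩
  · -- self-avoiding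
    intro v hv hne h0
    rcases List.infix_append_iff_ne_nil.1 hv with h | h | ⟨a, b, ha, hb, rfl, hA, hB⟩
    · rcases List.infix_append_iff_ne_nil.1 h with h | h | ⟨a, b, ha, hb, rfl, hA, hB⟩
      · exact SA_dag s1 v h hne h0
      · exact sf v h hne h0
      · obtain ⟨p, hp, rfl⟩ := dag_suf hA
        have h1 := u1 p hp (dag_ne ha)
        have h2 := pf b hB
        have h3 := h0.2
        rw [Y_app, Y_dag] at h3
        omega
    · exact SA_rho s2 v h hne h0
    · obtain ⟨q, hq, rfl⟩ := rho_pre hB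
      have hq1 := u2 q hq (rho_ne hb)
      rcases suf_app hA with h | ⟨c, hc, rfl⟩
      · have h1 := qf a h
        have h3 := h0.1
        have h4 := h0.2
        rw [X_app] at h3
        rw [Y_app] at h4
        have h5 := P_rho q
        omega
      · obtain ⟨p, hp, rfl⟩ := dag_suf hc
        have hp0 : 0 ≤ Y p := by
          rcases eq_or_ne p [] with rfl | hpn
          · exact le_rfl
          · exact (u1 p hp hpn).le
        have h4 := h0.2
        rw [Y_app, Y_app, Y_dag] at h4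
        have h6 : (Y p : ℝ) + Y f + Y (rho q) = 0 := by exact_mod_cast h4
        rw [rY] at h6
        have h8 := (abs_le.1 (c2 q hq).1).2
        have hp0' : (0 : ℝ) ≤ Y p := by exact_mod_cast hp0
        have hq0' : (0 : ℝ) ≤ Y q := by exact_mod_cast hq1.le
        have m2 : max t (Y q : ℝ) ≤ t + Y q := max_le (by linarith) (by linarith)
        have m4 : 2 * eta * max t (Y q : ℝ) ≤ 2 / 10 ^ 5 * (t + Y q) :=
          mul_le_mul (by linarith) m2 (le_trans t0.le (le_max_left _ _)) (by norm_num)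
        linarith
  · -- the end is weakly maximal in the direction of 30 degrees
    intro v hv
    rcases suf_app hv with h | ⟨c, hc, rfl⟩
    · obtain ⟨q, hq, rfl⟩ := rho_suf h
      have h5 := P_rho q
      have h6 := p2 q hq
      omega
    · rcases suf_app hc with h | ⟨d, hd, rfl⟩
      · rw [X_app, Y_app]
        have h4 := qf c h
        have h5 := P_rho g2
        omega
      · obtain ⟨p, hp, rfl⟩ := dag_suf hd
        have hp0 : 0 ≤ Y p := by
          rcases eq_or_ne p [] with rfl | hpn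
          · exact le_rfl
          · exact (u1 p hp hpn).le
        have hp0' : (0 : ℝ) ≤ Y p := by exact_mod_cast hp0
        rw [X_app, X_app, X_dag, Y_app, Y_app, Y_dag]
        have h1 := (abs_le.1 (k1 p hp)).2
        have h2 : (0 : ℝ) ≤ (-(X p : ℝ) + X f + X (rho g2)) + (Y p + Y f + Y (rho g2)) := by
          rw [rX, rY]
          linarith
        exact_mod_cast h2
  · -- the start is weakly lowest
    intro v hv
    rcases pre_app hv with h | ⟨c, hc, rfl⟩
    · rcases pre_app h with h | ⟨d, hd, rfl⟩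
      · obtain ⟨p, hp, rfl⟩ := dag_pre h
        rw [Y_dag]
        exact p1 p hp
      · rw [Y_app, Y_dag]
        have h1 := pf d hd
        have h2 := p1 g1 (List.suffix_refl _)
        omega
    · obtain ⟨q, hq, rfl⟩ := rho_pre hc
      rw [Y_app, Y_app, Y_dag]
      have hq0 : 0 ≤ Y q := by
        rcases eq_or_ne q [] with rfl | hqn
        · exact le_rfl
        · exact (u2 q hq hqn).le
      have hq0' : (0 : ℝ) ≤ Y q := by exact_mod_cast hq0
      have h1 := (abs_le.1 (k2 q hq)).2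
      have h2 : (0 : ℝ) ≤ Y g1 + Y f + Y (rho q) := by
        rw [rY]
        linarith
      exact_mod_cast h2
  · -- suffixes are not much below
    intro v hv
    have hsub : ∀ q, q <:+ g2 → (X q : ℝ) ≤ 4 * (R / 10 ^ 5) := by
      intro q hq
      obtain ⟨q', hq'⟩ := hq
      have h1 := (abs_le.1 (k2 q' ⟨q, hq'⟩)).1
      have h2 : (X g2 : ℝ) = X q' + X q := by
        rw [← hq', X_app]
        push_cast
        ring
      linarith
    rcases suf_app hv with h | ⟨c, hc, rfl⟩
    · obtain ⟨q, hq, rfl⟩ := rho_suf h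
      have h3 := hsub q hq
      have h4 : (0 : ℝ) ≤ Y q := by exact_mod_cast p2 q hq
      rw [rY]
      linarith
    · rcases suf_app hc with h | ⟨d, hd, rfl⟩
      · have h1 := (abs_le.1 (hf2 c h.isInfix).2).1
        rw [Y_app]
        push_cast
        rw [rY]
        linarith
      · obtain ⟨p, hp, rfl⟩ := dag_suf hd
        have hp0 : (0 : ℝ) ≤ Y p := by
          rcases eq_or_ne p [] with rfl | hpn
          · rw [Y_nil]
            simp
          · exact_mod_cast (u1 p hp hpn).le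
        rw [Y_app, Y_app, Y_dag]
        push_cast
        rw [rY]
        linarith
  · rw [hY]
    linarith
  · rw [hY]
    linarith
  · rw [hX, hY]
    linarith

/-! ### the glued word -/

/-- the glued word -/
def G (l l' : Wd) : Wd := St.NE :: (l ++ St.R :: l'.reverse)

theorem G_br {l l' : Wd} (h : LW R l) (h' : LW R l') (hR : 0 ≤ R) : Br (G l l') := by
  -- prefixes of the second part
  have q1 : ∀ d, d <+: l'.reverse → 0 ≤ X d + Y d ∧ -(R / 100) ≤ (Y d : ℝ) := by
    intro d hd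
    have h1 : d.reverse <:+ l' := by
      rw [← List.reverse_prefix, List.reverse_reverse]
      exact hd
    have h2 := h'.suf _ h1
    have h3 := h'.low _ h1
    rw [X_rev, Y_rev] at h2
    rw [Y_rev] at h3
    exact ⟨h2, h3⟩
  have q2 : ∀ d, d <:+ l'.reverse → 0 ≤ Y d := by
    intro d hd
    have h1 : d.reverse <+: l' := by
      rw [← List.reverse_suffix, List.reverse_reverse]
      exact hd
    have h2 := h'.pre _ h1
    rwa [Y_rev] at h2
  have pre : ∀ p, p <+: l ++ St.R :: l'.reverse → 0 ≤ Y p := by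
    intro p hp
    rcases pre_app hp with h1 | ⟨c, hc, rfl⟩
    · exact h.pre p h1
    · rcases List.prefix_cons_iff.1 hc with rfl | ⟨d, rfl, hd⟩
      · rw [List.append_nil]
        exact h.pre l (List.prefix_refl _)
      · have h2 := (q1 d hd).2
        have h3 := h.up
        have h4 : (0 : ℝ) ≤ (Y (l ++ St.R :: d) : ℝ) := by
          rw [Y_app, Y_cons]
          show (0 : ℝ) ≤ ((Y l + (0 + Y d) : ℤ) : ℝ)
          push_cast
          linarith
        exact_mod_cast h4
  have suf : ∀ p, p <:+ l ++ St.R :: l'.reverse → 0 ≤ Y p := by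
    intro p hp
    have e : ∀ a : Wd, Y (a ++ St.R :: l'.reverse) = Y a + Y l' := fun a => by
      rw [Y_app, Y_cons, Y_rev]
      show Y a + (0 + Y l') = _
      ring
    rcases suf_app hp with h1 | ⟨c, hc, rfl⟩
    · rcases List.suffix_cons_iff.1 h1 with rfl | h2
      · have h3 := e []
        rw [List.nil_append, Y_nil, zero_add] at h3
        rw [h3]
        exact h'.pre l' (List.prefix_refl _)
      · exact q2 p h2
    · rw [e]
      have h2 := h.low c hc
      have h3 := h'.up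
      have h4 : (0 : ℝ) ≤ ((Y c + Y l' : ℤ) : ℝ) := by
        push_cast
        linarith
      exact_mod_cast h4
  have hRx : dx St.R = 2 := rfl
  have hRy : dy St.R = 0 := rfl
  have hNy : dy St.NE = 1 := rfl
  refine ⟨?_, ?_, ?_⟩
  · intro v hv hne h0
    rcases List.infix_cons_iff.1 hv with h1 | h1
    · rcases List.prefix_cons_iff.1 h1 with rfl | ⟨p, rfl, hp⟩
      · exact hne rfl
      · have h2 := pre p hp
        have h3 := h0.2
        rw [Y_cons] at h3
        omega
    · rcases List.infix_append_iff_ne_nil.1 h1 with h2 | h2 | ⟨a, b, ha, hb, rfl, hA, hB⟩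
      · exact h.sa v h2 hne h0
      · rcases List.infix_cons_iff.1 h2 with h3 | h3
        · rcases List.prefix_cons_iff.1 h3 with rfl | ⟨p, rfl, hp⟩
          · exact hne rfl
          · have h4 := (q1 p hp).1
            have h5 := h0.1
            have h6 := h0.2
            rw [X_cons] at h5
            rw [Y_cons] at h6
            omega
        · exact SA_rev h'.sa v h3 hne h0
      · rcases List.prefix_cons_iff.1 hB with rfl | ⟨p, rfl, hp⟩
        · exact hb rfl
        · have h4 := (q1 p hp).1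
          have h5 := h.suf a hA
          have h6 := h0.1
          have h7 := h0.2
          rw [X_app, X_cons] at h6
          rw [Y_app, Y_cons] at h7
          omega
  · intro v hv hne
    rcases List.prefix_cons_iff.1 hv with rfl | ⟨p, rfl, hp⟩
    · exact absurd rfl hne
    · have h2 := pre p hp
      rw [Y_cons]
      omega
  · intro v hv
    rcases List.suffix_cons_iff.1 hv with rfl | h1
    · have h2 := pre _ (List.prefix_refl _)
      rw [Y_cons]
      omega
    · exact suf v h1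

lemma Y_G (l l' : Wd) : Y (G l l') = 1 + Y l + Y l' := by
  unfold G
  rw [Y_cons, Y_app, Y_cons, Y_rev]
  show 1 + (Y l + (0 + Y l')) = _
  ring

/-- the glued word and the marked line determine the two words -/
theorem G_inj {l l' m m' : Wd} (h' : LW R l') (k' : LW R m') (hG : G l l' = G m m') (hX : X l + Y l = X m + Y m) :
    l = m ∧ l' = m' := by
  have aux : ∀ (l l' m m' c : Wd), LW R l' → m = l ++ c → St.R :: l'.reverse = c ++ St.R :: m'.reverse →
      X l + Y l = X m + Y m → c = [] := by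
    intro l l' m m' c h' h1 h2 hX
    rcases c with _ | ⟨s, d⟩
    · rfl
    · exfalso
      rw [List.cons_append] at h2
      injection h2 with h3 h4
      have h5 : d.reverse <:+ l' := by
        rw [← List.reverse_prefix, List.reverse_reverse, h4]
        exact List.prefix_append _ _
      have h6 := h'.suf _ h5
      rw [X_rev, Y_rev] at h6
      rw [h1, X_app, X_cons, Y_app, Y_cons, ← h3] at hX
      have h7 : dx St.R = 2 := rfl
      have h8 : dy St.R = 0 := rfl
      omega
  unfold G at hG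
  injection hG with _ hG
  rcases List.append_eq_append_iff.1 hG with ⟨c, h1, h2⟩ | ⟨c, h1, h2⟩
  · have hc := aux l l' m m' c h' h1 h2 hX
    rw [hc, List.append_nil] at h1
    rw [hc, List.nil_append] at h2
    injection h2 with _ h3
    exact ⟨h1.symm, List.reverse_injective h3⟩
  · have hc := aux m m' l l' c k' h1 h2 hX.symm
    rw [hc, List.append_nil] at h1
    rw [hc, List.nil_append] at h2
    injection h2 with _ h3
    exact ⟨h1, List.reverse_injective h3.symm⟩

/-! ### masses -/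

lemma wt_zero (w : Wd) : wt 0 w = ENNReal.ofReal xc ^ w.length := by
  unfold wt
  have hx : 0 ≤ xc := by
    unfold xc mu
    positivity
  rw [neg_zero, Real.exp_zero, mul_one, ENNReal.ofReal_pow hx]

lemma wt_G (l l' : Wd) : wt 0 (G l l') = ENNReal.ofReal xc ^ 2 * (wt 0 l * wt 0 l') := by
  rw [wt_zero, wt_zero, wt_zero]
  unfold G
  rw [List.length_cons, List.length_append, List.length_cons, List.length_reverse, ← pow_add, ← pow_add]
  congr 1
  ring

lemma Ms_sub (A : Set Wd) : Ms 0 A = ∑' w : A, wt 0 w := by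
  unfold Ms
  exact (tsum_subtype A (wt 0)).symm

/-- the bridges of height at most `K` -/
theorem mass_br (h1 : ULe1) (K : ℕ) : Ms 0 {w | Br w ∧ Y w ≤ K} ≤ K + 1 := by
  have h : ∀ w : Wd, ({w | Br w ∧ Y w ≤ K} : Set Wd).indicator (wt 0) w ≤
      ∑ T ∈ Finset.range (K + 1), (BrS T).indicator (wt 0) w := by
    intro w
    by_cases hw : w ∈ ({w | Br w ∧ Y w ≤ K} : Set Wd)
    · rw [indicator_of_mem hw]
      obtain ⟨h2, h3⟩ := hw
      have h4 : 0 ≤ Y w := h2.2.2 w (List.suffix_refl _)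
      obtain ⟨T, hT⟩ := Int.eq_ofNat_of_zero_le h4
      have h5 : T ∈ Finset.range (K + 1) := by
        rw [Finset.mem_range]
        omega
      have h6 : w ∈ BrS T := ⟨h2, hT⟩
      refine le_trans ?_ (Finset.single_le_sum (f := fun T => (BrS T).indicator (wt 0) w) (fun _ _ => zero_le) h5)
      show wt 0 w ≤ (BrS T).indicator (wt 0) w
      rw [indicator_of_mem h6]
    · rw [indicator_of_notMem hw]
      exact zero_le
  calc Ms 0 {w | Br w ∧ Y w ≤ K} ≤ ∑' w : Wd, ∑ T ∈ Finset.range (K + 1), (BrS T).indicator (wt 0) w :=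
        ENNReal.tsum_le_tsum h
    _ = ∑ T ∈ Finset.range (K + 1), ∑' w : Wd, (BrS T).indicator (wt 0) w :=
        Summable.tsum_finsetSum fun _ _ => ENNReal.summable
    _ ≤ ∑ T ∈ Finset.range (K + 1), (1 : ℝ≥0∞) := Finset.sum_le_sum fun T _ => h1 T
    _ = K + 1 := by simp

theorem main (h1 : ULe1) (hn : Nb eta t R) {K : ℕ} (hK : 304 * R + 1 ≤ K) :
    ENNReal.ofReal xc ^ 2 * Ms 0 (LS eta t R) ^ 2 ≤ (K + 1) * (K + 1) := by
  have R0 : 0 < R := by linarith [hn.t1, hn.tR]
  have hL : ∀ l : LS eta t R, LW R (l : Wd) := fun l => lw_of hn l.2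
  have hcol : ∀ l : LS eta t R, (X (l : Wd) + Y (l : Wd)).toNat < K + 1 := by
    intro l
    have h2 := (hL l).right
    have h3 : ((X (l : Wd) + Y (l : Wd) : ℤ) : ℝ) ≤ K := by
      push_cast
      linarith
    have h4 : X (l : Wd) + Y (l : Wd) ≤ K := by exact_mod_cast h3
    omega
  let B : Set Wd := {w | Br w ∧ Y w ≤ K}
  have hB : ∀ l l' : LS eta t R, G l l' ∈ B := by
    intro l l'
    refine ⟨G_br (hL l) (hL l') R0.le, ?_⟩
    rw [Y_G]
    have h2 := (hL l).top
    have h3 := (hL l').top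
    have h4 : ((1 + Y (l : Wd) + Y (l' : Wd) : ℤ) : ℝ) ≤ K := by
      push_cast
      linarith
    exact_mod_cast h4
  let Ψ : LS eta t R × LS eta t R → Fin (K + 1) × B := fun p => (⟨_, hcol p.1⟩, ⟨G p.1 p.2, hB p.1 p.2⟩)
  have hinj : Function.Injective Ψ := by
    rintro ⟨l, l'⟩ ⟨m, m'⟩ h
    have h2 : (X (l : Wd) + Y (l : Wd)).toNat = (X (m : Wd) + Y (m : Wd)).toNat := congrArg (fun x => (x.1 : ℕ)) h
    have h3 : G (l : Wd) l' = G (m : Wd) m' := congrArg (fun x => (x.2 : Wd)) h
    have h4 := (hL l).suf _ (List.suffix_refl _)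
    have h5 := (hL m).suf _ (List.suffix_refl _)
    obtain ⟨h6, h7⟩ := G_inj (hL l') (hL m') h3 (by omega)
    exact Prod.ext (Subtype.ext h6) (Subtype.ext h7)
  have e1 : ENNReal.ofReal xc ^ 2 * Ms 0 (LS eta t R) ^ 2 = ∑' p : LS eta t R × LS eta t R, wt 0 (G p.1 p.2) := by
    simp only [wt_G]
    rw [ENNReal.tsum_mul_left, ENNReal.tsum_prod (f := fun l l' : LS eta t R => wt 0 (l : Wd) * wt 0 (l' : Wd)), Ms_sub,
      sq (∑' w : LS eta t R, wt 0 w)]
    simp only [ENNReal.tsum_mul_left, ENNReal.tsum_mul_right]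
  rw [e1]
  calc ∑' p : LS eta t R × LS eta t R, wt 0 (G p.1 p.2) = ∑' p, (fun q : Fin (K + 1) × B => wt 0 (q.2 : Wd)) (Ψ p) := rfl
    _ ≤ ∑' q : Fin (K + 1) × B, wt 0 (q.2 : Wd) := ENNReal.tsum_comp_le_tsum_of_injective hinj _
    _ = (K + 1) * Ms 0 B := by
        rw [ENNReal.tsum_prod (f := fun (_ : Fin (K + 1)) (q : B) => wt 0 (q : Wd)), Ms_sub]
        simp only [tsum_fintype, Finset.sum_const, Finset.card_univ, Fintype.card_fin, nsmul_eq_mul]
        push_cast
        rfl
    _ ≤ (K + 1) * (K + 1) := mul_le_mul_right (mass_br h1 K) _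

end Gl

/-- **row D3** -/
theorem glue_of (hm : MuLe) (h1 : ULe1) : Glue := by
  refine ⟨10 ^ 8, by norm_num, fun eta t R h0 h2 h3 _ h4 => ?_⟩
  have hn := Gl.nb_of h0 h2 h3 h4
  have R0 : 1 ≤ R := by linarith [hn.t1, hn.tR]
  obtain ⟨-, hm1, hm4⟩ := hm
  have h5 := Gl.main h1 hn (K := ⌈304 * R + 1⌉₊) (Nat.le_ceil _)
  have hx : (1 / 6 : ℝ) ≤ xc := by
    unfold xc
    rw [one_div]
    exact inv_anti₀ (by linarith) (hm4.trans (by norm_num))
  have hx2 : ENNReal.ofReal (1 / 36) ≤ ENNReal.ofReal xc ^ 2 := by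
    rw [← ENNReal.ofReal_pow (by linarith)]
    refine ENNReal.ofReal_le_ofReal ?_
    nlinarith
  have hK : ((⌈304 * R + 1⌉₊ : ℝ≥0∞) + 1) ≤ ENNReal.ofReal (307 * R) := by
    have h6 : (⌈304 * R + 1⌉₊ : ℝ) + 1 ≤ 307 * R := by
      have := Nat.ceil_lt_add_one (R := ℝ) (a := 304 * R + 1) (by linarith)
      linarith
    calc ((⌈304 * R + 1⌉₊ : ℝ≥0∞) + 1) = ENNReal.ofReal ((⌈304 * R + 1⌉₊ : ℝ) + 1) := by
          rw [ENNReal.ofReal_add (by positivity) (by norm_num), ENNReal.ofReal_natCast, ENNReal.ofReal_one]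
      _ ≤ _ := ENNReal.ofReal_le_ofReal h6
  have h7 : ENNReal.ofReal (1 / 36) * Ms 0 (LS eta t R) ^ 2 ≤ ENNReal.ofReal (307 * R * (307 * R)) := by
    rw [ENNReal.ofReal_mul (by positivity)]
    exact (mul_le_mul_left hx2 _).trans (h5.trans (mul_le_mul' hK hK))
  have h8 : Ms 0 (LS eta t R) ^ 2 = ENNReal.ofReal 36 * (ENNReal.ofReal (1 / 36) * Ms 0 (LS eta t R) ^ 2) := by
    rw [← mul_assoc, ← ENNReal.ofReal_mul (by norm_num)]
    norm_num
  rw [h8]
  calc ENNReal.ofReal 36 * (ENNReal.ofReal (1 / 36) * Ms 0 (LS eta t R) ^ 2) ≤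
        ENNReal.ofReal 36 * ENNReal.ofReal (307 * R * (307 * R)) := mul_le_mul_right h7 _
    _ = ENNReal.ofReal (36 * (307 * R * (307 * R))) := (ENNReal.ofReal_mul (by norm_num)).symm
    _ ≤ ENNReal.ofReal (10 ^ 8 * R ^ 2) := ENNReal.ofReal_le_ofReal (by nlinarith)

end ZT
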