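import Pool.Agent.ZT.Basic
import Pool.Agent.ZT.MFun

/-!
# ZT, rows A2: Hammersley - Welsh as a generating function (helper34)

* `HW.hw1 : MuLe → ULe1 → HW1`, `HW.hw2 : MuLe → ULe1 → HW2`.
-/

set_option autoImplicit false

open MeasureTheory Set Filter
open scoped ENNReal Topology

namespace ZT

namespace HW

/-! ### the cut at the last maximum -/

lemma top_dec (w : Wd) : ∃ a b, w = a ++ b ∧ (∀ p, p <+: w → Y p ≤ Y a) ∧
    ∀ v, v <+: b → v ≠ [] → Y v < 0 := by
  induction w with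
  | nil =>
    exact ⟨[], [], rfl, fun p hp => by rw [List.prefix_nil.1 hp],
      fun v hv h0 => absurd (List.prefix_nil.1 hv) h0⟩
  | cons s w ih =>
    obtain ⟨a, b, rfl, h1, h2⟩ := ih
    by_cases h : 0 ≤ dy s + Y a
    · refine ⟨s :: a, b, rfl, fun p hp => ?_, h2⟩
      rcases List.prefix_cons_iff.1 hp with rfl | ⟨t, rfl, ht⟩
      · simpa using h
      · have := h1 t ht
        simp only [Y_cons]
        omega
    · refine ⟨[], s :: (a ++ b), rfl, fun p hp => ?_, fun v hv h0 => ?_⟩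
      · rcases List.prefix_cons_iff.1 hp with rfl | ⟨t, rfl, ht⟩
        · simp
        · have := h1 t ht
          simp only [Y_cons, Y_nil]
          omega
      · rcases List.prefix_cons_iff.1 hv with rfl | ⟨t, rfl, ht⟩
        · exact absurd rfl h0
        · have := h1 t ht
          simp only [Y_cons]
          omega

lemma pre_flip {v w : Wd} (h : v <+: flip w) : ∃ t, t <+: w ∧ v = flip t := by
  obtain ⟨t, ht, h2⟩ := List.prefix_map_iff.1 h
  exact ⟨t, ht, h2⟩

/-- the cut at the last minimum -/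
lemma bot_dec (w : Wd) : ∃ a b, w = a ++ b ∧ (∀ p, p <+: w → Y a ≤ Y p) ∧ Up b := by
  obtain ⟨a, b, h0, h1, h2⟩ := top_dec (flip w)
  refine ⟨flip a, flip b, ?_, fun p hp => ?_, fun v hv hne => ?_⟩
  · rw [← flip_append, ← h0, flip_flip]
  · have := h1 (flip p) (hp.map fU)
    simp only [Y_flip] at this ⊢
    omega
  · obtain ⟨t, ht, rfl⟩ := pre_flip hv
    have := h2 t ht (by rintro rfl; exact hne rfl)
    simp only [Y_flip]
    omega

/-! ### half space walks -/

def Hall : Set Wd := {w | SA w ∧ Up w}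
def H (N : ℕ) : Set Wd := {w | SA w ∧ Up w ∧ ∀ v, v <+: w → Y v ≤ N}
def G (N : ℕ) : Set Wd := {w | SA w ∧ Up w ∧ ∃ v, v <+: w ∧ (N : ℤ) ≤ Y v}

lemma H_zero {w : Wd} (h : w ∈ H 0) : w = [] := by
  by_contra h0
  have h1 := h.2.1.Y_pos h0
  have h2 := h.2.2 w (List.prefix_refl w)
  simp only [Nat.cast_zero] at h2
  omega

lemma br_of_cut {a b : Wd} (hS : SA (a ++ b)) (hU : Up (a ++ b)) (h1 : ∀ p, p <+: a ++ b → Y p ≤ Y a) :
    Br a := by
  refine ⟨hS.left, hU.left, fun s hs => ?_⟩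
  obtain ⟨p, rfl⟩ := hs
  have := h1 p (by rw [List.append_assoc]; exact List.prefix_append _ _)
  simp only [Y_append] at this
  omega

/-- a half space walk which is not flat: one bridge and a lower half space walk -/
lemma cut {w : Wd} (h : w ∈ Hall) : ∃ a b, Br a ∧ w = a ++ flip b ∧ (∀ p, p <+: w → Y p ≤ Y a) ∧
    SA b ∧ Up b ∧ ∀ v, v <+: b → v ≠ [] → Y v < Y a := by
  obtain ⟨a, b, rfl, h1, h2⟩ := top_dec w
  refine ⟨a, flip b, br_of_cut h.1 h.2 h1, by simp, h1, SA_flip.2 h.1.right, fun v hv hne => ?_,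
    fun v hv hne => ?_⟩
  · obtain ⟨t, ht, rfl⟩ := pre_flip hv
    have := h2 t ht (by rintro rfl; exact hne rfl)
    simp only [Y_flip]
    omega
  · obtain ⟨t, ht, rfl⟩ := pre_flip hv
    have ht0 : t ≠ [] := by rintro rfl; exact hne rfl
    have := h.2 (a ++ t) ((List.prefix_append_right_inj a).2 ht) (by simp [ht0])
    simp only [Y_append] at this
    simp only [Y_flip]
    omega

/-- the products -/
def Pr (T N : ℕ) : Set Wd := {w | ∃ a ∈ BrS T, ∃ b ∈ H N, w = a ++ flip b}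

lemma H_succ (N : ℕ) : H (N + 1) ⊆ H N ∪ Pr (N + 1) N := by
  intro w hw
  obtain ⟨a, b, ha, hab, h1, h2, h3, h4⟩ := cut (w := w) ⟨hw.1, hw.2.1⟩
  have hY : Y a ≤ ((N + 1 : ℕ) : ℤ) := hw.2.2 a (by rw [hab]; exact List.prefix_append _ _)
  by_cases h : Y a ≤ N
  · exact Or.inl ⟨hw.1, hw.2.1, fun v hv => (h1 v hv).trans h⟩
  · right
    have hY' : Y a = ((N + 1 : ℕ) : ℤ) := by push_cast at hY ⊢; omega
    refine ⟨a, ⟨ha, hY'⟩, b, ⟨h2, h3, fun v hv => ?_⟩, hab⟩
    by_cases h0 : v = []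
    · subst h0; simp
    · have := h4 v hv h0
      rw [hY'] at this
      push_cast at this
      omega

lemma G_sub {N : ℕ} (hN : 1 ≤ N) : G N ⊆ ⋃ k : ℕ, Pr (N + k) (N + k - 1) := by
  intro w hw
  obtain ⟨a, b, ha, hab, h1, h2, h3, h4⟩ := cut (w := w) ⟨hw.1, hw.2.1⟩
  obtain ⟨v, hv, hv2⟩ := hw.2.2
  have hY : (N : ℤ) ≤ Y a := hv2.trans (h1 v hv)
  obtain ⟨k, hk⟩ : ∃ k : ℕ, Y a = N + k := ⟨(Y a - N).toNat, by omega⟩
  refine mem_iUnion.2 ⟨k, a, ⟨ha, by rw [hk]; push_cast; ring⟩, b, ⟨h2, h3, fun v hv => ?_⟩, hab⟩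
  by_cases h0 : v = []
  · subst h0; simp
  · have := h4 v hv h0
    omega

/-! ### masses of products -/

lemma ms_le_prod {lam : ℝ} {A B S : Set Wd} {K : ℝ≥0∞} (f : Wd → Wd → Wd)
    (h : ∀ w ∈ S, ∃ a ∈ A, ∃ b ∈ B, f a b = w ∧ wt lam w ≤ K * (wt lam a * wt lam b)) :
    Ms lam S ≤ K * (Ms lam A * Ms lam B) := by
  have h' : ∀ w : S, ∃ q : A × B, f q.1.1 q.2.1 = w.1 ∧ wt lam w.1 ≤ K * (wt lam q.1.1 * wt lam q.2.1) := by
    intro w
    obtain ⟨a, ha, b, hb, h1, h2⟩ := h w.1 w.2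
    exact ⟨(⟨a, ha⟩, ⟨b, hb⟩), h1, h2⟩
  choose g hg1 hg2 using h'
  rw [Ms_mul, Ms_eq_tsum_subtype, ← ENNReal.tsum_mul_left]
  calc ∑' w : S, wt lam w.1 ≤ ∑' w : S, K * wt lam ((g w).1.1 ++ (g w).2.1) :=
        ENNReal.tsum_le_tsum fun w => by rw [wt_append]; exact hg2 w
    _ ≤ _ := ENNReal.tsum_comp_le_tsum_of_injective (f := g)
        (fun v w hvw => Subtype.ext (by rw [← hg1 v, ← hg1 w, hvw]))
        (fun q : A × B => K * wt lam (q.1.1 ++ q.2.1))

lemma ms_Pr (lam : ℝ) (T N : ℕ) : Ms lam (Pr T N) ≤ u lam T * Ms lam (H N) := by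
  have := ms_le_prod (lam := lam) (A := BrS T) (B := H N) (S := Pr T N) (K := 1) (fun a b => a ++ flip b)
    (fun w hw => by
      obtain ⟨a, ha, b, hb, rfl⟩ := hw
      refine ⟨a, ha, b, hb, rfl, ?_⟩
      rw [wt_append, one_mul, wt_congr lam (flip_length b)])
  rwa [one_mul] at this

lemma ms_H {lam : ℝ} {b : ℕ → ℝ} (hb : ∀ T, 0 ≤ b T) (hu : ∀ T, u lam (T + 1) ≤ ENNReal.ofReal (b T))
    (N : ℕ) : Ms lam (H N) ≤ ENNReal.ofReal (Real.exp (∑ T ∈ Finset.range N, b T)) := by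
  induction N with
  | zero =>
    simp only [Finset.range_zero, Finset.sum_empty, Real.exp_zero, ENNReal.ofReal_one]
    calc Ms lam (H 0) ≤ Ms lam {[]} := Ms_mono lam fun w hw => H_zero hw
      _ = 1 := by rw [Ms_singleton, wt_nil]
  | succ N ih =>
    have hs : 0 ≤ Real.exp (∑ T ∈ Finset.range N, b T) := (Real.exp_pos _).le
    calc Ms lam (H (N + 1)) ≤ Ms lam (H N) + Ms lam (Pr (N + 1) N) :=
          (Ms_mono lam (H_succ N)).trans (Ms_union_le _ _ _)
      _ ≤ ENNReal.ofReal (Real.exp (∑ T ∈ Finset.range N, b T)) +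
          ENNReal.ofReal (b N) * ENNReal.ofReal (Real.exp (∑ T ∈ Finset.range N, b T)) :=
          add_le_add ih ((ms_Pr lam _ _).trans (mul_le_mul' (hu N) ih))
      _ = ENNReal.ofReal ((b N + 1) * Real.exp (∑ T ∈ Finset.range N, b T)) := by
          rw [← ENNReal.ofReal_mul (hb N), ← ENNReal.ofReal_add hs (mul_nonneg (hb N) hs)]
          congr 1
          ring
      _ ≤ _ := by
          refine ENNReal.ofReal_le_ofReal ?_
          rw [Finset.sum_range_succ, add_comm (∑ T ∈ Finset.range N, b T), Real.exp_add]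
          exact mul_le_mul_of_nonneg_right (Real.add_one_le_exp _) hs

/-! ### all words at once -/

lemma ms_le_of_len {lam : ℝ} {A : Set Wd} {B : ℝ≥0∞} (h : ∀ L : ℕ, Ms lam {w | w ∈ A ∧ w.length ≤ L} ≤ B) :
    Ms lam A ≤ B := by
  unfold Ms
  rw [ENNReal.tsum_eq_iSup_sum]
  refine iSup_le fun s => ?_
  refine le_trans ?_ (h (s.sup List.length))
  unfold Ms
  calc ∑ w ∈ s, A.indicator (wt lam) w
      = ∑ w ∈ s, {w | w ∈ A ∧ w.length ≤ s.sup List.length}.indicator (wt lam) w := by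
        refine Finset.sum_congr rfl fun w hw => ?_
        have hl : w.length ≤ s.sup List.length := Finset.le_sup (f := List.length) hw
        by_cases hA : w ∈ A
        · rw [indicator_of_mem hA]
          exact (indicator_of_mem (s := {w | w ∈ A ∧ w.length ≤ s.sup List.length}) ⟨hA, hl⟩ _).symm
        · rw [indicator_of_notMem hA]
          exact (indicator_of_notMem (s := {w | w ∈ A ∧ w.length ≤ s.sup List.length})
            (fun h => hA h.1) _).symm
    _ ≤ _ := ENNReal.sum_le_tsum s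

lemma ms_Hall {lam : ℝ} {B : ℝ≥0∞} (h : ∀ N, Ms lam (H N) ≤ B) : Ms lam Hall ≤ B :=
  ms_le_of_len fun L => (Ms_mono lam (B := H L) fun w hw =>
    ⟨hw.1.1, hw.1.2, fun v hv => (Y_le v).trans (by exact_mod_cast hv.length_le.trans hw.2)⟩).trans (h L)

/-! ### self avoiding words as two half space walks -/

/-- the first half, read backwards -/
def back (a : Wd) : Wd := St.NE :: flip a.reverse

lemma back_mem {a : Wd} (h : SA a) (h1 : ∀ s, s <:+ a → Y s ≤ 0) : SA (back a) ∧ Up (back a) := by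
  have hpre : ∀ p, p <+: flip a.reverse → 0 ≤ Y p := by
    intro p hp
    obtain ⟨t, ht, rfl⟩ := pre_flip hp
    have h2 := h1 t.reverse (by simpa using List.reverse_suffix.2 ht)
    simp only [Y_reverse] at h2
    simp only [Y_flip]
    omega
  refine ⟨?_, fun v hv hne => ?_⟩
  · have hU : SA [St.NE] := by
      intro v hv h0 hXY
      have h3 : v = [St.NE] := by
        rcases List.infix_cons_iff.1 hv with h4 | h4
        · rcases List.prefix_cons_iff.1 h4 with rfl | ⟨t, rfl, ht⟩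
          · exact absurd rfl h0
          · rw [List.prefix_nil.1 ht]
        · exact absurd (List.infix_nil.1 h4) h0
      subst h3
      simp [dy] at hXY
    refine SA_append (v := [St.NE]) hU (SA_flip.2 h.reverse) fun s p hs hp hs' hp' hXY => ?_
    have h3 : s = [St.NE] := by
      rcases List.suffix_cons_iff.1 hs' with h4 | h4
      · exact h4
      · exact absurd (List.suffix_nil.1 h4) hs
    subst h3
    have := hpre p hp'
    simp only [Y_cons, Y_nil, dy] at hXY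
    omega
  · rcases List.prefix_cons_iff.1 hv with rfl | ⟨t, rfl, ht⟩
    · exact absurd rfl hne
    · have := hpre t ht
      simp only [Y_cons, dy]
      omega

lemma back_len (a : Wd) : (back a).length = a.length + 1 := by simp [back]

/-- gluing back -/
def glue (a b : Wd) : Wd := (flip a.tail).reverse ++ b

lemma glue_back (a b : Wd) : glue (back a) b = a ++ b := by simp [glue, back]

/-- one unit of weight -/
noncomputable def K (lam : ℝ) : ℝ≥0∞ := ENNReal.ofReal ((xc * Real.exp (-lam))⁻¹)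

lemma wt_split (lam : ℝ) (a b : Wd) : wt lam (a ++ b) ≤ K lam * (wt lam (back a) * wt lam b) := by
  have hq : 0 < xc * Real.exp (-lam) := mul_pos xc_pos (Real.exp_pos _)
  rw [wt_append, ← mul_assoc]
  refine le_of_eq ?_
  congr 1
  unfold wt K
  rw [← ENNReal.ofReal_mul (inv_nonneg.2 hq.le), back_len, pow_succ, mul_comm (_ ^ _) (xc * _),
    inv_mul_cancel_left₀ hq.ne']

/-- cut a self avoiding word at the last minimum -/
lemma split {w : Wd} (h : SA w) : ∃ a b, w = a ++ b ∧ back a ∈ Hall ∧ b ∈ Hall ∧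
    ∀ N : ℕ, (∃ v, v <:+: w ∧ (N : ℤ) ≤ |Y v|) → back a ∈ G N ∨ b ∈ G N := by
  obtain ⟨a, b, rfl, h1, h2⟩ := bot_dec w
  have hsuf : ∀ s, s <:+ a → Y s ≤ 0 := by
    intro s hs
    obtain ⟨p, rfl⟩ := hs
    have := h1 p (by rw [List.append_assoc]; exact List.prefix_append _ _)
    simp only [Y_append] at this
    omega
  have hA := back_mem h.left hsuf
  have hB : SA b ∧ Up b := ⟨h.right, h2⟩
  refine ⟨a, b, rfl, hA, hB, fun N hN => ?_⟩
  obtain ⟨v, ⟨s, t, hv⟩, hNv⟩ := hN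
  -- a prefix which is high above the minimum
  have key : ∃ p, p <+: a ++ b ∧ (N : ℤ) ≤ Y p - Y a := by
    have p1 : s <+: a ++ b := ⟨v ++ t, by rw [← hv, List.append_assoc]⟩
    have p2 : s ++ v <+: a ++ b := ⟨t, hv⟩
    have q1 := h1 _ p1
    have q2 := h1 _ p2
    rw [Y_append] at q2
    rcases abs_cases (Y v) with ⟨h3, _⟩ | ⟨h3, _⟩
    · refine ⟨s ++ v, p2, ?_⟩
      rw [Y_append]
      omega
    · exact ⟨s, p1, by omega⟩
  obtain ⟨p, hp, hpN⟩ := key
  rcases prefix_append_cases hp with h3 | ⟨y, hy0, hy, rfl⟩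
  · left
    obtain ⟨c, rfl⟩ := h3
    refine ⟨hA.1, hA.2, St.NE :: flip c.reverse, ?_, ?_⟩
    · unfold back
      refine List.prefix_cons_iff.2 (Or.inr ⟨_, rfl, ?_⟩)
      rw [List.reverse_append, flip_append]
      exact List.prefix_append _ _
    · simp only [Y_append] at hpN
      simp only [Y_cons, Y_flip, Y_reverse, dy]
      omega
  · right
    refine ⟨hB.1, hB.2, y, hy, ?_⟩
    simp only [Y_append] at hpN
    omega

/-! ### row HW2 -/

lemma inv_le {x : ℝ} (hx : 0 < x) : (1 - Real.exp (-x))⁻¹ ≤ Real.exp (1 / x) := by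
  have h1 : x + 1 ≤ Real.exp x := Real.add_one_le_exp x
  have h2 : 1 / x + 1 ≤ Real.exp (1 / x) := Real.add_one_le_exp _
  have h3 : Real.exp (-x) ≤ (x + 1)⁻¹ := by
    rw [Real.exp_neg]
    exact inv_anti₀ (by linarith) h1
  have h4 : x / (x + 1) ≤ 1 - Real.exp (-x) := by
    have : x / (x + 1) = 1 - (x + 1)⁻¹ := by field_simp; ring
    rw [this]
    linarith
  calc (1 - Real.exp (-x))⁻¹ ≤ (x / (x + 1))⁻¹ := inv_anti₀ (by positivity) h4
    _ = 1 / x + 1 := by field_simp; ring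
    _ ≤ _ := h2

lemma sum_le {x : ℝ} (hx : 0 < x) (N : ℕ) :
    ∑ T ∈ Finset.range N, Real.exp (-x * ((T : ℝ) + 1)) ≤ 1 / x := by
  have h0 : Real.exp (-x) < 1 := Real.exp_lt_one_iff.2 (by linarith)
  have h1 : ∀ T : ℕ, Real.exp (-x * ((T : ℝ) + 1)) = Real.exp (-x) * Real.exp (-x) ^ T := by
    intro T
    rw [← Real.exp_nat_mul, ← Real.exp_add]
    congr 1
    ring
  have hx1 : x + 1 ≤ Real.exp x := Real.add_one_le_exp x
  have h2 : ∑ T ∈ Finset.range N, Real.exp (-x) ^ T ≤ (1 - Real.exp (-x))⁻¹ :=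
    (summable_geometric_of_lt_one (Real.exp_pos _).le h0).sum_le_tsum _ (fun i _ => by positivity) |>.trans
      (le_of_eq (tsum_geometric_of_lt_one (Real.exp_pos _).le h0))
  calc ∑ T ∈ Finset.range N, Real.exp (-x * ((T : ℝ) + 1))
      = Real.exp (-x) * ∑ T ∈ Finset.range N, Real.exp (-x) ^ T := by
        rw [Finset.mul_sum]
        exact Finset.sum_congr rfl fun T _ => h1 T
    _ ≤ Real.exp (-x) * (1 - Real.exp (-x))⁻¹ := mul_le_mul_of_nonneg_left h2 (Real.exp_pos _).le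
    _ ≤ 1 / x := by
        have h3 : 0 < 1 - Real.exp (-x) := by linarith
        rw [← div_eq_mul_inv, div_le_div_iff₀ h3 hx]
        have h4 : Real.exp (-x) * (x + 1) ≤ 1 := by
          calc Real.exp (-x) * (x + 1) ≤ Real.exp (-x) * Real.exp x :=
                mul_le_mul_of_nonneg_left hx1 (Real.exp_pos _).le
            _ = 1 := by rw [← Real.exp_add]; simp
        nlinarith

section
variable (h1 : ULe1) {lam : ℝ} (h : 0 < lam)
include h1 h

lemma m_pos : 0 < m lam := lt_of_lt_of_le h (MF.mLo h1 lam h.le)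

lemma ms_H2 (N : ℕ) : Ms lam (H N) ≤ ENNReal.ofReal (Real.exp (1 / m lam)) := by
  refine (ms_H (b := fun T => Real.exp (- m lam * ((T : ℝ) + 1))) (fun T => (Real.exp_pos _).le)
    (fun T => ?_) N).trans (ENNReal.ofReal_le_ofReal (Real.exp_le_exp.2 (sum_le (m_pos h1 h) N)))
  have := MF.mU h1 lam h.le (T + 1)
  push_cast at this
  exact this

lemma ms_Hall2 : Ms lam Hall ≤ ENNReal.ofReal (Real.exp (1 / m lam)) := ms_Hall (ms_H2 h1 h)

lemma ms_G2 (N : ℕ) : Ms lam (G N) ≤ ENNReal.ofReal (Real.exp (2 / m lam - m lam * N)) := by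
  have hm := m_pos h1 h
  rcases Nat.eq_zero_or_pos N with rfl | hN
  · refine (Ms_mono lam (B := Hall) fun w hw => ⟨hw.1, hw.2.1⟩).trans ((ms_Hall2 h1 h).trans ?_)
    refine ENNReal.ofReal_le_ofReal (Real.exp_le_exp.2 ?_)
    have : (2 : ℝ) / m lam = 1 / m lam + 1 / m lam := by ring
    rw [this]
    have : 0 < 1 / m lam := by positivity
    simp only [Nat.cast_zero, mul_zero, sub_zero]
    linarith
  · refine (Ms_mono lam (G_sub hN)).trans ((Ms_iUnion_le lam _).trans ?_)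
    have hk : ∀ k : ℕ, Ms lam (Pr (N + k) (N + k - 1)) ≤
        ENNReal.ofReal (Real.exp (1 / m lam - m lam * N)) * ENNReal.ofReal (Real.exp (- m lam)) ^ k := by
      intro k
      refine (ms_Pr lam _ _).trans ((mul_le_mul' (MF.mU h1 lam h.le (N + k)) (ms_H2 h1 h _)).trans ?_)
      rw [← ENNReal.ofReal_pow (Real.exp_pos _).le, ← Real.exp_nat_mul,
        ← ENNReal.ofReal_mul (Real.exp_pos _).le, ← ENNReal.ofReal_mul (Real.exp_pos _).le,
        ← Real.exp_add, ← Real.exp_add]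
      refine ENNReal.ofReal_le_ofReal (Real.exp_le_exp.2 (le_of_eq ?_))
      push_cast
      ring
    refine (ENNReal.tsum_le_tsum hk).trans ?_
    rw [ENNReal.tsum_mul_left, ENNReal.tsum_geometric]
    have hlt : Real.exp (- m lam) < 1 := Real.exp_lt_one_iff.2 (by linarith)
    have h5 : (1 - ENNReal.ofReal (Real.exp (- m lam)))⁻¹ ≤ ENNReal.ofReal (Real.exp (1 / m lam)) := by
      rw [← ENNReal.ofReal_one, ← ENNReal.ofReal_sub _ (Real.exp_pos _).le,
        ← ENNReal.ofReal_inv_of_pos (by linarith)]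
      exact ENNReal.ofReal_le_ofReal (inv_le hm)
    refine (mul_le_mul_right h5 _).trans ?_
    rw [← ENNReal.ofReal_mul (Real.exp_pos _).le, ← Real.exp_add]
    refine ENNReal.ofReal_le_ofReal (Real.exp_le_exp.2 (le_of_eq ?_))
    ring

end

lemma K_le (hm : MuLe) {lam : ℝ} (h : lam ≤ 1) : K lam ≤ ENNReal.ofReal (6 * Real.exp 1) := by
  unfold K
  refine ENNReal.ofReal_le_ofReal ?_
  have h1 : (xc * Real.exp (-lam))⁻¹ = mu * Real.exp lam := by
    unfold xc
    rw [mul_inv, inv_inv, Real.exp_neg, inv_inv]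
  rw [h1]
  exact mul_le_mul hm.2.2 (Real.exp_le_exp.2 h) (Real.exp_pos _).le (by norm_num)

theorem hw2 (hm : MuLe) (h1 : ULe1) : HW2 := by
  refine ⟨12 * Real.exp 1, by positivity, fun lam h hl N => ?_⟩
  have hmm := m_pos h1 h
  have hK := K_le hm hl
  set S : Set Wd := {w | SA w ∧ ∃ v, v <:+: w ∧ (N : ℤ) ≤ |Y v|} with hS
  set S1 : Set Wd := {w | w ∈ S ∧ ∃ a b, w = a ++ b ∧ back a ∈ G N ∧ b ∈ Hall} with hS1
  set S2 : Set Wd := {w | w ∈ S ∧ ∃ a b, w = a ++ b ∧ back a ∈ Hall ∧ b ∈ G N} with hS2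
  have hsub : S ⊆ S1 ∪ S2 := by
    intro w hw
    obtain ⟨a, b, hab, ha, hb, hN⟩ := split hw.1
    rcases hN N hw.2 with h3 | h3
    · exact Or.inl ⟨hw, a, b, hab, h3, hb⟩
    · exact Or.inr ⟨hw, a, b, hab, ha, h3⟩
  have e0 : ENNReal.ofReal (6 * Real.exp 1) * ENNReal.ofReal (Real.exp (3 / m lam - m lam * N)) =
      ENNReal.ofReal (6 * Real.exp 1 * Real.exp (3 / m lam - m lam * N)) := by
    rw [← ENNReal.ofReal_mul (by positivity)]
  have e1 : Ms lam (G N) * Ms lam Hall ≤ ENNReal.ofReal (Real.exp (3 / m lam - m lam * N)) := by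
    refine (mul_le_mul' (ms_G2 h1 h N) (ms_Hall2 h1 h)).trans ?_
    rw [← ENNReal.ofReal_mul (Real.exp_pos _).le, ← Real.exp_add]
    refine ENNReal.ofReal_le_ofReal (Real.exp_le_exp.2 (le_of_eq ?_))
    ring
  have b1 : Ms lam S1 ≤ ENNReal.ofReal (6 * Real.exp 1 * Real.exp (3 / m lam - m lam * N)) := by
    refine (ms_le_prod (A := G N) (B := Hall) (K := K lam) glue fun w hw => ?_).trans ?_
    · obtain ⟨_, a, b, rfl, ha, hb⟩ := hw
      exact ⟨back a, ha, b, hb, glue_back a b, wt_split lam a b⟩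
    · rw [← e0]
      exact mul_le_mul' hK e1
  have b2 : Ms lam S2 ≤ ENNReal.ofReal (6 * Real.exp 1 * Real.exp (3 / m lam - m lam * N)) := by
    refine (ms_le_prod (A := Hall) (B := G N) (K := K lam) glue fun w hw => ?_).trans ?_
    · obtain ⟨_, a, b, rfl, ha, hb⟩ := hw
      exact ⟨back a, ha, b, hb, glue_back a b, wt_split lam a b⟩
    · rw [← e0, mul_comm (Ms lam Hall)]
      exact mul_le_mul' hK e1
  refine (Ms_mono lam hsub).trans ((Ms_union_le _ _ _).trans ((add_le_add b1 b2).trans ?_))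
  rw [← ENNReal.ofReal_add (by positivity) (by positivity)]
  refine ENNReal.ofReal_le_ofReal (le_of_eq ?_)
  ring

/-! ### row HW1 -/

lemma fin_len (n : ℕ) (A : Set Wd) (hA : A ⊆ {w : Wd | w.length = n}) : A.Finite :=
  (List.finite_length_eq St n).subset hA

/-- mass of a set of words of the same length -/
lemma ms_len (lam : ℝ) (n : ℕ) {A : Set Wd} (hA : A ⊆ {w : Wd | w.length = n}) :
    Ms lam A = (A.ncard : ℝ≥0∞) * ENNReal.ofReal ((xc * Real.exp (-lam)) ^ n) := by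
  have h1 : Ms lam A = ∑' _ : A, ENNReal.ofReal ((xc * Real.exp (-lam)) ^ n) := by
    rw [Ms_eq_tsum_subtype]
    refine tsum_congr fun w => ?_
    have : w.1.length = n := hA w.2
    unfold wt
    rw [this]
  rw [h1, ENNReal.tsum_set_const]
  congr 1
  rw [← (fin_len n A hA).cast_ncard_eq]
  simp

lemma ms_sa_len (hm : MuLe) (n : ℕ) : 1 ≤ Ms 0 {w : Wd | w.length = n ∧ SA w} := by
  rw [ms_len 0 n (A := {w : Wd | w.length = n ∧ SA w}) fun w hw => hw.1]
  have h1 : xc * Real.exp (-0) = mu⁻¹ := by unfold xc; simp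
  rw [h1, ← ENNReal.ofReal_natCast, ← ENNReal.ofReal_mul (by positivity), ← ENNReal.ofReal_one]
  refine ENNReal.ofReal_le_ofReal ?_
  have h2 := hm.1 n
  have hmu : 0 < mu ^ n := pow_pos mu_pos n
  unfold c at h2
  rw [inv_pow, ← div_eq_mul_inv, le_div_iff₀ hmu, one_mul]
  exact h2

lemma ms_sa (hm : MuLe) : Ms 0 {w : Wd | SA w} = ⊤ := by
  have h1 : {w : Wd | SA w} = ⋃ n : ℕ, {w : Wd | w.length = n ∧ SA w} := by
    ext w
    simp
  rw [h1, Ms_iUnion]
  · refine top_le_iff.1 ?_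
    calc (⊤ : ℝ≥0∞) = ∑' _ : ℕ, (1 : ℝ≥0∞) := by rw [ENNReal.tsum_const_eq_top_of_ne_zero one_ne_zero]
      _ ≤ _ := ENNReal.tsum_le_tsum fun n => ms_sa_len hm n
  · intro i j hij
    refine disjoint_left.2 fun w hi hj => hij ?_
    exact hi.1.symm.trans hj.1

theorem hw1 (hm : MuLe) : HW1 := by
  by_contra hne
  have hne' : ∑' T, u 0 T ≠ ⊤ := hne
  have hu : ∀ T, u 0 T ≠ ⊤ := fun T => ne_top_of_le_ne_top hne' (ENNReal.le_tsum T)
  have hH : ∀ N, Ms 0 (H N) ≤ ENNReal.ofReal (Real.exp (∑' T, u 0 T).toReal) := by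
    intro N
    refine (ms_H (b := fun T => (u 0 (T + 1)).toReal) (fun T => ENNReal.toReal_nonneg)
      (fun T => by rw [ENNReal.ofReal_toReal (hu _)]) N).trans
      (ENNReal.ofReal_le_ofReal (Real.exp_le_exp.2 ?_))
    rw [← ENNReal.toReal_sum fun T _ => hu _]
    refine ENNReal.toReal_mono hne' ?_
    calc ∑ T ∈ Finset.range N, u 0 (T + 1) ≤ ∑' T, u 0 (T + 1) := ENNReal.sum_le_tsum _
      _ ≤ ∑' T, u 0 T := ENNReal.tsum_comp_le_tsum_of_injective (add_left_injective 1) _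
  have hA := ms_Hall hH
  have h2 : Ms 0 {w : Wd | SA w} ≤ K 0 * (Ms 0 Hall * Ms 0 Hall) := by
    refine ms_le_prod (A := Hall) (B := Hall) (K := K 0) glue fun w hw => ?_
    obtain ⟨a, b, rfl, ha, hb, -⟩ := split hw
    exact ⟨back a, ha, b, hb, glue_back a b, wt_split 0 a b⟩
  rw [ms_sa hm, top_le_iff] at h2
  have h3 : Ms 0 Hall ≠ ⊤ := ne_top_of_le_ne_top ENNReal.ofReal_ne_top hA
  exact ENNReal.mul_ne_top (by unfold K; exact ENNReal.ofReal_ne_top) (ENNReal.mul_ne_top h3 h3) h2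

end HW

end ZT
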