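import Pool.Agent.ZT.Basic

/-!
# ZT, row D1 (helper69): the mass of the corner pieces, triangular lattice

* `sig` : the reflection of a bridge which exchanges its two ends (the first letter is kept), `tog` : the first letter is
  reflected; both are bijections of `Bn n`;
* **`massF_of`** : `MassF`: three independent bridges, the rightmost point is in the middle one, cut there.
-/

open MeasureTheory Set Filter
open scoped ENNReal Topology

namespace ZT

namespace MF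

/-! ### the reflection -/

/-- the reflection of a bridge which exchanges its two ends, the first letter is kept -/
def sig : Wd → Wd
  | [] => []
  | s :: w => s :: dag w

/-- the first letter is reflected -/
def tog : Wd → Wd
  | [] => []
  | s :: w => fL s :: w

lemma sig_nil : sig [] = [] := rfl

lemma sig_cons (s : St) (w : Wd) : sig (s :: w) = s :: dag w := rfl

lemma tog_cons (s : St) (w : Wd) : tog (s :: w) = fL s :: w := rfl

lemma sig_length (w : Wd) : (sig w).length = w.length := by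
  cases w with
  | nil => rfl
  | cons s w => simp [sig_cons]

lemma tog_length (w : Wd) : (tog w).length = w.length := by
  cases w with
  | nil => rfl
  | cons s w => simp [tog_cons]

lemma sig_sig (w : Wd) : sig (sig w) = w := by
  cases w with
  | nil => rfl
  | cons s w => simp [sig_cons]

lemma tog_tog (w : Wd) : tog (tog w) = w := by
  cases w with
  | nil => rfl
  | cons s w => simp [tog_cons]

lemma tog_append {v w : Wd} (hv : v ≠ []) : tog (v ++ w) = tog v ++ w := by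
  cases v with
  | nil => exact absurd rfl hv
  | cons s v => rfl

lemma up_cases {w : Wd} (h : Up w) : w = [] ∨ ∃ a w', (a = .NE ∨ a = .NW) ∧ w = a :: w' := by
  cases w with
  | nil => exact Or.inl rfl
  | cons s w =>
    right
    have h1 := h [s] ⟨w, rfl⟩ (by simp)
    cases s <;> simp [dy] at h1
    · exact ⟨_, w, Or.inl rfl, rfl⟩
    · exact ⟨_, w, Or.inr rfl, rfl⟩

lemma dy_a {a : St} (h : a = .NE ∨ a = .NW) : dy a = 1 := by
  rcases h with rfl | rfl <;> rfl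

lemma fL_a {a : St} (h : a = .NE ∨ a = .NW) : fL a = .NE ∨ fL a = .NW := by
  rcases h with rfl | rfl
  · exact Or.inr rfl
  · exact Or.inl rfl

lemma dag_pre {v w : Wd} (h : v <+: w) : dag v <:+ dag w := by
  obtain ⟨t, rfl⟩ := h
  exact ⟨dag t, (dag_append v t).symm⟩

lemma dag_suf {v w : Wd} (h : v <:+ w) : dag v <+: dag w := by
  obtain ⟨t, rfl⟩ := h
  exact ⟨dag t, (dag_append t v).symm⟩

lemma dag_inf {v w : Wd} (h : v <:+: w) : dag v <:+: dag w := by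
  obtain ⟨s, t, rfl⟩ := h
  exact ⟨dag t, dag s, by simp⟩

lemma of_dag_pre {v w : Wd} (h : v <+: dag w) : ∃ s, s <:+ w ∧ v = dag s :=
  ⟨dag v, by have := dag_pre h; rwa [dag_dag] at this, (dag_dag v).symm⟩

lemma of_dag_suf {v w : Wd} (h : v <:+ dag w) : ∃ s, s <+: w ∧ v = dag s :=
  ⟨dag v, by have := dag_suf h; rwa [dag_dag] at this, (dag_dag v).symm⟩

lemma of_dag_inf {v w : Wd} (h : v <:+: dag w) : ∃ s, s <:+: w ∧ v = dag s :=
  ⟨dag v, by have := dag_inf h; rwa [dag_dag] at this, (dag_dag v).symm⟩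

/-- the words behind the first letter -/
structure Ti (w : Wd) : Prop where
  sa : SA w
  pre : ∀ p, p <+: w → 0 ≤ Y p
  suf : ∀ s, s <:+ w → 0 ≤ Y s

lemma ti_of {a : St} {w : Wd} (ha : a = .NE ∨ a = .NW) (h : Br (a :: w)) : Ti w := by
  refine ⟨SA.right (v := [a]) h.1, fun p hp => ?_, fun s hs => h.2.2 s (hs.trans (List.suffix_cons _ _))⟩
  have h1 := h.2.1 (a :: p) (List.cons_prefix_cons.2 ⟨rfl, hp⟩) (by simp)
  rw [Y_cons, dy_a ha] at h1
  omega

lemma Ti.dag {w : Wd} (h : Ti w) : Ti (ZT.dag w) := by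
  refine ⟨SA_dag.2 h.sa, fun p hp => ?_, fun s hs => ?_⟩
  · obtain ⟨q, hq, rfl⟩ := of_dag_pre hp
    rw [Y_dag]
    exact h.suf q hq
  · obtain ⟨q, hq, rfl⟩ := of_dag_suf hs
    rw [Y_dag]
    exact h.pre q hq

lemma br_of_ti {a : St} {w : Wd} (ha : a = .NE ∨ a = .NW) (h : Ti w) : Br (a :: w) := by
  have ha1 := dy_a ha
  refine ⟨?_, ?_, ?_⟩
  · have e : a :: w = [a] ++ w := rfl
    rw [e]
    refine SA_append ?_ h.sa ?_
    · intro v hv h0 h1
      rcases List.infix_cons_iff.1 hv with h2 | h2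
      · rcases List.prefix_cons_iff.1 h2 with h3 | ⟨t, h3, h4⟩
        · exact h0 h3
        · rw [List.prefix_nil.1 h4] at h3
          have h5 := h1.2
          rw [h3, Y_cons, Y_nil, ha1] at h5
          omega
      · exact h0 (List.infix_nil.1 h2)
    · intro s p hs hp hs' hp' h0
      have h1 : s = [a] := by
        rcases List.suffix_cons_iff.1 hs' with h2 | h2
        · exact h2
        · exact absurd (List.suffix_nil.1 h2) hs
      have h2 := h.pre p hp'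
      have h3 := h0.2
      rw [h1, Y_cons, Y_nil, ha1] at h3
      omega
  · intro v hv h0
    cases v with
    | nil => exact absurd rfl h0
    | cons s v =>
      obtain ⟨h1, h2⟩ := List.cons_prefix_cons.1 hv
      have h3 := h.pre v h2
      rw [h1, Y_cons, ha1]
      omega
  · intro v hv
    rcases List.suffix_cons_iff.1 hv with h1 | h1
    · have h3 := h.pre w (List.prefix_refl _)
      rw [h1, Y_cons, ha1]
      omega
    · exact h.suf v h1

lemma br_sig {w : Wd} (h : Br w) : Br (sig w) := by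
  rcases up_cases h.2.1 with rfl | ⟨a, w', ha, rfl⟩
  · exact h
  exact br_of_ti ha (ti_of ha h).dag

lemma br_tog {w : Wd} (h : Br w) : Br (tog w) := by
  rcases up_cases h.2.1 with rfl | ⟨a, w', ha, rfl⟩
  · exact h
  exact br_of_ti (fL_a ha) (ti_of ha h)

lemma ne_of_length {v w : Wd} (h : v.length = w.length) (hw : w ≠ []) : v ≠ [] := by
  intro h0
  rw [h0] at h
  exact hw (List.length_eq_zero_iff.1 h.symm)

lemma ir_tog {w : Wd} (h : Ir w) : Ir (tog w) := by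
  refine ⟨ne_of_length (tog_length w) h.ne, br_tog h.br, ?_⟩
  intro u v huv hu hv
  by_cases hu0 : u = []
  · exact Or.inl hu0
  have h1 : w = tog u ++ v := by
    rw [← tog_append hu0, ← huv, tog_tog]
  rcases h.2.2 _ _ h1 (br_tog hu) hv with h2 | h2
  · exact absurd h2 (ne_of_length (tog_length u) hu0)
  · exact Or.inr h2

/-- reversal of a product -/
lemma sig_append {v w : Wd} (hv : Up v) (hw : Up w) (hv0 : v ≠ []) (hw0 : w ≠ []) :
    sig (v ++ w) = sig w ++ sig v ∨ sig (v ++ w) = tog (sig w) ++ sig v ∨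
      sig (v ++ w) = sig w ++ tog (sig v) ∨ sig (v ++ w) = tog (sig w) ++ tog (sig v) := by
  rcases up_cases hv with rfl | ⟨a, v', ha, rfl⟩
  · exact absurd rfl hv0
  rcases up_cases hw with rfl | ⟨b, w', hb, rfl⟩
  · exact absurd rfl hw0
  have e : sig ((a :: v') ++ (b :: w')) = (a :: dag w') ++ (fL b :: dag v') := by
    show a :: dag (v' ++ b :: w') = _
    simp [dag]
  rw [e]
  rcases ha with rfl | rfl <;> rcases hb with rfl | rfl
  · right; right; left; rfl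
  · right; left; rfl
  · right; left; rfl
  · right; right; left; rfl

lemma ir_sig {w : Wd} (h : Ir w) : Ir (sig w) := by
  refine ⟨ne_of_length (sig_length w) h.ne, br_sig h.br, ?_⟩
  intro u v huv hu hv
  by_cases hu0 : u = []
  · exact Or.inl hu0
  by_cases hv0 : v = []
  · exact Or.inr hv0
  exfalso
  have hne : ∀ x : Wd, x ≠ [] → sig x ≠ [] ∧ tog (sig x) ≠ [] := fun x hx =>
    ⟨ne_of_length (sig_length x) hx, ne_of_length ((tog_length _).trans (sig_length x)) hx⟩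
  have e : w = sig (u ++ v) := by rw [← huv, sig_sig]
  rcases sig_append hu.2.1 hv.2.1 hu0 hv0 with h1 | h1 | h1 | h1 <;> rw [h1] at e
  · rcases h.2.2 _ _ e (br_sig hv) (br_sig hu) with h2 | h2
    · exact (hne v hv0).1 h2
    · exact (hne u hu0).1 h2
  · rcases h.2.2 _ _ e (br_tog (br_sig hv)) (br_sig hu) with h2 | h2
    · exact (hne v hv0).2 h2
    · exact (hne u hu0).1 h2
  · rcases h.2.2 _ _ e (br_sig hv) (br_tog (br_sig hu)) with h2 | h2
    · exact (hne v hv0).1 h2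
    · exact (hne u hu0).2 h2
  · rcases h.2.2 _ _ e (br_tog (br_sig hv)) (br_tog (br_sig hu)) with h2 | h2
    · exact (hne v hv0).2 h2
    · exact (hne u hu0).2 h2

lemma br_flatten {l : List Wd} (h : ∀ g ∈ l, Ir g) : Br l.flatten := Br.flatten fun g hg => (h g hg).br

lemma Bn_append {n m : ℕ} {v w : Wd} (hv : v ∈ Bn n) (hw : w ∈ Bn m) : v ++ w ∈ Bn (n + m) := by
  obtain ⟨l, ⟨hl, hg⟩, rfl⟩ := hv
  obtain ⟨l', ⟨hl', hg'⟩, rfl⟩ := hw
  refine ⟨l ++ l', ⟨by simp [hl, hl'], fun g h => ?_⟩, by simp⟩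
  rcases List.mem_append.1 h with h | h
  · exact hg g h
  · exact hg' g h

lemma Bn_one {w : Wd} (h : Ir w) : w ∈ Bn 1 :=
  ⟨[w], ⟨rfl, fun g hg => by rw [List.mem_singleton.1 hg]; exact h⟩, by simp⟩

lemma tog_Bn {n : ℕ} {w : Wd} (h : w ∈ Bn n) : tog w ∈ Bn n := by
  obtain ⟨l, ⟨hl, hg⟩, rfl⟩ := h
  cases l with
  | nil => exact ⟨[], ⟨hl, by simp⟩, rfl⟩
  | cons g l =>
    refine ⟨tog g :: l, ⟨hl, fun g' h' => ?_⟩, ?_⟩
    · rcases List.mem_cons.1 h' with h1 | h1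
      · rw [h1]
        exact ir_tog (hg g List.mem_cons_self)
      · exact hg g' (List.mem_cons_of_mem _ h1)
    · rw [List.flatten_cons, List.flatten_cons, tog_append (hg g List.mem_cons_self).ne]

lemma sig_Bn {n : ℕ} {w : Wd} (h : w ∈ Bn n) : sig w ∈ Bn n := by
  obtain ⟨l, ⟨hl, hg⟩, rfl⟩ := h
  induction l generalizing n with
  | nil => exact ⟨[], ⟨hl, by simp⟩, rfl⟩
  | cons g l ih =>
    have hg1 := hg g List.mem_cons_self
    have hl1 : ∀ g' ∈ l, Ir g' := fun g' hg' => hg g' (List.mem_cons_of_mem _ hg')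
    have hn : n = l.length + 1 := by
      rw [← hl]
      simp
    have h1 := ih rfl hl1
    have h2 : sig g ∈ Bn 1 := Bn_one (ir_sig hg1)
    rw [hn, List.flatten_cons]
    by_cases h0 : l.flatten = []
    · rw [h0, List.append_nil]
      have h3 : sig l.flatten = [] := by rw [h0]; rfl
      rw [h3] at h1
      have h4 := Bn_append h1 h2
      simpa using h4
    · rcases sig_append hg1.br.2.1 (br_flatten hl1).2.1 hg1.ne h0 with e | e | e | e <;> rw [e]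
      · exact Bn_append h1 h2
      · exact Bn_append (tog_Bn h1) h2
      · exact Bn_append h1 (tog_Bn h2)
      · exact Bn_append (tog_Bn h1) (tog_Bn h2)

lemma Bn_br {n : ℕ} {w : Wd} (h : w ∈ Bn n) : Br w := by
  obtain ⟨l, ⟨-, hg⟩, rfl⟩ := h
  exact br_flatten hg

/-! ### the extent to the right -/

/-- behind the first letter, the path reaches `k` to the right of the first vertex -/
def RG (k : ℕ) : Set Wd := {w | ∃ v, v <+: w.tail ∧ (k : ℤ) ≤ X v}

/-- behind the first letter, the path reaches `k` to the right of its end -/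
def RE (k : ℕ) : Set Wd := {w | ∃ v, v <:+ w.tail ∧ (k : ℤ) ≤ - X v}

/-- the first letter is `a` -/
def Fl (a : St) : Set Wd := {w | ∃ w', w = a :: w'}

lemma sig_RG {w : Wd} {k : ℕ} (h : w ∈ RG k) : sig w ∈ RE k := by
  obtain ⟨v, hv, hk⟩ := h
  cases w with
  | nil =>
    rw [List.prefix_nil.1 hv] at hk
    exact ⟨[], List.nil_suffix, by simpa using hk⟩
  | cons s w =>
    refine ⟨dag v, dag_pre hv, ?_⟩
    rw [X_dag]
    omega

lemma sig_RE {w : Wd} {k : ℕ} (h : w ∈ RE k) : sig w ∈ RG k := by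
  obtain ⟨v, hv, hk⟩ := h
  cases w with
  | nil =>
    rw [List.suffix_nil.1 hv] at hk
    exact ⟨[], List.nil_prefix, by simpa using hk⟩
  | cons s w =>
    refine ⟨dag v, dag_suf hv, ?_⟩
    rw [X_dag]
    omega

lemma mass_RE (n k : ℕ) : Ms 0 (Bn n ∩ RE k) = Ms 0 (Bn n ∩ RG k) := by
  refine Ms_invol 0 sig ?_ ?_ sig_length sig_sig
  · rintro w ⟨h1, h2⟩
    exact ⟨sig_Bn h1, sig_RE h2⟩
  · rintro w ⟨h1, h2⟩
    exact ⟨sig_Bn h1, sig_RG h2⟩

/-- sets which do not see the first letter -/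
def Tl (A : Set Wd) : Prop := ∀ w, w ∈ A → tog w ∈ A

lemma tog_tail (w : Wd) : (tog w).tail = w.tail := by
  cases w with
  | nil => rfl
  | cons s w => rfl

lemma tl_RG (k : ℕ) : Tl (RG k) := fun w ⟨v, hv, hk⟩ => ⟨v, by rwa [tog_tail], hk⟩

lemma tl_RE (k : ℕ) : Tl (RE k) := fun w ⟨v, hv, hk⟩ => ⟨v, by rwa [tog_tail], hk⟩

lemma Tl.compl {A : Set Wd} (h : Tl A) : Tl Aᶜ := fun w hw hc => hw (by
  have := h _ hc
  rwa [tog_tog] at this)

lemma Tl.inter {A B : Set Wd} (hA : Tl A) (hB : Tl B) : Tl (A ∩ B) := fun w hw => ⟨hA w hw.1, hB w hw.2⟩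

/-- the two first letters -/
lemma mass_fl (n : ℕ) {A : Set Wd} (hA : Tl A) : Ms 0 (Bn n ∩ (Fl .NW ∩ A)) = Ms 0 (Bn n ∩ (Fl .NE ∩ A)) := by
  refine Ms_invol 0 tog ?_ ?_ tog_length tog_tog
  · rintro w ⟨h1, ⟨w', rfl⟩, h3⟩
    exact ⟨tog_Bn h1, ⟨w', rfl⟩, hA _ h3⟩
  · rintro w ⟨h1, ⟨w', rfl⟩, h3⟩
    exact ⟨tog_Bn h1, ⟨w', rfl⟩, hA _ h3⟩

lemma Bn_ne {n : ℕ} (hn : n ≠ 0) {w : Wd} (h : w ∈ Bn n) : w ≠ [] := by
  obtain ⟨l, ⟨hl, hg⟩, rfl⟩ := h
  cases l with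
  | nil => exact absurd hl.symm hn
  | cons g l =>
    intro h0
    rw [List.flatten_cons] at h0
    exact (hg g List.mem_cons_self).ne (List.append_eq_nil_iff.1 h0).1

/-! ### masses of sets of bridges with `n` pieces -/

lemma pr_univ (hP : Prob) (n : ℕ) : ZB.pr P n univ = 1 := by
  induction n with
  | zero => simp [ZB.pr]
  | succ n ih =>
    show ∫⁻ g, ZB.pr P n {l | g :: l ∈ univ} ∂P = 1
    have h1 : ∀ g : Wd, {l : List Wd | g :: l ∈ (univ : Set (List Wd))} = univ := by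
      intro g
      ext
      simp
    simp only [h1, ih, lintegral_one]
    exact hP

lemma mass_Bn (hP : Prob) (hE : PrEq) (n : ℕ) : Ms 0 (Bn n) = 1 := by
  rw [← pr_univ hP n, hE n univ, univ_inter]
  rfl

/-- the probability of a set of bridges -/
noncomputable def Mr (n : ℕ) (A : Set Wd) : ℝ := (Ms 0 (Bn n ∩ A)).toReal

section

variable {n : ℕ} (h1 : Ms 0 (Bn n) = 1)

include h1

lemma fin_Ms (A : Set Wd) : Ms 0 (Bn n ∩ A) ≠ ⊤ :=
  ne_top_of_le_ne_top ENNReal.one_ne_top ((Ms_mono 0 inter_subset_left).trans h1.le)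

lemma Mr_mono {A B : Set Wd} (h : ∀ w ∈ Bn n, w ∈ A → w ∈ B) : Mr n A ≤ Mr n B :=
  ENNReal.toReal_mono (fin_Ms h1 B) (Ms_mono 0 fun w hw => ⟨hw.1, h w hw.1 hw.2⟩)

lemma Mr_compl (A : Set Wd) : Mr n Aᶜ = 1 - Mr n A := by
  have h2 := Ms_diff 0 (inter_subset_left : Bn n ∩ A ⊆ Bn n)
  rw [h1] at h2
  have e : Bn n \ (Bn n ∩ A) = Bn n ∩ Aᶜ := by
    ext w
    simp only [Set.mem_sdiff, mem_inter_iff, mem_compl_iff]
    tauto
  rw [e] at h2
  have h3 := congrArg ENNReal.toReal h2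
  rw [ENNReal.toReal_add (fin_Ms h1 A) (fin_Ms h1 _), ENNReal.toReal_one] at h3
  unfold Mr
  linarith

lemma Mr_union (A B : Set Wd) : Mr n (A ∪ B) ≤ Mr n A + Mr n B := by
  unfold Mr
  rw [← ENNReal.toReal_add (fin_Ms h1 A) (fin_Ms h1 B), inter_union_distrib_left]
  exact ENNReal.toReal_mono (ENNReal.add_ne_top.2 ⟨fin_Ms h1 A, fin_Ms h1 B⟩) (Ms_union_le 0 _ _)

lemma Mr_inter (A B : Set Wd) : Mr n A + Mr n B - 1 ≤ Mr n (A ∩ B) := by
  have h2 := Mr_union h1 Aᶜ Bᶜ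
  rw [Mr_compl h1 A, Mr_compl h1 B, ← compl_inter, Mr_compl h1] at h2
  linarith

/-- the first letter is free -/
lemma Mr_fl (hn : n ≠ 0) {A : Set Wd} (hA : Tl A) {a : St} (ha : a = .NE ∨ a = .NW) :
    Mr n (Fl a ∩ A) = Mr n A / 2 := by
  have e : Mr n (Fl .NW ∩ A) = Mr n (Fl .NE ∩ A) := congrArg ENNReal.toReal (mass_fl n hA)
  have h2 : Mr n A = Mr n (Fl .NE ∩ A) + Mr n (Fl .NW ∩ A) := by
    unfold Mr
    rw [← ENNReal.toReal_add (fin_Ms h1 _) (fin_Ms h1 _), ← Ms_union 0]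
    · congr 2
      ext w
      constructor
      · rintro ⟨h3, h4⟩
        rcases up_cases (Bn_br h3).2.1 with h5 | ⟨b, w', hb, h5⟩
        · exact absurd h5 (Bn_ne hn h3)
        · rcases hb with rfl | rfl
          · exact Or.inl ⟨h3, ⟨w', h5⟩, h4⟩
          · exact Or.inr ⟨h3, ⟨w', h5⟩, h4⟩
      · rintro (⟨h3, -, h4⟩ | ⟨h3, -, h4⟩) <;> exact ⟨h3, h4⟩
    · rw [Set.disjoint_left]
      rintro w ⟨-, ⟨w1, e1⟩, -⟩ ⟨-, ⟨w2, e2⟩, -⟩
      rw [e1] at e2
      have := (List.cons.inj e2).1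
      cases this
  rcases ha with rfl | rfl <;> linarith

/-- the quantile -/
lemma exists_q : ∃ q : ℕ, 3 / 4 ≤ Mr n (RG q) ∧ Mr n (RG (q + 1)) < 3 / 4 := by
  classical
  have hex : ∃ k, Mr n (RG k) < 3 / 4 := by
    obtain ⟨f, hf⟩ : ∃ f : Wd → ℝ≥0∞, f = (Bn n).indicator (wt 0) := ⟨_, rfl⟩
    have hs : ∑' w, f w ≠ ⊤ := by
      rw [hf]
      show Ms 0 (Bn n) ≠ ⊤
      rw [h1]
      exact ENNReal.one_ne_top
    have h2 := ENNReal.tendsto_tsum_compl_atTop_zero hs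
    obtain ⟨s, hs2⟩ := (h2.eventually (gt_mem_nhds (show (0 : ℝ≥0∞) < ENNReal.ofReal (3 / 4) by
      rw [ENNReal.ofReal_pos]; norm_num))).exists
    refine ⟨2 * s.sup List.length + 1, ?_⟩
    have h3 : Ms 0 (Bn n ∩ RG (2 * s.sup List.length + 1)) ≤ ∑' b : {x // x ∉ s}, f b := by
      rw [Ms_eq_tsum_subtype]
      have hmem : ∀ w : Wd, w ∈ Bn n ∩ RG (2 * s.sup List.length + 1) → w ∉ s := by
        rintro w ⟨-, v, hv, hk⟩ hws
        have h4 : w.length ≤ s.sup List.length := Finset.le_sup (f := List.length) hws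
        have h5 := X_le v
        have h6 := hv.length_le
        rw [List.length_tail] at h6
        push_cast at hk
        omega
      have h7 : ∀ w : (Bn n ∩ RG (2 * s.sup List.length + 1) : Set Wd),
          wt 0 w.1 = (fun b : {x // x ∉ s} => f b.1) ⟨w.1, hmem w.1 w.2⟩ := by
        intro w
        rw [hf]
        simp only
        rw [indicator_of_mem w.2.1]
      rw [tsum_congr h7]
      exact ENNReal.tsum_comp_le_tsum_of_injective
        (f := fun w : (Bn n ∩ RG (2 * s.sup List.length + 1) : Set Wd) => (⟨w.1, hmem w.1 w.2⟩ : {x // x ∉ s}))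
        (fun v w h => Subtype.ext (congrArg (fun z : {x // x ∉ s} => z.1) h)) _
    have h4 := lt_of_le_of_lt h3 hs2
    have h5 := (ENNReal.toReal_lt_toReal (fin_Ms h1 _) ENNReal.ofReal_ne_top).2 h4
    rwa [ENNReal.toReal_ofReal (by norm_num)] at h5
  have h0 : Mr n (RG 0) = 1 := by
    have e : Bn n ∩ RG 0 = Bn n := by
      refine inter_eq_left.2 fun w _ => ⟨[], List.nil_prefix, by simp⟩
    unfold Mr
    rw [e, h1, ENNReal.toReal_one]
  have hk := Nat.find_spec hex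
  have hk0 : Nat.find hex ≠ 0 := by
    intro hc
    rw [hc, h0] at hk
    norm_num at hk
  refine ⟨Nat.find hex - 1, ?_, ?_⟩
  · exact not_lt.1 (Nat.find_min hex (m := Nat.find hex - 1) (by omega))
  · rw [show Nat.find hex - 1 + 1 = Nat.find hex by omega]
    exact hk

end

/-! ### good lists of pieces -/

lemma sm_Hf (l : List Wd) : ZB.sm Hf l = (Y l.flatten : ℝ) := by
  induction l with
  | nil => simp [ZB.sm]
  | cons g l ih =>
    unfold ZB.sm at ih ⊢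
    rw [List.map_cons, List.sum_cons, ih, List.flatten_cons, Y_append]
    push_cast
    rfl

lemma sm_Df (l : List Wd) : ZB.sm Df l = (X l.flatten : ℝ) / 2 := by
  induction l with
  | nil => simp [ZB.sm]
  | cons g l ih =>
    unfold ZB.sm at ih ⊢
    rw [List.map_cons, List.sum_cons, ih, List.flatten_cons, X_append]
    unfold Df
    push_cast
    ring

lemma prefix_flatten (l : List Wd) : ∀ p, p <+: l.flatten →
    p = [] ∨ ∃ l1 g v, (l1 ++ [g]) <+: l ∧ v <+: g ∧ p = l1.flatten ++ v := by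
  induction l with
  | nil => exact fun p hp => Or.inl (List.prefix_nil.1 hp)
  | cons g l ih =>
    intro p hp
    rw [List.flatten_cons] at hp
    rcases prefix_append_cases hp with h1 | ⟨y, hy, hy2, rfl⟩
    · exact Or.inr ⟨[], g, p, ⟨l, rfl⟩, h1, rfl⟩
    · rcases ih y hy2 with h2 | ⟨l1, g', v, h3, h4, rfl⟩
      · exact absurd h2 hy
      · refine Or.inr ⟨g :: l1, g', v, ?_, h4, by simp⟩
        rw [List.cons_append]
        exact List.cons_prefix_cons.2 ⟨rfl, h3⟩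

/-- the facts of a good bridge -/
structure Gd (eta t : ℝ) (w : Wd) : Prop where
  br : Br w
  lo : t / 10 ≤ (Y w : ℝ)
  hi : (Y w : ℝ) ≤ 100 * t
  bd : ∀ p, p <+: w → |(X p : ℝ)| ≤ 2 * (eta * t)
  mo : ∀ v, v <:+: w → -(eta * t) ≤ (Y v : ℝ)

/-- pieces which are low: nearly monotone -/
lemma mono_of {c : ℝ} (hc : 0 ≤ c) {l : List Wd} (hl : ∀ g ∈ l, Ir g) (h : ∀ g ∈ l, (Y g : ℝ) ≤ c) :
    ∀ v, v <:+: l.flatten → -c ≤ (Y v : ℝ) := by
  induction l with
  | nil =>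
    intro v hv
    rw [List.infix_nil.1 hv]
    simpa using hc
  | cons g l ih =>
    intro v hv
    have hg := (hl g List.mem_cons_self).br
    have hl1 : ∀ g' ∈ l, Ir g' := fun g' hg' => hl g' (List.mem_cons_of_mem _ hg')
    rw [List.flatten_cons] at hv
    rcases List.infix_append_iff_ne_nil.1 hv with h1 | h1 | ⟨s, p, hs, hp, rfl, h3, h4⟩
    · obtain ⟨p, r, hpr⟩ := h1
      have h2 := hg.2.1.nonneg (v := p ++ v) ⟨r, hpr⟩
      have h3 := hg.2.2.le (v := p) ⟨v ++ r, by rw [← hpr]; simp⟩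
      have h4 := h g List.mem_cons_self
      rw [Y_append] at h2
      have h5 : (0 : ℝ) ≤ (Y p : ℝ) + Y v := by exact_mod_cast h2
      have h6 : (Y p : ℝ) ≤ Y g := by exact_mod_cast h3
      linarith
    · exact ih hl1 (fun g' hg' => h g' (List.mem_cons_of_mem _ hg')) v h1
    · have h5 := hg.2.2 s h3
      have h6 := (br_flatten hl1).2.1.nonneg h4
      rw [Y_append]
      have h7 : (0 : ℝ) ≤ ((Y s + Y p : ℤ) : ℝ) := by exact_mod_cast add_nonneg h5 h6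
      linarith

lemma gd_of {eta t : ℝ} (he : 0 < eta) (ht : 0 < t) {l : List Wd} (hl : ∀ g ∈ l, Ir g)
    (h : l ∈ ZB.GoodT2 Hf Wf Df eta t) : Gd eta t l.flatten := by
  obtain ⟨⟨h1, h2, h3⟩, h8⟩ := h
  rw [sm_Hf] at h1 h2
  refine ⟨br_flatten hl, h1, h2, fun p hp => ?_, mono_of (by positivity) hl h8⟩
  rcases prefix_flatten l p hp with rfl | ⟨l1, g, v, h4, h5, rfl⟩
  · simp
    positivity
  · have h6 := h3 l1 g h4
    rw [sm_Df, abs_div, abs_two] at h6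
    have h7 := abs_le_wid h5.isInfix
    have h8 : |(X v : ℝ)| ≤ 2 * Wf g := by
      unfold Wf
      rw [mul_div_cancel₀ _ (by norm_num : (2 : ℝ) ≠ 0)]
      exact_mod_cast h7
    rw [X_append]
    push_cast
    exact (abs_add_le _ _).trans (by linarith)

/-- good bridges with `n` pieces -/
def GS (eta t : ℝ) (n : ℕ) : Set Wd := List.flatten '' (ZB.GoodT2 Hf Wf Df eta t ∩ IL n)

lemma mass_GS (hE : PrEq) {n : ℕ} (h1 : Ms 0 (Bn n) = 1) {eta t : ℝ}
    (h : ZB.pr P n (ZB.GoodT2 Hf Wf Df eta t)ᶜ ≤ ENNReal.ofReal 0.001) : 0.999 ≤ Mr n (GS eta t n) := by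
  have h2 : Mr n (GS eta t n)ᶜ ≤ 0.001 := by
    refine ENNReal.toReal_le_of_le_ofReal (by norm_num) (le_trans (Ms_mono 0 ?_) ((hE n _).symm.le.trans h))
    rintro w ⟨⟨l, hl, rfl⟩, hw⟩
    exact ⟨l, ⟨fun hc => hw ⟨l, ⟨hc, hl⟩, rfl⟩, hl⟩, rfl⟩
  rw [Mr_compl h1] at h2
  linarith

/-! ### the cut at the rightmost point -/

lemma exists_cut (w : Wd) : ∃ b1 b2, w = b1 ++ b2 ∧ ∀ p, p <+: w → X p ≤ X b1 := by
  obtain ⟨i, -, hi⟩ := Finset.exists_max_image (Finset.range (w.length + 1)) (fun i => X (w.take i)) ⟨0, by simp⟩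
  refine ⟨w.take i, w.drop i, (List.take_append_drop i w).symm, fun p hp => ?_⟩
  have h1 : p = w.take p.length := List.prefix_iff_eq_take.1 hp
  have h2 := hi p.length (by
    rw [Finset.mem_range]
    have := hp.length_le
    omega)
  rw [h1]
  exact h2

section

variable {eta t : ℝ} {A B C b1 b2 : Wd} {q : ℕ}

/-- bounds for the three bridges together -/
lemma tri (he : 0 < eta) (ht : 0 < t) (hA : Gd eta t A) (hB : Gd eta t B) (hC : Gd eta t C) {v : Wd}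
    (hv : v <:+: A ++ (B ++ C)) : |(X v : ℝ)| ≤ 12 * eta * t ∧ |(Y v : ℝ)| ≤ 300 * t ∧ -(eta * t) ≤ (Y v : ℝ) := by
  have hbr : Br (A ++ (B ++ C)) := hA.br.append (hB.br.append hC.br)
  have het : 0 < eta * t := by positivity
  have hX : ∀ p, p <+: A ++ (B ++ C) → |(X p : ℝ)| ≤ 6 * (eta * t) := by
    intro p hp
    rcases prefix_append_cases hp with h1 | ⟨y, hy, hy2, rfl⟩
    · have := hA.bd p h1
      linarith
    · have h2 := hA.bd A (List.prefix_refl _)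
      rcases prefix_append_cases hy2 with h1 | ⟨z, hz, hz2, rfl⟩
      · have h3 := hB.bd y h1
        rw [X_append]
        push_cast
        exact (abs_add_le _ _).trans (by linarith)
      · have h3 := hB.bd B (List.prefix_refl _)
        have h4 := hC.bd z hz2
        rw [X_append, X_append]
        push_cast
        refine (abs_add_le _ _).trans ?_
        have := abs_add_le (X B : ℝ) (X z : ℝ)
        linarith
  have hYt : (Y (A ++ (B ++ C)) : ℝ) ≤ 300 * t := by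
    rw [Y_append, Y_append]
    push_cast
    have h1 := hA.hi
    have h2 := hB.hi
    have h3 := hC.hi
    linarith
  have hY : ∀ p, p <+: A ++ (B ++ C) → 0 ≤ (Y p : ℝ) ∧ (Y p : ℝ) ≤ 300 * t := by
    intro p hp
    refine ⟨by exact_mod_cast hbr.2.1.nonneg hp, ?_⟩
    refine le_trans ?_ hYt
    exact_mod_cast hbr.2.2.le hp
  have hmo : -(eta * t) ≤ (Y v : ℝ) := by
    rcases List.infix_append_iff_ne_nil.1 hv with h1 | h1 | ⟨s, p, hs, hp, rfl, h3, h4⟩
    · exact hA.mo v h1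
    · rcases List.infix_append_iff_ne_nil.1 h1 with h1 | h1 | ⟨s, p, hs, hp, rfl, h3, h4⟩
      · exact hB.mo v h1
      · exact hC.mo v h1
      · have h5 := hB.br.2.2 s h3
        have h6 := hC.br.2.1.nonneg h4
        rw [Y_append]
        have h7 : (0 : ℝ) ≤ ((Y s + Y p : ℤ) : ℝ) := by exact_mod_cast add_nonneg h5 h6
        linarith
    · have h5 := hA.br.2.2 s h3
      have h6 := (hB.br.append hC.br).2.1.nonneg h4
      rw [Y_append]
      have h7 : (0 : ℝ) ≤ ((Y s + Y p : ℤ) : ℝ) := by exact_mod_cast add_nonneg h5 h6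
      linarith
  obtain ⟨s, r, hsr⟩ := hv
  have hs : s <+: A ++ (B ++ C) := ⟨v ++ r, by rw [← hsr]; simp⟩
  have hsv : s ++ v <+: A ++ (B ++ C) := ⟨r, hsr⟩
  have x1 := abs_le.1 (hX s hs)
  have x2 := abs_le.1 (hX _ hsv)
  have y1 := hY s hs
  have y2 := hY _ hsv
  rw [X_append] at x2
  rw [Y_append] at y2
  push_cast at x2 y2
  refine ⟨?_, ?_, hmo⟩
  · rw [abs_le]
    constructor <;> linarith
  · rw [abs_le]
    constructor <;> linarith

/-- the first half -/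
lemma half1 (he : 0 < eta) (ht : 0 < t) (hA : Gd eta t A) (hB : Gd eta t B) (hC : Gd eta t C) (hb : B = b1 ++ b2)
    (hm : ∀ p, p <+: B → X p ≤ X b1) (hA1 : A ∈ Fl .NE) (hB1 : B ∈ Fl .NE) (hq1 : A ∉ RE (q + 1)) (hq2 : B ∈ RG q) :
    A ++ b1 ∈ FS eta t := by
  have hbr : Br (A ++ (B ++ C)) := hA.br.append (hB.br.append hC.br)
  have hpre : A ++ b1 <+: A ++ (B ++ C) := ⟨b2 ++ C, by rw [hb]; simp⟩
  have hXb : (q : ℤ) ≤ X b1 := by
    obtain ⟨v, hv, hk⟩ := hq2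
    obtain ⟨B', hB'⟩ := hB1
    rw [hB'] at hv
    have h1 := hm (.NE :: v) (by
      rw [hB']
      exact List.cons_prefix_cons.2 ⟨rfl, hv⟩)
    rw [X_cons] at h1
    have h2 : dx .NE = 1 := rfl
    omega
  have hXA : ∀ y, y <:+ A → - X y ≤ q := by
    intro y hy
    obtain ⟨A', hA'⟩ := hA1
    have h3 : ∀ z, z <:+ A' → - X z ≤ q := by
      intro z hz
      by_contra hc
      exact hq1 ⟨z, by rw [hA']; exact hz, by push_cast; omega⟩
    rw [hA'] at hy
    rcases List.suffix_cons_iff.1 hy with h1 | h1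
    · have h4 := h3 A' (List.suffix_refl _)
      have h2 : dx .NE = 1 := rfl
      rw [h1, X_cons]
      omega
    · exact h3 y h1
  have hYb : 0 ≤ Y b1 := hB.br.2.1.nonneg ⟨b2, hb.symm⟩
  refine ⟨hbr.1.ifx hpre.isInfix, fun v hv => hbr.2.1.nonneg (hv.trans hpre), fun v hv => ?_, ?_, fun v hv => ?_⟩
  · rcases suffix_append_cases hv with h1 | ⟨y, hy, hy2, rfl⟩
    · obtain ⟨p, hp⟩ := h1
      have h2 := hm p ⟨v ++ b2, by rw [hb, ← hp]; simp⟩
      have h3 := congrArg X hp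
      rw [X_append] at h3
      omega
    · have h2 := hXA y hy2
      rw [X_append]
      omega
  · rw [Y_append]
    push_cast
    have h1 := hA.lo
    have h2 : (0 : ℝ) ≤ Y b1 := by exact_mod_cast hYb
    linarith
  · exact tri he ht hA hB hC (hv.trans hpre.isInfix)

/-- the second half -/
lemma half2 (he : 0 < eta) (ht : 0 < t) (hA : Gd eta t A) (hB : Gd eta t B) (hC : Gd eta t C) (hb : B = b1 ++ b2)
    (hm : ∀ p, p <+: B → X p ≤ X b1) (hC1 : C ∈ Fl .NW) (hq1 : C ∉ RG (q + 1)) (hq2 : B ∈ RE q) :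
    dag (b2 ++ C) ∈ FS eta t := by
  have hbr : Br (A ++ (B ++ C)) := hA.br.append (hB.br.append hC.br)
  have hsuf : b2 ++ C <:+ A ++ (B ++ C) := ⟨A ++ b1, by rw [hb]; simp⟩
  have hXb : (q : ℤ) ≤ - X b2 := by
    obtain ⟨v, hv, hk⟩ := hq2
    obtain ⟨p, hp⟩ := hv.trans (List.tail_suffix B)
    have h1 := hm p ⟨v, hp⟩
    have h2 := congrArg X hp
    have h3 := congrArg X hb
    rw [X_append] at h2 h3
    omega
  have hXC : ∀ y, y <+: C → X y ≤ q := by
    intro y hy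
    obtain ⟨C', hC'⟩ := hC1
    rw [hC'] at hy
    cases y with
    | nil => simp
    | cons s y =>
      obtain ⟨h1, h2⟩ := List.cons_prefix_cons.1 hy
      have h3 : X y ≤ q := by
        by_contra hc
        exact hq1 ⟨y, by rw [hC']; exact h2, by push_cast; omega⟩
      have h4 : dx .NW = -1 := rfl
      rw [h1, X_cons]
      omega
  have hYb : 0 ≤ Y b2 := hB.br.2.2 b2 ⟨b1, hb.symm⟩
  refine ⟨SA_dag.2 (hbr.1.ifx hsuf.isInfix), fun v hv => ?_, fun v hv => ?_, ?_, fun v hv => ?_⟩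
  · obtain ⟨s, hs, rfl⟩ := of_dag_pre hv
    rw [Y_dag]
    exact hbr.2.2 s (hs.trans hsuf)
  · obtain ⟨s, hs, rfl⟩ := of_dag_suf hv
    rw [X_dag]
    rcases prefix_append_cases hs with h1 | ⟨y, hy, hy2, rfl⟩
    · obtain ⟨r, hr⟩ := h1
      have h2 := hm (b1 ++ s) ⟨r, by rw [hb, ← hr]; simp⟩
      rw [X_append] at h2
      omega
    · have h2 := hXC y hy2
      rw [X_append]
      omega
  · rw [Y_dag, Y_append]
    push_cast
    have h1 := hC.lo
    have h2 : (0 : ℝ) ≤ Y b2 := by exact_mod_cast hYb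
    linarith
  · obtain ⟨s, hs, rfl⟩ := of_dag_inf hv
    have h1 := tri he ht hA hB hC (hs.trans hsuf.isInfix)
    rw [X_dag, Y_dag]
    push_cast
    rwa [abs_neg]

end

/-! ### the product -/

lemma decode (hU : Uniq) {n : ℕ} {A B C A' B' C' : Wd} (hA : A ∈ Bn n) (hB : B ∈ Bn n) (hC : C ∈ Bn n)
    (hA' : A' ∈ Bn n) (hB' : B' ∈ Bn n) (hC' : C' ∈ Bn n) (h : A ++ (B ++ C) = A' ++ (B' ++ C')) :
    A = A' ∧ B = B' ∧ C = C' := by
  obtain ⟨a, ⟨ha, ha2⟩, rfl⟩ := hA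
  obtain ⟨b, ⟨hb, hb2⟩, rfl⟩ := hB
  obtain ⟨c, ⟨hc, hc2⟩, rfl⟩ := hC
  obtain ⟨a', ⟨ha', ha2'⟩, rfl⟩ := hA'
  obtain ⟨b', ⟨hb', hb2'⟩, rfl⟩ := hB'
  obtain ⟨c', ⟨hc', hc2'⟩, rfl⟩ := hC'
  have h1 : (a ++ (b ++ c)).flatten = (a' ++ (b' ++ c')).flatten := by simpa using h
  have h2 := hU (n + (n + n)) (n + (n + n)) (a ++ (b ++ c)) ⟨by simp [ha, hb, hc], fun g hg => by
    rcases List.mem_append.1 hg with h | h
    · exact ha2 g h
    rcases List.mem_append.1 h with h | h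
    · exact hb2 g h
    · exact hc2 g h⟩ (a' ++ (b' ++ c')) ⟨by simp [ha', hb', hc'], fun g hg => by
    rcases List.mem_append.1 hg with h | h
    · exact ha2' g h
    rcases List.mem_append.1 h with h | h
    · exact hb2' g h
    · exact hc2' g h⟩ h1
  obtain ⟨h3, h4⟩ := List.append_inj h2 (ha.trans ha'.symm)
  obtain ⟨h5, h6⟩ := List.append_inj h4 (hb.trans hb'.symm)
  rw [h3, h5, h6]
  exact ⟨rfl, rfl, rfl⟩

lemma prod_le (hU : Uniq) {n q : ℕ} {eta t : ℝ} (he : 0 < eta) (ht : 0 < t) :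
    Ms 0 (Bn n ∩ (GS eta t n ∩ (Fl .NE ∩ (RE (q + 1))ᶜ))) * (Ms 0 (Bn n ∩ (GS eta t n ∩ (Fl .NE ∩ (RG q ∩ RE q)))) *
      Ms 0 (Bn n ∩ (GS eta t n ∩ (Fl .NW ∩ (RG (q + 1))ᶜ)))) ≤ Ms 0 (FS eta t) * Ms 0 (FS eta t) := by
  obtain ⟨SA', hSA⟩ : ∃ S, S = Bn n ∩ (GS eta t n ∩ (Fl .NE ∩ (RE (q + 1))ᶜ)) := ⟨_, rfl⟩
  obtain ⟨SB, hSB⟩ : ∃ S, S = Bn n ∩ (GS eta t n ∩ (Fl .NE ∩ (RG q ∩ RE q))) := ⟨_, rfl⟩
  obtain ⟨SC, hSC⟩ : ∃ S, S = Bn n ∩ (GS eta t n ∩ (Fl .NW ∩ (RG (q + 1))ᶜ)) := ⟨_, rfl⟩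
  rw [← hSA, ← hSB, ← hSC]
  have gd : ∀ w ∈ GS eta t n, Gd eta t w := by
    rintro w ⟨l, ⟨h1, h2⟩, rfl⟩
    exact gd_of he ht h2.2 h1
  have kA : ∀ w ∈ SA', w ∈ Bn n := fun w hw => by rw [hSA] at hw; exact hw.1
  have kB : ∀ w ∈ SB, w ∈ Bn n := fun w hw => by rw [hSB] at hw; exact hw.1
  have kC : ∀ w ∈ SC, w ∈ Bn n := fun w hw => by rw [hSC] at hw; exact hw.1
  choose b1 b2 hb hm using exists_cut
  have f1 : ∀ A ∈ SA', ∀ B ∈ SB, ∀ C ∈ SC, A ++ b1 B ∈ FS eta t := by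
    intro A hA B hB C hC
    rw [hSA] at hA
    rw [hSB] at hB
    rw [hSC] at hC
    exact half1 he ht (gd A hA.2.1) (gd B hB.2.1) (gd C hC.2.1) (hb B) (hm B) hA.2.2.1 hB.2.2.1 hA.2.2.2 hB.2.2.2.1
  have f2 : ∀ A ∈ SA', ∀ B ∈ SB, ∀ C ∈ SC, dag (b2 B ++ C) ∈ FS eta t := by
    intro A hA B hB C hC
    rw [hSA] at hA
    rw [hSB] at hB
    rw [hSC] at hC
    exact half2 he ht (gd A hA.2.1) (gd B hB.2.1) (gd C hC.2.1) (hb B) (hm B) hC.2.2.1 hC.2.2.2 hB.2.2.2.2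
  rw [Ms_mul 0 (FS eta t), Ms_mul 0 SB, Ms_eq_tsum_subtype 0 SA', ← ENNReal.tsum_mul_right]
  have e1 : ∀ a : SA', wt 0 a.1 * ∑' p : SB × SC, wt 0 (p.1.1 ++ p.2.1) =
      ∑' p : SB × SC, wt 0 (a.1 ++ (p.1.1 ++ p.2.1)) := by
    intro a
    rw [← ENNReal.tsum_mul_left]
    exact tsum_congr fun p => (wt_append 0 _ _).symm
  rw [tsum_congr e1, ← ENNReal.tsum_prod (f := fun (a : SA') (p : SB × SC) => wt 0 (a.1 ++ (p.1.1 ++ p.2.1)))]
  have e2 : ∀ x : SA' × (SB × SC), wt 0 (x.1.1 ++ (x.2.1.1 ++ x.2.2.1)) =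
      (fun y : FS eta t × FS eta t => wt 0 (y.1.1 ++ y.2.1))
        (⟨x.1.1 ++ b1 x.2.1.1, f1 _ x.1.2 _ x.2.1.2 _ x.2.2.2⟩, ⟨dag (b2 x.2.1.1 ++ x.2.2.1), f2 _ x.1.2 _ x.2.1.2 _ x.2.2.2⟩) := by
    intro x
    refine wt_congr 0 ?_
    have h1 := congrArg List.length (hb x.2.1.1)
    simp only [List.length_append, dag_length] at h1 ⊢
    omega
  rw [tsum_congr e2]
  refine ENNReal.tsum_comp_le_tsum_of_injective (f := fun x : SA' × (SB × SC) =>
    ((⟨x.1.1 ++ b1 x.2.1.1, f1 _ x.1.2 _ x.2.1.2 _ x.2.2.2⟩ : FS eta t),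
      (⟨dag (b2 x.2.1.1 ++ x.2.2.1), f2 _ x.1.2 _ x.2.1.2 _ x.2.2.2⟩ : FS eta t))) (fun x y h => ?_) _
  have h1 : x.1.1 ++ b1 x.2.1.1 = y.1.1 ++ b1 y.2.1.1 := congrArg (fun z => z.1.1) h
  have h2 : dag (b2 x.2.1.1 ++ x.2.2.1) = dag (b2 y.2.1.1 ++ y.2.2.1) := congrArg (fun z => z.2.1) h
  have h3 : b2 x.2.1.1 ++ x.2.2.1 = b2 y.2.1.1 ++ y.2.2.1 := by
    rw [← dag_dag (b2 x.2.1.1 ++ x.2.2.1), h2, dag_dag]
  have h4 : x.1.1 ++ (x.2.1.1 ++ x.2.2.1) = y.1.1 ++ (y.2.1.1 ++ y.2.2.1) := by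
    have e3 : x.1.1 ++ (x.2.1.1 ++ x.2.2.1) = (x.1.1 ++ b1 x.2.1.1) ++ (b2 x.2.1.1 ++ x.2.2.1) := by
      conv_lhs => rw [hb x.2.1.1]
      simp
    have e4 : y.1.1 ++ (y.2.1.1 ++ y.2.2.1) = (y.1.1 ++ b1 y.2.1.1) ++ (b2 y.2.1.1 ++ y.2.2.1) := by
      conv_lhs => rw [hb y.2.1.1]
      simp
    rw [e3, e4, h1, h3]
  obtain ⟨d1, d2, d3⟩ := decode hU (kA _ x.1.2) (kB _ x.2.1.2) (kC _ x.2.2.2) (kA _ y.1.2) (kB _ y.2.1.2) (kC _ y.2.2.2) h4
  exact Prod.ext (Subtype.ext d1) (Prod.ext (Subtype.ext d2) (Subtype.ext d3))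

end MF

open MF in
/-- **row D1** -/
theorem massF_of (hP : Prob) (hE : PrEq) (hU : Uniq) : MassF := by
  intro eta t n he ht h
  have h1 := mass_Bn hP hE n
  obtain ⟨q, hq1, hq2⟩ := exists_q h1
  have hG := mass_GS hE h1 h
  have hn : n ≠ 0 := by
    rintro rfl
    have e : Bn 0 ∩ GS eta t 0 = ∅ := by
      rw [Set.eq_empty_iff_forall_notMem]
      rintro w ⟨-, l, ⟨h2, h3, -⟩, rfl⟩
      rw [List.length_eq_zero_iff.1 h3] at h2
      have h4 := h2.1.1
      rw [sm_Hf] at h4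
      simp at h4
      linarith
    unfold Mr at hG
    rw [e, Ms_empty, ENNReal.toReal_zero] at hG
    norm_num at hG
  have r1 : Mr n (RE (q + 1)) < 3 / 4 := by
    unfold Mr
    rw [mass_RE]
    exact hq2
  have r2 : 3 / 4 ≤ Mr n (RE q) := by
    unfold Mr
    rw [mass_RE]
    exact hq1
  have a1 : 0.124 ≤ Mr n (GS eta t n ∩ (Fl .NE ∩ (RE (q + 1))ᶜ)) := by
    have h2 := Mr_inter h1 (GS eta t n) (Fl .NE ∩ (RE (q + 1))ᶜ)
    rw [Mr_fl h1 hn (tl_RE _).compl (Or.inl rfl), Mr_compl h1] at h2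
    linarith
  have a2 : 0.249 ≤ Mr n (GS eta t n ∩ (Fl .NE ∩ (RG q ∩ RE q))) := by
    have h2 := Mr_inter h1 (GS eta t n) (Fl .NE ∩ (RG q ∩ RE q))
    have h3 := Mr_inter h1 (RG q) (RE q)
    rw [Mr_fl h1 hn ((tl_RG _).inter (tl_RE _)) (Or.inl rfl)] at h2
    linarith
  have a3 : 0.124 ≤ Mr n (GS eta t n ∩ (Fl .NW ∩ (RG (q + 1))ᶜ)) := by
    have h2 := Mr_inter h1 (GS eta t n) (Fl .NW ∩ (RG (q + 1))ᶜ)
    rw [Mr_fl h1 hn (tl_RG _).compl (Or.inr rfl), Mr_compl h1] at h2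
    linarith
  by_contra hcon
  rw [not_le] at hcon
  have hfin : Ms 0 (FS eta t) ≠ ⊤ := ne_top_of_lt hcon
  have hlt : (Ms 0 (FS eta t)).toReal < 1 / 40 := by
    have := (ENNReal.toReal_lt_toReal hfin ENNReal.ofReal_ne_top).2 hcon
    rwa [ENNReal.toReal_ofReal (by norm_num)] at this
  have h5 := ENNReal.toReal_mono (ENNReal.mul_ne_top hfin hfin) (prod_le hU (n := n) (q := q) he ht)
  rw [ENNReal.toReal_mul, ENNReal.toReal_mul, ENNReal.toReal_mul] at h5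
  have h6 : Mr n (GS eta t n ∩ (Fl .NE ∩ (RE (q + 1))ᶜ)) * (Mr n (GS eta t n ∩ (Fl .NE ∩ (RG q ∩ RE q))) *
      Mr n (GS eta t n ∩ (Fl .NW ∩ (RG (q + 1))ᶜ))) ≤ (Ms 0 (FS eta t)).toReal * (Ms 0 (FS eta t)).toReal := h5
  have h7 : (0.124 : ℝ) * (0.249 * 0.124) ≤ Mr n (GS eta t n ∩ (Fl .NE ∩ (RE (q + 1))ᶜ)) *
      (Mr n (GS eta t n ∩ (Fl .NE ∩ (RG q ∩ RE q))) * Mr n (GS eta t n ∩ (Fl .NW ∩ (RG (q + 1))ᶜ))) := by
    refine mul_le_mul a1 (mul_le_mul a2 a3 (by norm_num) ((by norm_num : (0 : ℝ) ≤ 0.249).trans a2)) (by norm_num)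
      ((by norm_num : (0 : ℝ) ≤ 0.124).trans a1)
  have h8 : (0 : ℝ) ≤ (Ms 0 (FS eta t)).toReal := ENNReal.toReal_nonneg
  nlinarith

end ZT
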