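import Pool.Agent.ZT.Basic
import Pool.Agent.ZB.MassL

/-!
# ZT, row D1a (helper73): the U-turn. Two corner pieces `f`, `g` (start lowest, end rightmost), `g` mirrored and reversed,
are joined by a step to the right; the U-turn is cut at its maximum of `X + Y`: both halves are corner pieces of type a.
-/

open MeasureTheory Set Filter
open scoped ENNReal Topology

namespace ZT

namespace UT

/-! ### the reversed path -/

/-- the opposite step -/
def ng (s : St) : St := fU (fL s)

/-- the reversed path -/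
def rv (w : Wd) : Wd := w.reverse.map ng

/-- the mirror image of the reversed path -/
def mir (w : Wd) : Wd := w.reverse.map fU

@[simp] lemma ng_ng (s : St) : ng (ng s) = s := by cases s <;> rfl

@[simp] lemma rv_rv (w : Wd) : rv (rv w) = w := by
  unfold rv
  rw [List.map_reverse, List.map_map, List.map_reverse, List.reverse_reverse]
  simp [Function.comp_def]

@[simp] lemma mir_mir (w : Wd) : mir (mir w) = w := by
  unfold mir
  rw [List.map_reverse, List.map_map, List.map_reverse, List.reverse_reverse]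
  simp [Function.comp_def]

@[simp] lemma rv_append (v w : Wd) : rv (v ++ w) = rv w ++ rv v := by simp [rv]
@[simp] lemma mir_append (v w : Wd) : mir (v ++ w) = mir w ++ mir v := by simp [mir]
@[simp] lemma rv_length (w : Wd) : (rv w).length = w.length := by simp [rv]
@[simp] lemma mir_length (w : Wd) : (mir w).length = w.length := by simp [mir]

@[simp] lemma X_rv (w : Wd) : X (rv w) = - X w := by
  have : rv w = (w.reverse.map fL).map fU := by
    unfold rv
    rw [List.map_map]
    rfl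
  rw [this, X_fU, X_fL, X_reverse]
@[simp] lemma Y_rv (w : Wd) : Y (rv w) = - Y w := by
  have : rv w = (w.reverse.map fL).map fU := by
    unfold rv
    rw [List.map_map]
    rfl
  rw [this, Y_fU, Y_fL, Y_reverse]
@[simp] lemma X_mir (w : Wd) : X (mir w) = X w := by
  unfold mir
  rw [X_fU, X_reverse]
@[simp] lemma Y_mir (w : Wd) : Y (mir w) = - Y w := by
  unfold mir
  rw [Y_fU, Y_reverse]

lemma SA_rv {w : Wd} : SA (rv w) ↔ SA w := by
  have : rv w = (w.reverse.map fL).map fU := by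
    unfold rv
    rw [List.map_map]
    rfl
  rw [this, SA_fU, SA_fL, SA_reverse]
lemma SA_mir {w : Wd} : SA (mir w) ↔ SA w := by
  unfold mir
  rw [SA_fU, SA_reverse]

lemma rv_pre {v w : Wd} (h : v <+: w) : rv v <:+ rv w := by
  obtain ⟨t, rfl⟩ := h
  exact ⟨rv t, (rv_append v t).symm⟩
lemma rv_suf {v w : Wd} (h : v <:+ w) : rv v <+: rv w := by
  obtain ⟨t, rfl⟩ := h
  exact ⟨rv t, (rv_append t v).symm⟩
lemma rv_inf {v w : Wd} (h : v <:+: w) : rv v <:+: rv w := by
  obtain ⟨s, t, rfl⟩ := h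
  exact ⟨rv t, rv s, by simp⟩
lemma of_rv_pre {v w : Wd} (h : v <+: rv w) : ∃ s, s <:+ w ∧ v = rv s :=
  ⟨rv v, by have := rv_pre h; rwa [rv_rv] at this, (rv_rv v).symm⟩
lemma of_rv_suf {v w : Wd} (h : v <:+ rv w) : ∃ s, s <+: w ∧ v = rv s :=
  ⟨rv v, by have := rv_suf h; rwa [rv_rv] at this, (rv_rv v).symm⟩
lemma of_rv_inf {v w : Wd} (h : v <:+: rv w) : ∃ s, s <:+: w ∧ v = rv s :=
  ⟨rv v, by have := rv_inf h; rwa [rv_rv] at this, (rv_rv v).symm⟩

lemma mir_pre {v w : Wd} (h : v <+: w) : mir v <:+ mir w := by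
  obtain ⟨t, rfl⟩ := h
  exact ⟨mir t, (mir_append v t).symm⟩
lemma mir_suf {v w : Wd} (h : v <:+ w) : mir v <+: mir w := by
  obtain ⟨t, rfl⟩ := h
  exact ⟨mir t, (mir_append t v).symm⟩
lemma mir_inf {v w : Wd} (h : v <:+: w) : mir v <:+: mir w := by
  obtain ⟨s, t, rfl⟩ := h
  exact ⟨mir t, mir s, by simp⟩
lemma of_mir_pre {v w : Wd} (h : v <+: mir w) : ∃ s, s <:+ w ∧ v = mir s :=
  ⟨mir v, by have := mir_pre h; rwa [mir_mir] at this, (mir_mir v).symm⟩
lemma of_mir_suf {v w : Wd} (h : v <:+ mir w) : ∃ s, s <+: w ∧ v = mir s :=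
  ⟨mir v, by have := mir_suf h; rwa [mir_mir] at this, (mir_mir v).symm⟩
lemma of_mir_inf {v w : Wd} (h : v <:+: mir w) : ∃ s, s <:+: w ∧ v = mir s :=
  ⟨mir v, by have := mir_inf h; rwa [mir_mir] at this, (mir_mir v).symm⟩

/-! ### the U-turn -/

/-- the U-turn -/
def ut (f g : Wd) : Wd := f ++ .R :: mir g

variable {eta t : ℝ} {f g : Wd}

lemma SA_single (s : St) : SA [s] := by
  intro v hv h0 h1
  rcases List.infix_cons_iff.1 hv with h | h
  · rcases List.prefix_cons_iff.1 h with h2 | ⟨u, h2, h3⟩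
    · exact h0 h2
    · rw [List.prefix_nil.1 h3] at h2
      subst h2
      obtain ⟨h4, h5⟩ := h1
      cases s <;> simp [dx] at h4 h5
  · exact h0 (List.infix_nil.1 h)

lemma suf_single {s : Wd} {x : St} (h : s <:+ [x]) (h0 : s ≠ []) : s = [x] := by
  rcases List.suffix_cons_iff.1 h with h1 | h1
  · exact h1
  · exact absurd (List.suffix_nil.1 h1) h0

lemma ut_SA (hf : f ∈ FS eta t) (hg : g ∈ FS eta t) : SA (ut f g) := by
  have h1 : SA ([St.R] ++ mir g) := by
    refine SA_append (SA_single _) (SA_mir.2 hg.1) ?_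
    intro s p hs hp hs' hp' h0
    obtain ⟨q, hq, rfl⟩ := of_mir_pre hp'
    have h2 := hg.2.2.1 q hq
    have h3 := h0.1
    rw [suf_single hs' hs, X_mir] at h3
    simp [dx] at h3
    omega
  refine SA_append hf.1 h1 ?_
  intro s p hs hp hs' hp' h0
  have h2 := hf.2.2.1 s hs'
  have h3 : 0 < X p := by
    rcases prefix_append_cases (show p <+: [St.R] ++ mir g from hp') with h4 | ⟨q, -, hq, rfl⟩
    · rcases List.prefix_cons_iff.1 h4 with h5 | ⟨u, h5, h6⟩
      · exact absurd h5 hp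
      · rw [List.prefix_nil.1 h6] at h5
        subst h5
        simp [dx]
    · obtain ⟨q', hq', rfl⟩ := of_mir_pre hq
      have h2 := hg.2.2.1 q' hq'
      rw [X_append, X_mir]
      simp [dx]
      omega
  have := h0.1
  omega

/-- the infixes of the U-turn -/
lemma ut_inf (hf : f ∈ FS eta t) (hg : g ∈ FS eta t) (h1 : 1 ≤ eta * t) (h2 : eta ≤ 1 / 10 ^ 5) (ht : 100 ≤ t) {v : Wd}
    (hv : v <:+: ut f g) : |(X v : ℝ)| ≤ 26 * eta * t ∧ |(Y v : ℝ)| ≤ 301 * t := by
  have het : eta * t ≤ t / 10 ^ 5 := by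
    have := mul_le_mul_of_nonneg_right h2 (show 0 ≤ t by linarith)
    linarith
  have e : ut f g = f ++ ([St.R] ++ mir g) := rfl
  rw [e] at hv
  -- an infix is the concatenation of an infix of f, a piece of [R] and an infix of mir g
  obtain ⟨a, b, c, hv', ha, hb, hc⟩ : ∃ a b c : Wd, v = a ++ (b ++ c) ∧ a <:+: f ∧ b <:+: [St.R] ∧ c <:+: mir g := by
    rcases List.infix_append_iff_ne_nil.1 hv with h | h | ⟨s, p, -, -, rfl, hs, hp⟩
    · exact ⟨v, [], [], by simp, h, List.nil_infix, List.nil_infix⟩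
    · rcases List.infix_append_iff_ne_nil.1 h with h | h | ⟨s, p, -, -, rfl, hs, hp⟩
      · exact ⟨[], v, [], by simp, List.nil_infix, h, List.nil_infix⟩
      · exact ⟨[], [], v, by simp, List.nil_infix, List.nil_infix, h⟩
      · exact ⟨[], s, p, by simp, List.nil_infix, hs.isInfix, hp.isInfix⟩
    · rcases prefix_append_cases hp with h | ⟨q, -, hq, rfl⟩
      · exact ⟨s, p, [], by simp, hs.isInfix, h.isInfix, List.nil_infix⟩
      · exact ⟨s, [St.R], q, by simp, hs.isInfix, List.infix_refl _, hq.isInfix⟩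
  obtain ⟨a1, a2, a3⟩ := hf.2.2.2.2 a ha
  obtain ⟨c', hc', rfl⟩ := of_mir_inf hc
  obtain ⟨c1, c2, c3⟩ := hg.2.2.2.2 c' hc'
  have hb1 : 0 ≤ X b ∧ X b ≤ 2 ∧ Y b = 0 := by
    rcases List.infix_cons_iff.1 hb with h | h
    · rcases List.prefix_cons_iff.1 h with h2 | ⟨u, h2, h3⟩
      · rw [h2]
        simp
      · rw [List.prefix_nil.1 h3] at h2
        subst h2
        simp [dx, dy]
    · rw [List.infix_nil.1 h]
      simp
  obtain ⟨b1, b2, b3⟩ := hb1
  have b1' : (0 : ℝ) ≤ X b := by exact_mod_cast b1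
  have b2' : (X b : ℝ) ≤ 2 := by exact_mod_cast b2
  subst hv'
  simp only [X_append, Y_append, X_mir, Y_mir, b3]
  push_cast
  rw [abs_le] at a1 a2 c1 c2 ⊢
  rw [abs_le]
  obtain ⟨a1, a1'⟩ := a1
  obtain ⟨a2, a2'⟩ := a2
  obtain ⟨c1, c1'⟩ := c1
  obtain ⟨c2, c2'⟩ := c2
  refine ⟨⟨by linarith, by linarith⟩, by linarith, by linarith⟩

/-- **the cut** -/
theorem ut_cut (hf : f ∈ FS eta t) (hg : g ∈ FS eta t) (h1 : 1 ≤ eta * t) (h2 : eta ≤ 1 / 10 ^ 5) (ht : 100 ≤ t) :
    ∃ p q : Wd, ut f g = p ++ rv q ∧ p ∈ FA eta t ∧ q ∈ FA eta t := by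
  have het : eta * t ≤ t / 10 ^ 5 := by
    have := mul_le_mul_of_nonneg_right h2 (show 0 ≤ t by linarith)
    linarith
  have hSA := ut_SA hf hg
  -- the maximum
  obtain ⟨k, hk, hmax⟩ : ∃ k ∈ Finset.range ((ut f g).length + 1), ∀ i ∈ Finset.range ((ut f g).length + 1),
      X ((ut f g).take i) + Y ((ut f g).take i) ≤ X ((ut f g).take k) + Y ((ut f g).take k) :=
    Finset.exists_max_image _ _ ⟨0, by simp⟩
  obtain ⟨p, hp⟩ : ∃ p : Wd, p = (ut f g).take k := ⟨_, rfl⟩
  obtain ⟨r, hr⟩ : ∃ r : Wd, r = (ut f g).drop k := ⟨_, rfl⟩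
  have hpr : ut f g = p ++ r := by rw [hp, hr, List.take_append_drop]
  have m1 : ∀ s, s <:+ p → 0 ≤ X s + Y s := by
    rintro s ⟨a, ha⟩
    have h3 := hmax a.length (by
      rw [Finset.mem_range, hpr, ← ha]
      simp)
    have h4 : (ut f g).take a.length = a := by
      rw [hpr, ← ha, List.append_assoc, List.take_left]
    rw [h4, ← hp, ← ha, X_append, Y_append] at h3
    omega
  have m2 : ∀ s, s <+: r → X s + Y s ≤ 0 := by
    rintro s ⟨a, ha⟩
    have h3 := hmax (p ++ s).length (by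
      rw [Finset.mem_range, hpr, ← ha]
      simp)
    have h4 : (ut f g).take (p ++ s).length = p ++ s := by
      rw [hpr, ← ha, ← List.append_assoc, List.take_left]
    rw [h4, ← hp, X_append, Y_append] at h3
    omega
  have hpi : ∀ v, v <:+: p → v <:+: ut f g := fun v hv => by
    rw [hpr]
    exact hv.trans (List.prefix_append p r).isInfix
  have hri : ∀ v, v <:+: r → v <:+: ut f g := fun v hv => by
    rw [hpr]
    exact hv.trans (List.suffix_append p r).isInfix
  obtain ⟨f1, f2, f3, f4, f5⟩ := hf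
  obtain ⟨g1, g2, g3, g4, g5⟩ := hg
  -- the two conditions that remain
  suffices key : (∀ v, v <+: p → 0 ≤ Y v) ∧ t / 20 ≤ (Y p : ℝ) ∧ (∀ s, s <:+ r → Y s ≤ 0) ∧ (Y r : ℝ) ≤ -(t / 20) by
    obtain ⟨k1, k2, k3, k4⟩ := key
    refine ⟨p, rv r, by rw [rv_rv]; exact hpr, ⟨hSA.ifx (hpi p (List.infix_refl _)), k1, m1, k2, fun v hv =>
      ut_inf ⟨f1, f2, f3, f4, f5⟩ ⟨g1, g2, g3, g4, g5⟩ h1 h2 ht (hpi v hv)⟩,
      ⟨SA_rv.2 (hSA.ifx (hri r (List.infix_refl _))), fun v hv => ?_, fun v hv => ?_, ?_, fun v hv => ?_⟩⟩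
    · obtain ⟨s, hs, rfl⟩ := of_rv_pre hv
      rw [Y_rv]
      have := k3 s hs
      omega
    · obtain ⟨s, hs, rfl⟩ := of_rv_suf hv
      rw [X_rv, Y_rv]
      have := m2 s hs
      omega
    · rw [Y_rv]
      push_cast
      linarith
    · obtain ⟨s, hs, rfl⟩ := of_rv_inf hv
      rw [X_rv, Y_rv]
      push_cast
      rw [abs_neg, abs_neg]
      exact ut_inf ⟨f1, f2, f3, f4, f5⟩ ⟨g1, g2, g3, g4, g5⟩ h1 h2 ht (hri s hs)
  have e : p ++ r = f ++ ([St.R] ++ mir g) := hpr.symm
  have sm : ∀ s, s <:+ mir g → Y s ≤ 0 := by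
    intro s hs
    obtain ⟨q, hq, rfl⟩ := of_mir_suf hs
    rw [Y_mir]
    have := g2 q hq
    omega
  have sg : (Y (mir g) : ℝ) ≤ -(t / 10) := by
    rw [Y_mir]
    push_cast
    linarith
  have cases : (∃ h, f = p ++ h ∧ r = h ++ ([St.R] ++ mir g)) ∨ ∃ h, p = f ++ ([St.R] ++ h) ∧ mir g = h ++ r := by
    rcases List.append_eq_append_iff.1 e with ⟨h, h3, h4⟩ | ⟨h, h3, h4⟩
    · exact Or.inl ⟨h, h3, h4⟩
    · cases h with
      | nil =>
        left
        refine ⟨[], by rw [h3]; simp, ?_⟩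
        rw [List.nil_append] at h4 ⊢
        exact h4.symm
      | cons x h =>
        right
        have h5 : St.R = x ∧ mir g = h ++ r := by
          simpa using h4
        obtain ⟨h6, h7⟩ := h5
        subst h6
        exact ⟨h, h3, h7⟩
  rcases cases with ⟨h, h3, h4⟩ | ⟨h, h3, h4⟩
  · -- the cut is in f: f = p ++ h, r = h ++ R :: mir g
    have hh : h <:+ f := ⟨p, h3.symm⟩
    have hpf : p <+: f := ⟨h, h3.symm⟩
    have a1 : 0 ≤ X h := f3 h hh
    have a2 : X h + Y h ≤ 0 := m2 h ⟨_, h4.symm⟩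
    have a3 : (Y h : ℝ) ≤ 0 := by exact_mod_cast (by omega : Y h ≤ 0)
    have a4 : (Y f : ℝ) = Y p + Y h := by
      rw [h3, Y_append]
      push_cast
      ring
    refine ⟨fun v hv => f2 v (hv.trans hpf), by linarith, fun s hs => ?_, ?_⟩
    · rw [h4] at hs
      rcases suffix_append_cases hs with h5 | ⟨q, -, hq, rfl⟩
      · rcases suffix_append_cases h5 with h6 | ⟨q, -, hq, rfl⟩
        · exact sm s h6
        · have h7 : Y q = 0 := by
            rcases List.suffix_cons_iff.1 hq with h8 | h8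
            · rw [h8]
              rfl
            · rw [List.suffix_nil.1 h8]
              rfl
          have h8 := sm (mir g) (List.suffix_refl _)
          rw [Y_append, h7]
          omega
      · obtain ⟨q', hq'⟩ := hq
        have b1 : q' <:+: f := by
          rw [h3, ← hq']
          exact ⟨p, q, by simp⟩
        have b2 := (f5 q' b1).2.2
        have b3 : (Y h : ℝ) = Y q' + Y q := by
          rw [← hq', Y_append]
          push_cast
          ring
        have b4 : (Y (q ++ ([St.R] ++ mir g)) : ℝ) ≤ 0 := by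
          have b5 : Y (q ++ ([St.R] ++ mir g)) = Y q + Y (mir g) := by
            simp [dy]
          rw [b5]
          push_cast
          linarith
        exact_mod_cast b4
    · have b5 : Y r = Y h + Y (mir g) := by
        rw [h4]
        simp [dy]
      rw [b5]
      push_cast
      linarith
  · -- the cut is behind f: p = f ++ R :: h, mir g = h ++ r
    have hhp : h <+: mir g := ⟨r, h4.symm⟩
    obtain ⟨q, hq, hqe⟩ := of_mir_pre hhp
    have a1 := (g5 q hq.isInfix).1
    rw [abs_le] at a1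
    have a2 := m1 ([St.R] ++ h) ⟨f, h3.symm⟩
    have a3 : X ([St.R] ++ h) + Y ([St.R] ++ h) = 2 + X q + Y h := by
      rw [hqe]
      simp [dx, dy]
    rw [a3] at a2
    have a4 : (0 : ℝ) ≤ 2 + X q + Y h := by exact_mod_cast a2
    have a5 : -(14 * (eta * t)) ≤ (Y h : ℝ) := by
      obtain ⟨-, a1⟩ := a1
      linarith
    have a6 : (Y (mir g) : ℝ) = Y h + Y r := by
      rw [h4, Y_append]
      push_cast
      ring
    have a7 : (Y p : ℝ) = Y f + Y h := by
      rw [h3]
      simp [dy]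
    refine ⟨fun v hv => ?_, by linarith, fun s hs => sm s (by rw [h4]; exact hs.trans (List.suffix_append h r)), by linarith⟩
    rw [h3] at hv
    rcases prefix_append_cases hv with h5 | ⟨y, -, hy, rfl⟩
    · exact f2 v h5
    · rcases prefix_append_cases hy with h6 | ⟨y', -, hy', rfl⟩
      · have h7 : Y y = 0 := by
          rcases List.prefix_cons_iff.1 h6 with h8 | ⟨u, h8, h9⟩
          · rw [h8]
            rfl
          · rw [List.prefix_nil.1 h9] at h8
            rw [h8]
            rfl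
        have h8 := f2 f (List.prefix_refl _)
        rw [Y_append, h7]
        omega
      · obtain ⟨y'', hy''⟩ := hy'
        have b1 : y'' <:+: mir g := by
          rw [h4, ← hy'']
          exact ⟨y', r, by simp⟩
        obtain ⟨z, hz, hze⟩ := of_mir_inf b1
        have b2 := (g5 z hz).2.2
        have b3 : (Y h : ℝ) = Y y' - Y z := by
          rw [← hy'', Y_append, hze, Y_mir]
          push_cast
          ring
        have b4 : (0 : ℝ) ≤ (Y (f ++ ([St.R] ++ y')) : ℝ) := by
          have b5 : Y (f ++ ([St.R] ++ y')) = Y f + Y y' := by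
            simp [dy]
          rw [b5]
          push_cast
          linarith
        exact_mod_cast b4

/-- the end of f and its column determine f -/
lemma ut_inj {f' g' : Wd} (hf : ∀ v, v <:+ f → 0 ≤ X v) (hf' : ∀ v, v <:+ f' → 0 ≤ X v) (hX : X f = X f')
    (h : ut f g = ut f' g') : f = f' ∧ g = g' := by
  have key : ∀ {f g f' g' : Wd}, (∀ v, v <:+ f' → 0 ≤ X v) → X f = X f' → ∀ as : Wd, f' = f ++ as →
      St.R :: mir g = as ++ St.R :: mir g' → as = [] := by
    intro f g f' g' hf' hX as h1 h2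
    cases as with
    | nil => rfl
    | cons x as =>
      exfalso
      have h3 : St.R = x := by
        have := congrArg List.head? h2
        simpa using this
      subst h3
      have h4 := hf' as ⟨f ++ [St.R], by rw [h1]; simp⟩
      rw [h1, X_append, X_cons] at hX
      simp only [dx] at hX
      omega
  rcases List.append_eq_append_iff.1 h with ⟨as, h1, h2⟩ | ⟨as, h1, h2⟩
  · have h3 := key hf' hX as h1 h2
    subst h3
    rw [List.append_nil] at h1
    rw [List.nil_append] at h2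
    refine ⟨h1.symm, ?_⟩
    have h4 : mir g = mir g' := by simpa using h2
    have := congrArg mir h4
    rwa [mir_mir, mir_mir] at this
  · have h3 := key hf hX.symm as h1 h2
    subst h3
    rw [List.append_nil] at h1
    rw [List.nil_append] at h2
    refine ⟨h1, ?_⟩
    have h4 : mir g' = mir g := by simpa using h2
    have := congrArg mir h4
    rw [mir_mir, mir_mir] at this
    exact this.symm

lemma ms_prod2 (lam : ℝ) (A B : Set Wd) :
    Ms lam A * Ms lam B = ∑' p : Wd × Wd, (A ×ˢ B : Set (Wd × Wd)).indicator (fun p => wt lam p.1 * wt lam p.2) p := by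
  have e : ∀ p : Wd × Wd, (A ×ˢ B : Set (Wd × Wd)).indicator (fun p => wt lam p.1 * wt lam p.2) p =
      A.indicator (wt lam) p.1 * B.indicator (wt lam) p.2 := by
    classical
    intro p
    obtain ⟨a, b⟩ := p
    simp only [Set.indicator_apply, Set.mem_prod]
    by_cases h1 : a ∈ A <;> by_cases h2 : b ∈ B <;> simp [h1, h2]
  rw [tsum_congr e, ENNReal.tsum_prod']
  simp only [Ms]
  have e3 : ∀ b : Wd, ∑' d : Wd, A.indicator (wt lam) b * B.indicator (wt lam) d =
      A.indicator (wt lam) b * ∑' d, B.indicator (wt lam) d := fun b => ENNReal.tsum_mul_left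
  rw [tsum_congr e3, ENNReal.tsum_mul_right]

end UT

open UT in
/-- **row D1a**: the mass of the corner pieces of type a -/
theorem massFA : MassFA := by
  classical
  have hxc := xc_pos
  refine ⟨36 / xc, by positivity, fun eta t h0 h1 ht het => ?_⟩
  obtain ⟨Φ, hΦ⟩ : ∃ Φ : Wd × Wd → Wd × Wd, ∀ a ∈ (FS eta t ×ˢ FS eta t : Set (Wd × Wd)),
      ut a.1 a.2 = (Φ a).1 ++ rv (Φ a).2 ∧ (Φ a).1 ∈ FA eta t ∧ (Φ a).2 ∈ FA eta t := by
    refine ⟨fun a => if h : a ∈ (FS eta t ×ˢ FS eta t : Set (Wd × Wd)) then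
      ((ut_cut h.1 h.2 het h1 ht).choose, (ut_cut h.1 h.2 het h1 ht).choose_spec.choose) else a, fun a ha => ?_⟩
    simp only [dif_pos ha]
    exact (ut_cut ha.1 ha.2 het h1 ht).choose_spec.choose_spec
  have hw : wt 0 [St.R] = ENNReal.ofReal xc := by
    unfold wt
    simp
  have key := ZB.ML.tsum_fib (fun p : Wd × Wd => wt 0 p.1 * wt 0 p.2)
    (fun p : Wd × Wd => ENNReal.ofReal (1 / xc) * (wt 0 p.1 * wt 0 p.2)) Φ (FS eta t ×ˢ FS eta t) (FA eta t ×ˢ FA eta t)
    (ENNReal.ofReal (3 * (12 * eta * t))) (fun a ha => (hΦ a ha).2) (fun a ha => by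
      have h2 := (hΦ a ha).1
      have h3 : wt 0 (ut a.1 a.2) = wt 0 (Φ a).1 * wt 0 (Φ a).2 := by
        rw [h2, wt_append, wt_congr 0 (rv_length (Φ a).2)]
      have h4 : wt 0 (ut a.1 a.2) = wt 0 a.1 * (ENNReal.ofReal xc * wt 0 a.2) := by
        have : ut a.1 a.2 = a.1 ++ ([St.R] ++ mir a.2) := rfl
        rw [this, wt_append, wt_append, hw, wt_congr 0 (mir_length a.2)]
      show wt 0 a.1 * wt 0 a.2 ≤ ENNReal.ofReal (1 / xc) * (wt 0 (Φ a).1 * wt 0 (Φ a).2)
      rw [← h3, h4]
      refine le_of_eq ?_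
      have h5 : ENNReal.ofReal (1 / xc) * ENNReal.ofReal xc = 1 := by
        rw [← ENNReal.ofReal_mul (by positivity), one_div, inv_mul_cancel₀ hxc.ne', ENNReal.ofReal_one]
      calc wt 0 a.1 * wt 0 a.2 = (ENNReal.ofReal (1 / xc) * ENNReal.ofReal xc) * (wt 0 a.1 * wt 0 a.2) := by rw [h5, one_mul]
        _ = _ := by ring) (fun b hb => by
      refine le_trans ?_ (ZB.ML.card_int (r := 12 * eta * t) (by linarith) 0)
      have h2 : ({a | a ∈ (FS eta t ×ˢ FS eta t : Set (Wd × Wd)) ∧ Φ a = b} : Set (Wd × Wd)).encard ≤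
          ({k : ℤ | |(k : ℝ) - (0 : ℤ)| ≤ 12 * eta * t} : Set ℤ).encard := by
        refine Set.encard_le_encard_of_injOn (f := fun a : Wd × Wd => X a.1) ?_ ?_
        · rintro a ⟨ha, -⟩
          have := (ha.1.2.2.2.2 a.1 (List.infix_refl _)).1
          show |((X a.1 : ℤ) : ℝ) - (0 : ℤ)| ≤ 12 * eta * t
          rw [Int.cast_zero, sub_zero]
          exact this
        · rintro a ⟨ha, ha'⟩ c ⟨hc, hc'⟩ hX
          have h3 : ut a.1 a.2 = ut c.1 c.2 := by rw [(hΦ a ha).1, (hΦ c hc).1, ha', hc']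
          obtain ⟨h4, h5⟩ := ut_inj ha.1.2.2.1 hc.1.2.2.1 hX h3
          exact Prod.ext h4 h5
      exact_mod_cast h2)
  rw [pow_two, ms_prod2]
  refine key.trans ?_
  have e2 : ∑' b : Wd × Wd, (FA eta t ×ˢ FA eta t : Set (Wd × Wd)).indicator
      (fun p => ENNReal.ofReal (1 / xc) * (wt 0 p.1 * wt 0 p.2)) b = ENNReal.ofReal (1 / xc) * Ms 0 (FA eta t) ^ 2 := by
    rw [pow_two, ms_prod2, ← ENNReal.tsum_mul_left]
    refine tsum_congr fun b => ?_
    by_cases hb : b ∈ (FA eta t ×ˢ FA eta t : Set (Wd × Wd))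
    · rw [Set.indicator_of_mem hb, Set.indicator_of_mem hb]
    · rw [Set.indicator_of_notMem hb, Set.indicator_of_notMem hb, mul_zero]
  rw [e2, ← mul_assoc, ← ENNReal.ofReal_mul (by positivity)]
  refine mul_le_mul_left (ENNReal.ofReal_le_ofReal ?_) _
  have h2 : eta * t ≤ t := by
    have : eta * t ≤ 1 * t := mul_le_mul_of_nonneg_right (by linarith [show (1 : ℝ) / 10 ^ 5 ≤ 1 by norm_num]) (by linarith)
    linarith
  calc 3 * (12 * eta * t) * (1 / xc) = 36 / xc * (eta * t) := by ring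
    _ ≤ 36 / xc * t := mul_le_mul_of_nonneg_left h2 (by positivity)

end ZT
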