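import Pool.Agent.ZT.Final

/-!
# ZT: uniform large deviations, `P_n (extent ≥ v n) ≤ C exp (- n exp (- C v ^ (- C)))`
-/

set_option autoImplicit false

open MeasureTheory Set Filter
open scoped ENNReal Topology

namespace ZT

/-- uniform large deviation bound -/
def FinalU : Prop := ∃ C : ℝ, 0 < C ∧ ∀ v : ℝ, 0 < v → v ≤ 1 → ∀ n : ℕ,
  (cFar n (v * n) : ℝ) ≤ C * Real.exp (- (n * Real.exp (- (C * v ^ (- C))))) * c n

namespace FN

theorem finalU_of (hm : MuLe) (h1 : MLo) (hw : HW2) (hr : Rate) : FinalU := by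
  obtain ⟨C2, hC2, hw⟩ := hw
  obtain ⟨e0, C0, he, hC0, hR⟩ := hr
  set K : ℝ := (6 / C0) ^ (1 / e0) with hK
  have hK0 : 0 < K := by positivity
  have hl4 : 0 < Real.log 4 := Real.log_pos (by norm_num)
  set C : ℝ := max (3 * C2 + Real.exp 3) (max (Real.log 4 * (K + 1)) (1 / e0)) with hC
  have hCa : 3 * C2 + Real.exp 3 ≤ C := le_max_left _ _
  have hCb : Real.log 4 * (K + 1) ≤ C := (le_max_left _ _).trans (le_max_right _ _)
  have hCc : 1 / e0 ≤ C := (le_max_right _ _).trans (le_max_right _ _)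
  have hC00 : 0 < C := by have := Real.exp_pos 3; linarith
  refine ⟨C, hC00, fun v hv hv1 n => ?_⟩
  -- the scale
  set j := ⌈(6 / (C0 * v)) ^ (1 / e0)⌉₊ with hj
  have hx0 : 0 < (6 / (C0 * v)) ^ (1 / e0) := by positivity
  have hj1 : 1 ≤ j := Nat.ceil_pos.2 hx0
  have hjlo : (6 / (C0 * v)) ^ (1 / e0) ≤ j := Nat.le_ceil _
  have hjhi : (j : ℝ) ≤ (K + 1) * v ^ (- (1 / e0)) := by
    have h2 : (j : ℝ) ≤ (6 / (C0 * v)) ^ (1 / e0) + 1 := (Nat.ceil_lt_add_one hx0.le).le
    have h3 : (6 / (C0 * v)) ^ (1 / e0) = K * v ^ (- (1 / e0)) := by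
      rw [show 6 / (C0 * v) = (6 / C0) * v⁻¹ by field_simp, Real.mul_rpow (by positivity)
        (by positivity), Real.inv_rpow hv.le, Real.rpow_neg hv.le]
    have h4 : (1 : ℝ) ≤ v ^ (- (1 / e0)) := by
      apply Real.one_le_rpow_of_pos_of_le_one_of_nonpos hv hv1
      have : 0 < 1 / e0 := by positivity
      linarith
    rw [h3] at h2
    nlinarith
  have hrj : 6 / v ≤ rj j := by
    refine le_trans ?_ (hR j hj1)
    have h2 : 6 / (C0 * v) ≤ (j : ℝ) ^ e0 := by
      have := Real.rpow_le_rpow hx0.le hjlo he.le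
      rwa [← Real.rpow_mul (by positivity), one_div, inv_mul_cancel₀ he.ne', Real.rpow_one] at this
    calc 6 / v = C0 * (6 / (C0 * v)) := by field_simp
      _ ≤ C0 * (j : ℝ) ^ e0 := by gcongr
  have hlj := lj_pos j
  have hmj : lj j ≤ mj j := h1 (lj j) hlj.le
  have hmj0 : 0 < mj j := hlj.trans_le hmj
  -- 4 ^ j against exp (C v ^ (- C))
  have hbig : Real.exp (- (C * v ^ (- C))) ≤ (lj j) ^ 2 := by
    have h2 : (lj j) ^ 2 = Real.exp (- ((j : ℝ) * Real.log 4)) := by
      rw [lj_exp, ← Real.exp_nat_mul]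
      congr 1
      have : Real.log 4 = 2 * Real.log 2 := by
        rw [show (4:ℝ) = 2 ^ 2 by norm_num, Real.log_pow]; norm_num
      rw [this]; push_cast; ring
    rw [h2]
    apply Real.exp_le_exp.2
    apply neg_le_neg
    have h3 : v ^ (- (1 / e0)) ≤ v ^ (- C) :=
      Real.rpow_le_rpow_of_exponent_ge hv hv1 (by linarith)
    calc (j : ℝ) * Real.log 4 ≤ ((K + 1) * v ^ (- (1 / e0))) * Real.log 4 := by gcongr
      _ = (Real.log 4 * (K + 1)) * v ^ (- (1 / e0)) := by ring
      _ ≤ C * v ^ (- C) := by gcongr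
  have hc0 : (0 : ℝ) ≤ c n := Nat.cast_nonneg _
  set E := Real.exp (- (C * v ^ (- C))) with hE
  have hE0 : 0 < E := Real.exp_pos _
  have hn0 : (0 : ℝ) ≤ n := Nat.cast_nonneg _
  rcases le_total (3 : ℝ) (n * (lj j) ^ 2) with h | h
  · have h5 := ay_le hm hC2 hw hlj (lj_le_one j) (show 0 ≤ m (lj j) from hmj0.le) n (v * n / 2)
    have h6 : 3 / m (lj j) - m (lj j) * (v * n / 2) + lj j * n ≤ - (n * E) := by
      have a1 : 3 / mj j ≤ 3 / lj j := by gcongr
      have a2 : 3 / lj j ≤ n * lj j := by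
        rw [div_le_iff₀ hlj]; nlinarith
      have a3 : 3 * (lj j * n) ≤ mj j * (v * n / 2) := by
        rw [mj_eq]
        have : 6 ≤ rj j * v := by rwa [div_le_iff₀ hv] at hrj
        nlinarith [mul_nonneg hlj.le hn0]
      have a4 : n * E ≤ n * lj j := by
        have : (lj j) ^ 2 ≤ lj j := by nlinarith [lj_le_one j]
        gcongr; exact hbig.trans this
      have a5 : mj j = m (lj j) := rfl
      rw [← a5]; linarith
    have h7 : (cFar n (v * n) : ℝ) ≤ 3 * (AY n (v * n / 2)).ncard := by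
      exact_mod_cast cfar_le n (mul_nonneg hv.le hn0)
    calc (cFar n (v * n) : ℝ) ≤ 3 * (AY n (v * n / 2)).ncard := h7
      _ ≤ 3 * (C2 * Real.exp (- (n * E)) * c n) := by
          refine mul_le_mul_of_nonneg_left (h5.trans ?_) (by norm_num)
          exact mul_le_mul_of_nonneg_right (mul_le_mul_of_nonneg_left (Real.exp_le_exp.2 h6)
            hC2.le) hc0
      _ = (3 * C2) * Real.exp (- (n * E)) * c n := by ring
      _ ≤ C * Real.exp (- (n * E)) * c n := by
          have := Real.exp_pos 3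
          gcongr; linarith
  · have h5 : (cFar n (v * n) : ℝ) ≤ c n := by exact_mod_cast cfar_le_c n _
    have h6 : n * E ≤ 3 := le_trans (by gcongr) h
    have h7 : 1 ≤ C * Real.exp (- (n * E)) := by
      calc (1 : ℝ) = Real.exp 3 * Real.exp (-3) := by rw [← Real.exp_add]; simp
        _ ≤ C * Real.exp (- (n * E)) := by
          gcongr
          linarith
    calc (cFar n (v * n) : ℝ) ≤ 1 * c n := by rw [one_mul]; exact h5
      _ ≤ _ := mul_le_mul_of_nonneg_right h7 hc0

end FN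

end ZT
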