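import Pool.Agent.ZT.Basic
import Pool.Agent.ZB.Rate

/-!
# ZT, assembly: the rate for the inverse correlation length (triangular lattice)
-/

open MeasureTheory Set Filter
open scoped ENNReal Topology

namespace ZT

theorem rj_ge_one (hlo : MLo) (j : ℕ) : 1 ≤ rj j := by
  have h := hlo (lj j) (by unfold lj; positivity)
  unfold rj mj
  calc (1 : ℝ) = 2 ^ j * lj j := by unfold lj; rw [← mul_pow]; norm_num
    _ ≤ _ := by gcongr

theorem rj_mono (hdbl : MDbl) : Monotone rj := by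
  refine monotone_nat_of_le_succ fun j => ?_
  have h := hdbl (lj j) (by unfold lj; positivity)
  rw [show lj j / 2 = lj (j + 1) by unfold lj; rw [pow_succ]; ring] at h
  unfold rj mj
  rw [pow_succ]
  nlinarith [show (0:ℝ) < 2 ^ j by positivity]

/-- no straight scale, far out -/
theorem no_out (hV : MassV) (hF : MassF) (hFA : MassFA) (hL : MassL) (hG : Glue) :
    ∃ s : ℝ, ¬ ZB.Out2 P Hf Wf Df (1 / 10 ^ 5) s := by
  obtain ⟨C0, hC0, hFA⟩ := hFA
  obtain ⟨C1, hC1, hL⟩ := hL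
  obtain ⟨C2, hC2, hG⟩ := hG
  set K : ℝ := (640 * C1) ^ 2 * C2 * C0 with hK
  have hK0 : 0 < K := by positivity
  refine ⟨max (10 ^ 5) ((K + 1) ^ 2), ?_⟩
  rintro ⟨t, R, n, N, hs, hR, hN, h1, h2⟩
  have ht5 : (10 ^ 5 : ℝ) ≤ t := (le_max_left _ _).trans hs
  have ht100 : (100 : ℝ) ≤ t := le_trans (by norm_num) ht5
  have het : 1 ≤ (1 / 10 ^ 5 : ℝ) * t := by
    rw [one_div, ← div_eq_inv_mul, le_div_iff₀ (by norm_num)]; linarith
  have htK : (K + 1) ^ 2 ≤ t := (le_max_right _ _).trans hs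
  have ht0 : 0 < t := by linarith
  have htR : t ≤ R := by
    refine le_trans ?_ hR
    calc t = t ^ 1 := (pow_one t).symm
      _ ≤ t ^ 10 := pow_le_pow_right₀ (by linarith) (by norm_num)
  have hR0 : 0 < R := by linarith
  have hN1 : t ^ 9 ≤ (N : ℝ) := by
    refine le_trans ?_ hN
    have := Real.rpow_le_rpow (by positivity) hR (show (0:ℝ) ≤ 9 / 10 by norm_num)
    refine le_trans (le_of_eq ?_) this
    rw [← Real.rpow_natCast t 10, ← Real.rpow_mul ht0.le, ← Real.rpow_natCast]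
    norm_num
  have hN100 : 100 ≤ N := by
    have : (100 : ℝ) ≤ N := by
      refine le_trans ?_ hN1
      calc (100 : ℝ) ≤ t ^ 1 := by simpa using ht100
        _ ≤ t ^ 9 := pow_le_pow_right₀ (by linarith) (by norm_num)
    exact_mod_cast this
  have hv := hV (1 / 10 ^ 5) t R N (by norm_num) ht0.le hR0.le hN100 h2
  have hf := hF (1 / 10 ^ 5) t n (by norm_num) ht0 h1
  have hfa := hFA (1 / 10 ^ 5) t (by norm_num) le_rfl ht100 het
  have hl := hL (1 / 10 ^ 5) t R (by norm_num) le_rfl ht100 het hR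
  have hg := hG (1 / 10 ^ 5) t R (by norm_num) le_rfl ht100 het hR
  set L := Ms 0 (LS (1 / 10 ^ 5) t R) with hLd
  set F := Ms 0 (FA (1 / 10 ^ 5) t) with hFd
  have hLtop : L ≠ ⊤ := by
    intro h
    rw [h] at hg
    simp at hg
  -- the square of the product
  have h3 : ENNReal.ofReal (((N / 4) ^ 2) ^ 2 * (1 / 40) ^ 2) ≤
      ENNReal.ofReal (C0 * t) * (ENNReal.ofReal (C1 * t ^ 4) * L) ^ 2 := by
    calc ENNReal.ofReal (((N / 4) ^ 2) ^ 2 * (1 / 40) ^ 2)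
        = (ENNReal.ofReal (N / 4) ^ 2) ^ 2 * ENNReal.ofReal (1 / 40) ^ 2 := by
          rw [ENNReal.ofReal_mul (by positivity), ENNReal.ofReal_pow (by positivity),
            ENNReal.ofReal_pow (by positivity), ENNReal.ofReal_pow (by positivity)]
      _ ≤ (Ms 0 (VS (1 / 10 ^ 5) t R) ^ 2) ^ 2 * (ENNReal.ofReal (C0 * t) * F ^ 2) := by
          gcongr
          exact le_trans (by gcongr) hfa
      _ = ENNReal.ofReal (C0 * t) * (Ms 0 (VS (1 / 10 ^ 5) t R) ^ 2 * F) ^ 2 := by ring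
      _ ≤ _ := by gcongr
  have h4 : ((N / 4 : ℝ) ^ 2) ^ 2 * (1 / 40) ^ 2 ≤ C0 * t * (C1 * t ^ 4 * L.toReal) ^ 2 := by
    rw [← ENNReal.ofReal_toReal hLtop, ← ENNReal.ofReal_mul (by positivity),
      ← ENNReal.ofReal_pow (by positivity), ← ENNReal.ofReal_mul (by positivity)] at h3
    exact (ENNReal.ofReal_le_ofReal_iff (by positivity)).1 h3
  have h5 : L.toReal ^ 2 ≤ C2 * R ^ 2 := by
    rw [← ENNReal.ofReal_toReal hLtop, ← ENNReal.ofReal_pow (by positivity)] at hg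
    exact (ENNReal.ofReal_le_ofReal_iff (by positivity)).1 hg
  have h6 : (N : ℝ) ^ 4 ≤ K * t ^ 9 * R ^ 2 := by
    calc (N : ℝ) ^ 4 = 640 ^ 2 * (((N / 4 : ℝ) ^ 2) ^ 2 * (1 / 40) ^ 2) := by ring
      _ ≤ 640 ^ 2 * (C0 * t * (C1 * t ^ 4 * L.toReal) ^ 2) := by gcongr
      _ = (640 * C1) ^ 2 * C0 * t ^ 9 * L.toReal ^ 2 := by ring
      _ ≤ (640 * C1) ^ 2 * C0 * t ^ 9 * (C2 * R ^ 2) := by gcongr
      _ = _ := by rw [hK]; ring
  -- R ^ 3.6 <= N ^ 4
  have h8 : R ^ (18 / 5 : ℝ) ≤ (N : ℝ) ^ 4 := by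
    have h9 : (R ^ (9 / 10 : ℝ)) ^ 4 ≤ (N : ℝ) ^ 4 := by gcongr
    refine le_trans (le_of_eq ?_) h9
    rw [← Real.rpow_natCast (R ^ (9 / 10 : ℝ)), ← Real.rpow_mul hR0.le]
    norm_num
  have h10 : R ^ (18 / 5 : ℝ) = R ^ (7 / 10 : ℝ) * R ^ (9 / 10 : ℝ) * R ^ 2 := by
    rw [← Real.rpow_natCast R 2, ← Real.rpow_add hR0, ← Real.rpow_add hR0]
    norm_num
  have h11 : t ^ 9 ≤ R ^ (9 / 10 : ℝ) := by
    have := Real.rpow_le_rpow (by positivity) hR (show (0:ℝ) ≤ 9 / 10 by norm_num)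
    refine le_trans (le_of_eq ?_) this
    rw [← Real.rpow_natCast t 10, ← Real.rpow_mul ht0.le, ← Real.rpow_natCast]
    norm_num
  have h12 : R ^ (7 / 10 : ℝ) ≤ K := by
    have h13 : R ^ (7 / 10 : ℝ) * (t ^ 9 * R ^ 2) ≤ K * (t ^ 9 * R ^ 2) := by
      calc R ^ (7 / 10 : ℝ) * (t ^ 9 * R ^ 2) ≤ R ^ (7 / 10 : ℝ) * (R ^ (9 / 10 : ℝ) * R ^ 2) := by
            gcongr
        _ = R ^ (18 / 5 : ℝ) := by rw [h10]; ring
        _ ≤ K * t ^ 9 * R ^ 2 := h8.trans h6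
        _ = _ := by ring
    exact le_of_mul_le_mul_right h13 (by positivity)
  have h14 : K + 1 ≤ R ^ (7 / 10 : ℝ) := by
    have h15 : (K + 1) ^ 2 ≤ R := htK.trans htR
    have h16 := Real.rpow_le_rpow (by positivity) h15 (show (0:ℝ) ≤ 7 / 10 by norm_num)
    refine le_trans ?_ h16
    rw [← Real.rpow_natCast (K + 1) 2, ← Real.rpow_mul (by positivity)]
    calc K + 1 = (K + 1) ^ (1 : ℝ) := (Real.rpow_one _).symm
      _ ≤ _ := Real.rpow_le_rpow_of_exponent_le (by linarith) (by norm_num)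
  linarith

/-- the rate -/
theorem rate_of (hA : ZB.AnOut2) (hB : BaseP) (hlo : MLo) (hdbl : MDbl) (hV : MassV) (hF : MassF)
    (hFA : MassFA) (hL : MassL) (hG : Glue) : Rate := by
  obtain ⟨s, hs⟩ := no_out hV hF hFA hL hG
  obtain ⟨d, hd, C, h⟩ := hA P Hf Lf Wf Df mj hB (1 / 10 ^ 5) (by norm_num) (by norm_num)
  obtain ⟨K0, hK0⟩ := (h s).exists_forall_of_atTop
  refine ZB.growth (rj_mono hdbl) (rj_ge_one hlo) hd (C := C) (K0 := K0) fun k hk => ?_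
  rcases hK0 k hk with h1 | h1 | h1
  · exact absurd h1 hs
  · exact Or.inl h1
  · exact Or.inr h1

end ZT
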