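import Pool.Agent.ZT.Defs

/-!
# ZT, row B4 (helper16): irreducible bridges that are too short against their height are rare

* **`tRow_of : F1 → F2 → MU → MLo → Short → TRow`**.
-/

open MeasureTheory Set Filter
open scoped ENNReal Topology

namespace ZT

namespace TR

lemma Ms_mono {lam : ℝ} {A B : Set Wd} (h : A ⊆ B) : Ms lam A ≤ Ms lam B :=
  ENNReal.tsum_le_tsum fun w => indicator_le_indicator_of_subset h (fun _ => bot_le) w

lemma Ms_union {lam : ℝ} (A B : Set Wd) : Ms lam (A ∪ B) ≤ Ms lam A + Ms lam B := by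
  unfold Ms
  rw [← ENNReal.tsum_add]
  refine ENNReal.tsum_le_tsum fun w => ?_
  by_cases h : w ∈ A
  · rw [indicator_of_mem (show w ∈ A ∪ B from Or.inl h), indicator_of_mem h]
    exact le_self_add
  · by_cases h' : w ∈ B
    · rw [indicator_of_mem (show w ∈ A ∪ B from Or.inr h'), indicator_of_mem h']
      exact le_add_self
    · rw [indicator_of_notMem (by rintro (h1 | h1); exacts [h h1, h' h1])]
      exact bot_le

lemma wt_anti {lam lam' : ℝ} (h : lam ≤ lam') (w : Wd) : wt lam' w ≤ wt lam w := by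
  unfold wt
  refine ENNReal.ofReal_le_ofReal (pow_le_pow_left₀ ?_ ?_ _)
  · unfold xc mu
    positivity
  · refine mul_le_mul_of_nonneg_left (Real.exp_le_exp.2 (by linarith)) ?_
    unfold xc mu
    positivity

lemma Ms_anti {lam lam' : ℝ} (h : lam ≤ lam') (A : Set Wd) : Ms lam' A ≤ Ms lam A :=
  ENNReal.tsum_le_tsum fun w => indicator_le_indicator (wt_anti h w)

lemma lj_pos (j : ℕ) : 0 < lj j := by
  unfold lj
  positivity

lemma lj_rj (j : ℕ) : lj j * rj j = mj j := by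
  unfold lj rj
  rw [← mul_assoc, ← mul_pow]
  norm_num

/-- numbers for the small folds -/
lemma num1 {c : ℝ} (hc : 0 < c) : ∀ᶠ x : ℝ in atTop, 2 * Real.exp (-(c * x ^ (1 / 5 : ℝ))) ≤
    Real.exp (-x ^ (1 / 30 : ℝ)) / 2 := by
  have t1 : Tendsto (fun x : ℝ => x ^ (1 / 6 : ℝ)) atTop atTop := tendsto_rpow_atTop (by norm_num)
  have t2 : Tendsto (fun x : ℝ => x ^ (1 / 30 : ℝ)) atTop atTop := tendsto_rpow_atTop (by norm_num)
  filter_upwards [t1.eventually_ge_atTop (2 / c), t2.eventually_ge_atTop (Real.log 4), eventually_gt_atTop 0] with x h1 h2 hx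
  have e : x ^ (1 / 5 : ℝ) = x ^ (1 / 6 : ℝ) * x ^ (1 / 30 : ℝ) := by
    rw [← Real.rpow_add hx]
    norm_num
  rw [div_le_iff₀ hc] at h1
  have h3 : 0 < x ^ (1 / 30 : ℝ) := by positivity
  have h4 : Real.log 4 + x ^ (1 / 30 : ℝ) ≤ c * x ^ (1 / 5 : ℝ) := by
    rw [e]
    nlinarith
  have h5 : (4 : ℝ) * Real.exp (x ^ (1 / 30 : ℝ)) ≤ Real.exp (c * x ^ (1 / 5 : ℝ)) := by
    have := Real.exp_le_exp.2 h4
    rwa [Real.exp_add, Real.exp_log (by norm_num)] at this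
  rw [Real.exp_neg, Real.exp_neg]
  have h6 := Real.exp_pos (x ^ (1 / 30 : ℝ))
  have h7 := Real.exp_pos (c * x ^ (1 / 5 : ℝ))
  rw [← div_eq_mul_inv, div_le_iff₀ h7]
  calc (2 : ℝ) = (Real.exp (x ^ (1 / 30 : ℝ)))⁻¹ / 2 * (4 * Real.exp (x ^ (1 / 30 : ℝ))) := by
        field_simp
        norm_num
    _ ≤ _ := mul_le_mul_of_nonneg_left h5 (by positivity)

/-- numbers for the big folds -/
lemma num2 {c : ℝ} (hc : 0 < c) : ∀ᶠ x : ℝ in atTop, 4 * x ^ 4 * Real.exp (-(c * x ^ (2 / 35 : ℝ))) ≤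
    Real.exp (-x ^ (1 / 30 : ℝ)) / 2 := by
  have t1 : Tendsto (fun x : ℝ => x ^ (1 / 42 : ℝ)) atTop atTop := tendsto_rpow_atTop (by norm_num)
  have t2 : Tendsto (fun x : ℝ => x ^ (1 / 30 : ℝ)) atTop atTop := tendsto_rpow_atTop (by norm_num)
  filter_upwards [t1.eventually_ge_atTop (122 / c), t2.eventually_ge_atTop (Real.log 8), eventually_gt_atTop 0] with x h1 h2 hx
  have e : x ^ (2 / 35 : ℝ) = x ^ (1 / 42 : ℝ) * x ^ (1 / 30 : ℝ) := by
    rw [← Real.rpow_add hx]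
    norm_num
  rw [div_le_iff₀ hc] at h1
  have h3 : 0 < x ^ (1 / 30 : ℝ) := by positivity
  have h8 : Real.log x ≤ x ^ (1 / 30 : ℝ) / (1 / 30) := Real.log_le_rpow_div hx.le (by norm_num)
  have h4 : Real.log 8 + 4 * Real.log x + x ^ (1 / 30 : ℝ) ≤ c * x ^ (2 / 35 : ℝ) := by
    rw [e]
    have h9 : 122 * x ^ (1 / 30 : ℝ) ≤ x ^ (1 / 42 : ℝ) * c * x ^ (1 / 30 : ℝ) := mul_le_mul_of_nonneg_right h1 h3.le
    have h10 : x ^ (1 / 30 : ℝ) / (1 / 30) = 30 * x ^ (1 / 30 : ℝ) := by ring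
    rw [h10] at h8
    nlinarith
  have h5 : (8 : ℝ) * x ^ 4 * Real.exp (x ^ (1 / 30 : ℝ)) ≤ Real.exp (c * x ^ (2 / 35 : ℝ)) := by
    have := Real.exp_le_exp.2 h4
    rw [Real.exp_add, Real.exp_add, Real.exp_log (by norm_num)] at this
    have e4 : Real.exp (4 * Real.log x) = x ^ 4 := by
      rw [show (4 : ℝ) * Real.log x = ((4 : ℕ) : ℝ) * Real.log x by norm_num, Real.exp_nat_mul, Real.exp_log hx]
    rwa [e4] at this
  rw [Real.exp_neg, Real.exp_neg]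
  have h6 := Real.exp_pos (x ^ (1 / 30 : ℝ))
  have h7 := Real.exp_pos (c * x ^ (2 / 35 : ℝ))
  rw [← div_eq_mul_inv, div_le_iff₀ h7]
  calc 4 * x ^ 4 = (Real.exp (x ^ (1 / 30 : ℝ)))⁻¹ / 2 * (8 * x ^ 4 * Real.exp (x ^ (1 / 30 : ℝ))) := by
        field_simp
        norm_num
    _ ≤ _ := mul_le_mul_of_nonneg_left h5 (by positivity)

end TR

open TR

/-- **B4** -/
theorem tRow_of (hF1 : F1) (hF2 : F2) (hMU : MU) (hLo : MLo) (hS : Short) : TRow := by
  intro d hd hd1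
  obtain ⟨x1, hx1⟩ := Filter.eventually_atTop.1 (num1 (show (0 : ℝ) < 1 / 128000 by norm_num))
  obtain ⟨x2, hx2⟩ := Filter.eventually_atTop.1 (num2 (show (0 : ℝ) < d / 4 by positivity))
  obtain ⟨S0, hS0⟩ := exists_nat_ge (max (max x1 x2) 200)
  refine ⟨S0, fun j S hSS hj lam hlam hm => ?_⟩
  have hS0' : max (max x1 x2) 200 ≤ (S : ℝ) := hS0.trans (by exact_mod_cast hSS)
  have g1 : x1 ≤ (S : ℝ) := ((le_max_left _ _).trans (le_max_left _ _)).trans hS0'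
  have g2 : x2 ≤ (S : ℝ) := ((le_max_right _ _).trans (le_max_left _ _)).trans hS0'
  have g3 : (200 : ℝ) ≤ (S : ℝ) := (le_max_right _ _).trans hS0'
  have hSp : (0 : ℝ) < S := by linarith
  have hS1 : 1 ≤ S := by
    have : (1 : ℝ) ≤ S := by linarith
    exact_mod_cast this
  have n1 := hx1 S g1
  have n2 := hx2 S g2
  have hM0 : 0 ≤ m lam := hlam.trans (hLo lam hlam)
  have hmj : 0 < mj j := (lj_pos j).trans_le (hLo _ (lj_pos j).le)
  -- the radius
  obtain ⟨y, hy⟩ : ∃ y : ℝ, y = (S : ℝ) ^ (1 / 5 : ℝ) := ⟨_, rfl⟩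
  have hy1 : (2 : ℝ) ≤ y := by
    have h1 : ((32 : ℝ)) ^ (1 / 5 : ℝ) ≤ y := by
      rw [hy]
      exact Real.rpow_le_rpow (by norm_num) (by linarith) (by norm_num)
    have h2 : ((32 : ℝ)) ^ (1 / 5 : ℝ) = 2 := by
      rw [show (32 : ℝ) = 2 ^ (5 : ℝ) by norm_num, ← Real.rpow_mul (by norm_num)]
      norm_num
    linarith
  have hy5 : y ^ 5 = S := by
    rw [hy, ← Real.rpow_natCast, ← Real.rpow_mul hSp.le]
    norm_num
  obtain ⟨r, hr⟩ : ∃ r : ℕ, r = ⌊y⌋₊ := ⟨_, rfl⟩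
  have hr1 : (r : ℝ) ≤ y := by
    rw [hr]
    exact Nat.floor_le (by linarith)
  have hr2 : y / 2 ≤ r := by
    have := (Nat.lt_floor_add_one y).le
    rw [← hr] at this
    linarith
  have hr3 : (1 : ℝ) ≤ r := by linarith
  have hr4 : 1 ≤ r := by exact_mod_cast hr3
  have hU : ∀ k, u lam k ≤ ENNReal.ofReal (Real.exp (-m lam * k)) := hMU lam hlam
  -- small folds
  have a1 := hF1 lam (m lam) hM0 hU (1 / 40) (by norm_num) (by norm_num) r S hr4 hS1
  have b1 : 2 * Real.exp (-((1 / 40 : ℝ) ^ 2 * ((S : ℝ) - 1) / (40 * (r : ℝ) ^ 4))) ≤ Real.exp (-(S : ℝ) ^ (1 / 30 : ℝ)) / 2 := by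
    refine le_trans ?_ n1
    refine mul_le_mul_of_nonneg_left (Real.exp_le_exp.2 (neg_le_neg ?_)) (by norm_num)
    rw [← hy, le_div_iff₀ (by positivity)]
    have h1 : (r : ℝ) ^ 4 ≤ y ^ 4 := pow_le_pow_left₀ (by linarith) hr1 4
    have h2 : y * y ^ 4 = S := by
      rw [← hy5]
      ring
    have h3 : y * (r : ℝ) ^ 4 ≤ S := by
      rw [← h2]
      exact mul_le_mul_of_nonneg_left h1 (by linarith)
    nlinarith
  -- big folds
  obtain ⟨nu, hnu⟩ : ∃ nu : ℝ, nu = (1 - d) * rj j := ⟨_, rfl⟩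
  have hrj : 0 < rj j := by
    unfold rj
    positivity
  have hnu0 : 0 ≤ nu := by
    rw [hnu]
    exact mul_nonneg (by linarith) hrj.le
  have hb : ∀ k : ℕ, r < k → ENNReal.ofReal (Real.exp (m lam * k)) *
      Ms lam {w | w ∈ BrS k ∧ (w.length : ℝ) < nu * k} ≤ ENNReal.ofReal (Real.exp (-(d / 2 * mj j * r))) := by
    intro k hk
    have h1 := (Ms_anti hlam _).trans (hS (lj j) (lj_pos j).le nu k)
    refine (mul_le_mul_right h1 _).trans ?_
    rw [← ENNReal.ofReal_mul (Real.exp_pos _).le, ← Real.exp_add]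
    refine ENNReal.ofReal_le_ofReal (Real.exp_le_exp.2 ?_)
    have h2 : lj j * nu = (1 - d) * mj j := by
      rw [hnu, ← lj_rj]
      ring
    have h3 : m (lj j) = mj j := rfl
    rw [h3, h2]
    have h4 : (r : ℝ) ≤ k := by exact_mod_cast hk.le
    have h5 : 0 ≤ mj j * d := by positivity
    have h6 : m lam * k ≤ d / 2 * mj j * k := mul_le_mul_of_nonneg_right hm (by positivity)
    nlinarith
  have hrS : (r : ℝ) < (1 - 1 / 40) * ((S : ℝ) - 1) := by
    have h1 : y * 16 ≤ S := by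
      rw [← hy5]
      have : (2 : ℝ) ^ 4 ≤ y ^ 4 := pow_le_pow_left₀ (by norm_num) hy1 4
      nlinarith
    linarith
  have a2 := hF2 lam (m lam) hM0 hU (1 / 40) nu (by norm_num) (by norm_num) hnu0 r S hr4 hrS _ hb
  have b2 : 4 * (S : ℝ) ^ 4 * Real.exp (-(d / 2 * mj j * r)) ≤ Real.exp (-(S : ℝ) ^ (1 / 30 : ℝ)) / 2 := by
    refine le_trans ?_ n2
    refine mul_le_mul_of_nonneg_left (Real.exp_le_exp.2 (neg_le_neg ?_)) (by positivity)
    -- mj j ≥ S ^ (-1/7)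
    obtain ⟨z, hz⟩ : ∃ z : ℝ, z = (S : ℝ) ^ (1 / 7 : ℝ) := ⟨_, rfl⟩
    have hz0 : 0 < z := by
      rw [hz]
      positivity
    have hz7 : z ^ 7 = S := by
      rw [hz, ← Real.rpow_natCast, ← Real.rpow_mul hSp.le]
      norm_num
    have h1 : 1 / mj j ≤ z := by
      by_contra hcon
      push Not at hcon
      have := pow_lt_pow_left₀ hcon hz0.le (by norm_num : (7 : ℕ) ≠ 0)
      rw [hz7] at this
      linarith
    have h2 : 1 ≤ mj j * z := by
      rw [div_le_iff₀ hmj] at h1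
      linarith
    have h3 : (S : ℝ) ^ (2 / 35 : ℝ) * z = y := by
      rw [hz, hy, ← Real.rpow_add hSp]
      norm_num
    have h4 : (S : ℝ) ^ (2 / 35 : ℝ) ≤ mj j * y := by
      rw [← h3]
      have : 0 < (S : ℝ) ^ (2 / 35 : ℝ) := by positivity
      nlinarith
    have h5 : mj j * y ≤ 2 * (mj j * r) := by nlinarith
    nlinarith
  -- together
  have hsub : {w | w ∈ IrS S ∧ (w.length : ℝ) < 2.9 * rj j * S} ⊆
      {w | w ∈ IrS S ∧ (Bs r w : ℝ) < (1 - 1 / 40) * ((S : ℝ) - 1)} ∪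
      {w | w ∈ IrS S ∧ (1 - 1 / 40) * ((S : ℝ) - 1) ≤ (Bs r w : ℝ) ∧ (w.length : ℝ) < nu * ((3 - 2 * (1 / 40)) * S - 2)} := by
    rintro w ⟨h1, h2⟩
    rcases lt_or_ge (Bs r w : ℝ) ((1 - 1 / 40) * ((S : ℝ) - 1)) with h3 | h3
    · exact Or.inl ⟨h1, h3⟩
    · refine Or.inr ⟨h1, h3, h2.trans_le ?_⟩
      rw [hnu]
      have h4 : 2.9 * (S : ℝ) ≤ (1 - d) * ((3 - 2 * (1 / 40)) * S - 2) := by
        have h5 : (0 : ℝ) ≤ (3 - 2 * (1 / 40)) * S - 2 := by linarith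
        have h6 : (99 / 100 : ℝ) * ((3 - 2 * (1 / 40)) * S - 2) ≤ (1 - d) * ((3 - 2 * (1 / 40)) * S - 2) :=
          mul_le_mul_of_nonneg_right (by linarith) h5
        linarith
      nlinarith
  refine (mul_le_mul_right ((Ms_mono hsub).trans (Ms_union _ _)) _).trans ?_
  rw [mul_add]
  refine (add_le_add a1 a2).trans ?_
  have e4 : 4 * (S : ℝ≥0∞) ^ 4 * ENNReal.ofReal (Real.exp (-(d / 2 * mj j * r))) =
      ENNReal.ofReal (4 * (S : ℝ) ^ 4 * Real.exp (-(d / 2 * mj j * r))) := by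
    rw [ENNReal.ofReal_mul (by positivity), ENNReal.ofReal_mul (by norm_num), ENNReal.ofReal_pow (by positivity),
      ENNReal.ofReal_natCast]
    norm_num
  rw [e4, ← ENNReal.ofReal_add (by positivity) (by positivity)]
  exact ENNReal.ofReal_le_ofReal (by linarith)

end ZT
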