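import Pool.Agent.ZT.A1
import Pool.Agent.ZT.A3P
import Pool.Agent.ZT.HW
import Pool.Agent.ZT.F1
import Pool.Agent.ZT.FoldS
import Pool.Agent.ZT.TRow
import Pool.Agent.ZT.EZ
import Pool.Agent.ZT.BaseP
import Pool.Agent.ZT.MassV
import Pool.Agent.ZT.MassF
import Pool.Agent.ZT.MassFA
import Pool.Agent.ZT.Glue
import Pool.Agent.ZT.Rate
import Pool.Agent.ZT.PubU
import Pool.Agent.ZB.WinI

/-!
# ZT: everything together (triangular lattice); open: `MassL`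
-/

namespace ZT

theorem hw1 : HW1 := HW.hw1 muLe
theorem hw2 : HW2 := HW.hw2 muLe uLe1
theorem prob : Prob := prob_of uLe1 hw1
theorem mU : MU := MF.mU uLe1
theorem mLo : MLo := MF.mLo uLe1
theorem tRow : TRow := tRow_of (f1 ren) F2_of mU mLo (MF.short_row uLe1)
theorem eZ : EZ := eZ_of ren mU (MF.mBest uLe1 uSup) mLo hw2
theorem baseP_all : BaseP :=
  baseP pInt prob mLo (MF.mMono uLe1) (MF.mDbl uLe1) (MF.mLim uLe1 hw1) (MF.m0 uLe1 hw1) eZ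
    tRow hw2
theorem rate_all (hL : MassL) : Rate :=
  rate_of ZBW.anOut2 baseP_all mLo (MF.mDbl uLe1) (massV_of prEq prob uniq)
    (massF_of prob prEq uniq) massFA hL (glue_of muLe uLe1)
theorem final_all (hL : MassL) : Final := FN.final_of muLe mLo hw2 (rate_all hL)
theorem finalU_all (hL : MassL) : FinalU := FN.finalU_of muLe mLo hw2 (rate_all hL)

open ZB.Pub (pos saw far mean Re Rg Rm Tail) in
open ZT.Pub in
/-- the public theorem for the triangular lattice -/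
theorem pub_tr (hL : MassL) : ∃ C e : ℝ, 0 < C ∧ 0 < e ∧ ∀ f : ℕ → Fin 6 → ℂ,
    (∀ i a, f i a = Complex.exp (2 * (Real.pi : ℂ) * Complex.I * ((a : ℕ) : ℂ) / 6)) →
    (∀ v : ℝ, 0 < v → v ≤ 1 → ∀ n : ℕ, ((far f n (v * n)).card : ℝ) ≤
      C * Real.exp (- (n * Real.exp (- (C * v ^ (- C))))) * ((saw f n).card : ℝ)) ∧
    (∀ ε : ℝ, 0 < ε → ∃ B : ℝ, ∀ n : ℕ, 2 ≤ n →
      ((far f n (n / (Real.log n) ^ e)).card : ℝ) ≤
        B * Real.exp (- (n : ℝ) ^ (1 - ε)) * ((saw f n).card : ℝ)) ∧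
    ∃ B : ℝ, ∀ n : ℕ, 2 ≤ n →
      mean f n (fun s => Re f s) ≤ B * (n : ℝ) ^ 2 / (Real.log n) ^ (2 * e) ∧
      mean f n (fun s => Rg f s) ≤ B * (n : ℝ) ^ 2 / (Real.log n) ^ (2 * e) ∧
      mean f n (fun s => Rm f s) ≤ B * (n : ℝ) ^ 2 / (Real.log n) ^ (2 * e) := by
  obtain ⟨e, he, h⟩ := main_sq (final_all hL)
  obtain ⟨C, hC, h'⟩ := tailU_of (finalU_all hL)
  exact ⟨C, e, hC, he, fun f hf => ⟨h' f hf, (h f hf).1, (h f hf).2⟩⟩

end ZT
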