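import Pool.Agent.ZB.ListE

/-!
# The triangular lattice: a rate for sub-ballisticity of the self-avoiding walk (doc z2/ZB_58, helper73's corner)

Definitions and the literals of all rows; the same text as `ZB/Defs.lean` with six letters. The abstract rows (section 3)
are those of `ZB`. Coordinates: `Y` = number of the row, `X` = twice the horizontal coordinate (`X + Y` is even);
`X + Y` = twice the number of the row in the direction 30 degrees. `rho` = rotation by -60 degrees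
(`2 X (rho w) = X w + 3 Y w`, `2 Y (rho w) = Y w - X w`, so `X + Y` of `rho w` is `2 Y w`).
-/

open MeasureTheory Set Filter
open scoped ENNReal Topology

namespace ZT

/-! ## Words -/

/-- unit steps of the triangular lattice: 0, 180, 60, 120, 300, 240 degrees -/
inductive St : Type
  | R | L | NE | NW | SE | SW
  deriving DecidableEq, Inhabited

instance : Fintype St := ⟨{.R, .L, .NE, .NW, .SE, .SW}, by intro x; cases x <;> decide⟩

abbrev Wd := List St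

def dx : St → ℤ
  | .R => 2 | .L => -2 | .NE => 1 | .NW => -1 | .SE => 1 | .SW => -1
def dy : St → ℤ
  | .R => 0 | .L => 0 | .NE => 1 | .NW => 1 | .SE => -1 | .SW => -1

/-- displacement of a word -/
def X (w : Wd) : ℤ := (w.map dx).sum
def Y (w : Wd) : ℤ := (w.map dy).sum

/-- self-avoiding: no nonempty infix closes up -/
def SA (w : Wd) : Prop := ∀ v, v <:+: w → v ≠ [] → ¬ (X v = 0 ∧ Y v = 0)

/-- strictly above the start -/
def Up (w : Wd) : Prop := ∀ v, v <+: w → v ≠ [] → 0 < Y v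
/-- the end is weakly highest -/
def Tp (w : Wd) : Prop := ∀ v, v <:+ w → 0 ≤ Y v
/-- bridges (the empty word is one, of height `0`) -/
def Br (w : Wd) : Prop := SA w ∧ Up w ∧ Tp w
/-- irreducible bridges -/
def Ir (w : Wd) : Prop := w ≠ [] ∧ Br w ∧ ∀ u v, w = u ++ v → Br u → Br v → u = [] ∨ v = []

/-- reflection in a horizontal line -/
def fU : St → St
  | .R => .R | .L => .L | .NE => .SE | .SE => .NE | .NW => .SW | .SW => .NW
/-- reflection in a vertical line -/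
def fL : St → St
  | .R => .L | .L => .R | .NE => .NW | .NW => .NE | .SE => .SW | .SW => .SE
/-- rotation by -60 degrees -/
def fR : St → St
  | .R => .SE | .SE => .SW | .SW => .L | .L => .NW | .NW => .NE | .NE => .R
/-- rotation by 60 degrees -/
def fR' : St → St
  | .SE => .R | .SW => .SE | .L => .SW | .NW => .L | .NE => .NW | .R => .NE

def flip (w : Wd) : Wd := w.map fU
/-- the mirror image of the reversed path: a bridge becomes a word whose other points are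
strictly below its end -/
def dag (w : Wd) : Wd := w.reverse.map fL
/-- rotation by -60 degrees: a bridge upwards becomes a bridge in the direction 30 degrees -/
def rho (w : Wd) : Wd := w.map fR

/-- horizontal extent -/
def wid (w : Wd) : ℕ :=
  (Finset.range (w.length + 1) ×ˢ Finset.range (w.length + 1)).sup
    fun ij => (X ((w.take ij.1).drop ij.2)).natAbs

/-! ## Numbers -/

/-- number of self-avoiding walks with `n` steps -/
noncomputable def c (n : ℕ) : ℕ := Set.ncard {w : Wd | w.length = n ∧ SA w}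

/-- connective constant -/
noncomputable def mu : ℝ :=
  Real.exp (sInf (range fun n : ℕ => Real.log (c (n + 1)) / ((n : ℝ) + 1)))

noncomputable def xc : ℝ := mu⁻¹

/-- weight of a word at `x_c exp (- lam)` -/
noncomputable def wt (lam : ℝ) (w : Wd) : ℝ≥0∞ :=
  ENNReal.ofReal ((xc * Real.exp (-lam)) ^ w.length)

/-- mass of a set of words -/
noncomputable def Ms (lam : ℝ) (A : Set Wd) : ℝ≥0∞ := ∑' w : Wd, A.indicator (wt lam) w

/-- bridges of height `T` -/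
def BrS (T : ℕ) : Set Wd := {w | Br w ∧ Y w = T}
/-- irreducible bridges of height `T` -/
def IrS (T : ℕ) : Set Wd := {w | Ir w ∧ Y w = T}

noncomputable def u (lam : ℝ) (T : ℕ) : ℝ≥0∞ := Ms lam (BrS T)
noncomputable def a (lam : ℝ) (T : ℕ) : ℝ≥0∞ := Ms lam (IrS T)

/-- inverse correlation length (vertical): `u lam T <= exp (- m lam T)`, best constant -/
noncomputable def m (lam : ℝ) : ℝ :=
  sInf (range fun T : ℕ => - Real.log (u lam (T + 1)).toReal / ((T : ℝ) + 1))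

/-- `lam_j = 2 ^ (-j)`, `m_j = m lam_j`, `rho_j = m_j / lam_j` -/
noncomputable def lj (j : ℕ) : ℝ := (1 / 2 : ℝ) ^ j
noncomputable def mj (j : ℕ) : ℝ := m (lj j)
noncomputable def rj (j : ℕ) : ℝ := 2 ^ j * mj j

/-! ## Rows A1: words, symmetries, `c_n`, `mu` (41) -/

def MuLe : Prop := (∀ n, mu ^ n ≤ (c n : ℝ)) ∧ 1 ≤ mu ∧ mu ≤ 6
def ULe1 : Prop := ∀ T, u 0 T ≤ 1
def USup : Prop := ∀ lam S T, u lam S * u lam T ≤ u lam (S + T)

/-! ## Rows A2: Hammersley - Welsh as a generating function (34) -/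

def HW1 : Prop := ∑' T, u 0 T = ⊤
def HW2 : Prop := ∃ C : ℝ, 0 < C ∧ ∀ lam : ℝ, 0 < lam → lam ≤ 1 → ∀ N : ℕ,
  Ms lam {w | SA w ∧ ∃ v, v <:+: w ∧ (N : ℤ) ≤ |Y v|} ≤
    ENNReal.ofReal (C * Real.exp (3 / m lam - m lam * N))

/-! ## Rows A3: unique decomposition, renewal, the law `P` of a piece, lists (41) -/

/-- renewal equation -/
def Ren : Prop := ∀ lam T, 1 ≤ T →
  u lam T = ∑ s ∈ Finset.range T, a lam (s + 1) * u lam (T - 1 - s)

instance : MeasurableSpace Wd := ⊤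
instance : DiscreteMeasurableSpace Wd := ⟨fun _ => trivial⟩

/-- Kesten's law of an irreducible bridge -/
noncomputable def P : Measure Wd :=
  Measure.sum fun w : Wd => ({w | Ir w}.indicator (wt 0) w) • Measure.dirac w

def PInt : Prop := ∀ f : Wd → ℝ≥0∞, ∫⁻ w, f w ∂P = ∑' w, {w | Ir w}.indicator (wt 0) w * f w
def Prob : Prop := P Set.univ = 1

/-- lists of `n` irreducible bridges -/
def IL (n : ℕ) : Set (List Wd) := {l | l.length = n ∧ ∀ g ∈ l, Ir g}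
/-- bridges with exactly `n` pieces -/
def Bn (n : ℕ) : Set Wd := List.flatten '' IL n

/-- unique factorisation -/
def Uniq : Prop := ∀ n n' : ℕ, ∀ l ∈ IL n, ∀ l' ∈ IL n', l.flatten = l'.flatten → l = l'
def Fact : Prop := ∀ w, Br w ↔ ∃ n, w ∈ Bn n
def PrEq : Prop := ∀ n (A : Set (List Wd)), ZB.pr P n A = Ms 0 (List.flatten '' (A ∩ IL n))

/-! ## Rows A4: the function `m` (34) -/

def MU : Prop := ∀ lam, 0 ≤ lam → ∀ T, u lam T ≤ ENNReal.ofReal (Real.exp (- m lam * T))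
def MBest : Prop := ∀ lam, 0 ≤ lam → ∀ b C : ℝ,
  (∀ T, u lam T ≤ ENNReal.ofReal (C * Real.exp (- b * T))) → b ≤ m lam
def MLo : Prop := ∀ lam, 0 ≤ lam → lam ≤ m lam
def MMono : Prop := ∀ lam lam', 0 ≤ lam → lam ≤ lam' → m lam ≤ m lam'
def MDbl : Prop := ∀ lam, 0 ≤ lam → m lam ≤ 2 * m (lam / 2)
def M0 : Prop := m 0 = 0
def MLim : Prop := Tendsto mj atTop (𝓝 0)
/-- bridges which are short against `lam`: for `nu = (1 - d) rho_j` the bound is
`exp (- d m_j k)` -/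
def Short : Prop := ∀ lam, 0 ≤ lam → ∀ nu : ℝ, ∀ k : ℕ,
  Ms 0 {w | w ∈ BrS k ∧ (w.length : ℝ) < nu * k} ≤
    ENNReal.ofReal (Real.exp (- (m lam - lam * nu) * k))

/-! ## Rows B: folds (77: F1, F2; 49: F1 as an ODE; 16: (T) and `EZ`) -/

/-- height at time `i` -/
def yt (w : Wd) (i : ℕ) : ℤ := Y (w.take i)

/-- a fold: `T` = last time (before `B`) at the maximum of the past of `B`, `B` = last time at
the minimum of the future of the first visit to the height of `T` -/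
def IsFold (w : Wd) (T B : ℕ) : Prop :=
  T < B ∧ B ≤ w.length ∧ yt w B < yt w T ∧ (∀ i, i ≤ B → yt w i ≤ yt w T) ∧
    (∀ i, T < i → i ≤ B → yt w i < yt w T) ∧
    (∀ j i, j ≤ i → i ≤ w.length → yt w j = yt w T → yt w B ≤ yt w i) ∧
    (∀ i, B < i → i ≤ w.length → yt w B < yt w i)

open Classical in
/-- total size of the folds of size `> r` -/
noncomputable def Bs (r : ℕ) (w : Wd) : ℤ :=
  ∑ T ∈ Finset.range (w.length + 1), ∑ B ∈ Finset.range (w.length + 1),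
    if IsFold w T B ∧ (r : ℤ) < yt w T - yt w B then yt w T - yt w B else 0

/-- F1: few big folds is unlikely.  `M` is a tilt. -/
def F1 : Prop := ∀ lam M : ℝ, 0 ≤ M → (∀ k, u lam k ≤ ENNReal.ofReal (Real.exp (- M * k))) →
  ∀ eps : ℝ, 0 < eps → eps ≤ 1 → ∀ r S : ℕ, 1 ≤ r → 1 ≤ S →
  ENNReal.ofReal (Real.exp (M * S)) *
    Ms lam {w | w ∈ IrS S ∧ (Bs r w : ℝ) < (1 - eps) * ((S : ℝ) - 1)} ≤
    ENNReal.ofReal (2 * Real.exp (- (eps ^ 2 * ((S : ℝ) - 1) / (40 * (r : ℝ) ^ 4))))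

/-- F2: many big folds and short: one part is short. -/
def F2 : Prop := ∀ lam M : ℝ, 0 ≤ M → (∀ k, u lam k ≤ ENNReal.ofReal (Real.exp (- M * k))) →
  ∀ eps nu : ℝ, 0 < eps → eps ≤ 1 → 0 ≤ nu → ∀ r S : ℕ, 1 ≤ r →
  (r : ℝ) < (1 - eps) * ((S : ℝ) - 1) → ∀ b : ℝ≥0∞,
  (∀ k : ℕ, r < k → ENNReal.ofReal (Real.exp (M * k)) *
    Ms lam {w | w ∈ BrS k ∧ (w.length : ℝ) < nu * k} ≤ b) →
  ENNReal.ofReal (Real.exp (M * S)) *
    Ms lam {w | w ∈ IrS S ∧ (1 - eps) * ((S : ℝ) - 1) ≤ (Bs r w : ℝ) ∧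
      (w.length : ℝ) < nu * ((3 - 2 * eps) * S - 2)} ≤ 4 * (S : ℝ≥0∞) ^ 4 * b

/-- B4 (T): irreducible bridges of length `< 2.9 rho_j` times the height -/
def TRow : Prop := ∀ d : ℝ, 0 < d → d ≤ 1 / 100 → ∃ S0 : ℕ, ∀ j S : ℕ, S0 ≤ S →
  (1 / mj j) ^ 7 ≤ S → ∀ lam, 0 ≤ lam → m lam ≤ d / 2 * mj j →
  ENNReal.ofReal (Real.exp (m lam * S)) *
    Ms lam {w | w ∈ IrS S ∧ (w.length : ℝ) < 2.9 * rj j * S} ≤
    ENNReal.ofReal (Real.exp (- (S : ℝ) ^ (1 / 30 : ℝ)))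

/-- B5 (mass gap): `E_p e^Z = 1` -/
def EZ : Prop := ∀ lam, 0 < lam →
  ∑' T : ℕ, ENNReal.ofReal (Real.exp (m lam * T)) * a lam T = 1

/-! ## Rows C: the concrete base (the analysis is `ZB.AnOut2`) -/

noncomputable def Hf (w : Wd) : ℝ := (Y w : ℝ)
noncomputable def Lf (w : Wd) : ℝ := (w.length : ℝ)
noncomputable def Wf (w : Wd) : ℝ := (wid w : ℝ) / 2
noncomputable def Df (w : Wd) : ℝ := (X w : ℝ) / 2

/-- C0 (58): the concrete base -/
def BaseP : Prop := ZB.Base P Hf Lf Wf Df mj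

/-! ## Rows D: corner and gluing -/

/-- straight bridges (upwards) -/
def VS (eta t R : ℝ) : Set Wd :=
  {w | Br w ∧ R / 40 ≤ (Y w : ℝ) ∧ (Y w : ℝ) ≤ 100 * R ∧
    ∀ v, v <+: w → |(X v : ℝ)| ≤ 2 * eta * max t (Y v) ∧ |(X v : ℝ)| ≤ 2 * eta * R}

/-- first corner pieces: the start is lowest, the end is rightmost, nearly monotone in `Y` -/
def FS (eta t : ℝ) : Set Wd :=
  {w | SA w ∧ (∀ v, v <+: w → 0 ≤ Y v) ∧ (∀ v, v <:+ w → 0 ≤ X v) ∧ t / 10 ≤ (Y w : ℝ) ∧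
    ∀ v, v <:+: w → |(X v : ℝ)| ≤ 12 * eta * t ∧ |(Y v : ℝ)| ≤ 300 * t ∧ -(eta * t) ≤ (Y v : ℝ)}

/-- corner pieces of type a: the start is lowest, the end is extreme in the direction 30 degrees (`X + Y` maximal) -/
def FA (eta t : ℝ) : Set Wd :=
  {w | SA w ∧ (∀ v, v <+: w → 0 ≤ Y v) ∧ (∀ v, v <:+ w → 0 ≤ X v + Y v) ∧ t / 20 ≤ (Y w : ℝ) ∧
    ∀ v, v <:+: w → |(X v : ℝ)| ≤ 26 * eta * t ∧ |(Y v : ℝ)| ≤ 301 * t}

/-- L-words: up, then in the direction 30 degrees -/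
def LS (eta t R : ℝ) : Set Wd :=
  {w | ∃ g1 ∈ VS eta t R, ∃ f ∈ FA eta t, ∃ g2 ∈ VS eta t R, w = dag g1 ++ f ++ rho g2}

def MassV : Prop := ∀ eta t R : ℝ, ∀ N : ℕ, 0 < eta → 0 ≤ t → 0 ≤ R → 100 ≤ N →
  ZB.pr P N (ZB.GoodR Hf Wf Df eta t R N)ᶜ ≤ ENNReal.ofReal 0.01 →
  ENNReal.ofReal (N / 4) ≤ Ms 0 (VS eta t R)
def MassF : Prop := ∀ eta t : ℝ, ∀ n : ℕ, 0 < eta → 0 < t →
  ZB.pr P n (ZB.GoodT2 Hf Wf Df eta t)ᶜ ≤ ENNReal.ofReal 0.001 →
  ENNReal.ofReal (1 / 40) ≤ Ms 0 (FS eta t)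
/-- the U-turn -/
def MassFA : Prop := ∃ C : ℝ, 0 < C ∧ ∀ eta t : ℝ, 0 < eta → eta ≤ 1 / 10 ^ 5 → 100 ≤ t → 1 ≤ eta * t →
  Ms 0 (FS eta t) ^ 2 ≤ ENNReal.ofReal (C * t) * Ms 0 (FA eta t) ^ 2
def MassL : Prop := ∃ C : ℝ, 0 < C ∧ ∀ eta t R : ℝ, 0 < eta → eta ≤ 1 / 10 ^ 5 → 100 ≤ t → 1 ≤ eta * t →
  t ^ 10 ≤ R → Ms 0 (VS eta t R) ^ 2 * Ms 0 (FA eta t) ≤
    ENNReal.ofReal (C * t ^ 4) * Ms 0 (LS eta t R)
def Glue : Prop := ∃ C : ℝ, 0 < C ∧ ∀ eta t R : ℝ, 0 < eta → eta ≤ 1 / 10 ^ 5 → 100 ≤ t → 1 ≤ eta * t →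
  t ^ 10 ≤ R → Ms 0 (LS eta t R) ^ 2 ≤ ENNReal.ofReal (C * R ^ 2)

/-! ## Rows E -/

/-- the rate for the inverse correlation length -/
def Rate : Prop := ∃ e C : ℝ, 0 < e ∧ 0 < C ∧ ∀ j : ℕ, 1 ≤ j → C * (j : ℝ) ^ e ≤ rj j

/-- number of self-avoiding words of length `n` with an infix of displacement `>= s` -/
noncomputable def cFar (n : ℕ) (s : ℝ) : ℕ :=
  Set.ncard {w : Wd | w.length = n ∧ SA w ∧ ∃ v, v <:+: w ∧ (s ≤ |(X v : ℝ)| ∨ s ≤ |(Y v : ℝ)|)}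

def Final : Prop := ∃ e : ℝ, 0 < e ∧ ∀ eps : ℝ, 0 < eps → ∃ C : ℝ, 0 < C ∧ ∀ n : ℕ, 2 ≤ n →
  (cFar n (n / (Real.log n) ^ e) : ℝ) ≤ C * Real.exp (- (n : ℝ) ^ (1 - eps)) * c n

end ZT
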